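import Pool.Agent.GreedyCons.Tables

/-! # Kernel checks of the certificate (generated) -/

namespace Pool.Agent.GreedyCons

theorem cA_0 : chkA tabs 0 = true := by decide +kernel
theorem cA_1 : chkA tabs 1 = true := by decide +kernel
theorem cA_2 : chkA tabs 2 = true := by decide +kernel
theorem cA_3 : chkA tabs 3 = true := by decide +kernel
theorem cA_4 : chkA tabs 4 = true := by decide +kernel
theorem cA_5 : chkA tabs 5 = true := by decide +kernel
theorem cA_6 : chkA tabs 6 = true := by decide +kernel
theorem cA_7 : chkA tabs 7 = true := by decide +kernel
theorem cA_8 : chkA tabs 8 = true := by decide +kernel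
theorem cA_9 : chkA tabs 9 = true := by decide +kernel
theorem cA_10 : chkA tabs 10 = true := by decide +kernel
theorem cA_11 : chkA tabs 11 = true := by decide +kernel
theorem cA_12 : chkA tabs 12 = true := by decide +kernel
theorem cA_13 : chkA tabs 13 = true := by decide +kernel
theorem cA_14 : chkA tabs 14 = true := by decide +kernel
theorem cA_15 : chkA tabs 15 = true := by decide +kernel
theorem cA_16 : chkA tabs 16 = true := by decide +kernel
theorem cA_17 : chkA tabs 17 = true := by decide +kernel
theorem cA_18 : chkA tabs 18 = true := by decide +kernel
theorem cA_19 : chkA tabs 19 = true := by decide +kernel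
theorem cA_20 : chkA tabs 20 = true := by decide +kernel
theorem cA_21 : chkA tabs 21 = true := by decide +kernel
theorem cA_22 : chkA tabs 22 = true := by decide +kernel
theorem cA_23 : chkA tabs 23 = true := by decide +kernel
theorem cA_24 : chkA tabs 24 = true := by decide +kernel
theorem cA_25 : chkA tabs 25 = true := by decide +kernel
theorem cA_26 : chkA tabs 26 = true := by decide +kernel
theorem cA_27 : chkA tabs 27 = true := by decide +kernel
theorem cA_28 : chkA tabs 28 = true := by decide +kernel
theorem cA_29 : chkA tabs 29 = true := by decide +kernel
theorem cA_30 : chkA tabs 30 = true := by decide +kernel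
theorem cA_31 : chkA tabs 31 = true := by decide +kernel
theorem cA_32 : chkA tabs 32 = true := by decide +kernel
theorem cA_33 : chkA tabs 33 = true := by decide +kernel
theorem cA_34 : chkA tabs 34 = true := by decide +kernel
theorem cA_35 : chkA tabs 35 = true := by decide +kernel

end Pool.Agent.GreedyCons
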