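import Pool.Agent.GreedyCons.Tables

/-! # Kernel checks of the certificate (generated) -/

namespace Pool.Agent.GreedyCons

theorem cB_0 : chkB tabs 0 = true := by decide +kernel
theorem cB_1 : chkB tabs 1 = true := by decide +kernel
theorem cB_2 : chkB tabs 2 = true := by decide +kernel
theorem cB_3 : chkB tabs 3 = true := by decide +kernel
theorem cB_4 : chkB tabs 4 = true := by decide +kernel
theorem cB_5 : chkB tabs 5 = true := by decide +kernel

end Pool.Agent.GreedyCons
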