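import Pool.Agent.GreedyCons.Tables

/-! # Kernel checks of the certificate (generated) -/

namespace Pool.Agent.GreedyCons

theorem cB_6 : chkB tabs 6 = true := by decide +kernel
theorem cB_7 : chkB tabs 7 = true := by decide +kernel
theorem cB_8 : chkB tabs 8 = true := by decide +kernel
theorem cB_9 : chkB tabs 9 = true := by decide +kernel
theorem cB_10 : chkB tabs 10 = true := by decide +kernel
theorem cB_11 : chkB tabs 11 = true := by decide +kernel

end Pool.Agent.GreedyCons
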