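import Pool.Agent.GreedyCons.Tables

/-! # Kernel checks of the certificate (generated) -/

namespace Pool.Agent.GreedyCons

theorem cB_12 : chkB tabs 12 = true := by decide +kernel
theorem cB_13 : chkB tabs 13 = true := by decide +kernel
theorem cB_14 : chkB tabs 14 = true := by decide +kernel
theorem cB_15 : chkB tabs 15 = true := by decide +kernel
theorem cB_16 : chkB tabs 16 = true := by decide +kernel
theorem cB_17 : chkB tabs 17 = true := by decide +kernel

end Pool.Agent.GreedyCons
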