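import Pool.Agent.GreedyCons.Tables

/-! # Kernel checks of the certificate (generated) -/

namespace Pool.Agent.GreedyCons

theorem cB_18 : chkB tabs 18 = true := by decide +kernel
theorem cB_19 : chkB tabs 19 = true := by decide +kernel
theorem cB_20 : chkB tabs 20 = true := by decide +kernel
theorem cB_21 : chkB tabs 21 = true := by decide +kernel
theorem cB_22 : chkB tabs 22 = true := by decide +kernel
theorem cB_23 : chkB tabs 23 = true := by decide +kernel

end Pool.Agent.GreedyCons
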