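import Pool.Agent.GreedyCons.Tables

/-! # Kernel checks of the certificate (generated) -/

namespace Pool.Agent.GreedyCons

theorem cB_24 : chkB tabs 24 = true := by decide +kernel
theorem cB_25 : chkB tabs 25 = true := by decide +kernel
theorem cB_26 : chkB tabs 26 = true := by decide +kernel
theorem cB_27 : chkB tabs 27 = true := by decide +kernel
theorem cB_28 : chkB tabs 28 = true := by decide +kernel
theorem cB_29 : chkB tabs 29 = true := by decide +kernel

end Pool.Agent.GreedyCons
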