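import Pool.Agent.GreedyCons.Tables

/-! # Kernel checks of the certificate (generated) -/

namespace Pool.Agent.GreedyCons

theorem cB_30 : chkB tabs 30 = true := by decide +kernel
theorem cB_31 : chkB tabs 31 = true := by decide +kernel
theorem cB_32 : chkB tabs 32 = true := by decide +kernel
theorem cB_33 : chkB tabs 33 = true := by decide +kernel
theorem cB_34 : chkB tabs 34 = true := by decide +kernel
theorem cB_35 : chkB tabs 35 = true := by decide +kernel

end Pool.Agent.GreedyCons
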