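import Pool.Agent.GreedyCons.Tables

/-! # Kernel checks of the certificate (generated) -/

namespace Pool.Agent.GreedyCons

theorem cM_0 : chkM tabs 0 = true := by decide +kernel
theorem cM_1 : chkM tabs 1 = true := by decide +kernel
theorem cM_2 : chkM tabs 2 = true := by decide +kernel
theorem cM_3 : chkM tabs 3 = true := by decide +kernel
theorem cM_4 : chkM tabs 4 = true := by decide +kernel
theorem cM_5 : chkM tabs 5 = true := by decide +kernel
theorem cM_6 : chkM tabs 6 = true := by decide +kernel
theorem cM_7 : chkM tabs 7 = true := by decide +kernel
theorem cM_8 : chkM tabs 8 = true := by decide +kernel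
theorem cM_9 : chkM tabs 9 = true := by decide +kernel
theorem cM_10 : chkM tabs 10 = true := by decide +kernel
theorem cM_11 : chkM tabs 11 = true := by decide +kernel
theorem cD_0 : chkD tabs 0 = true := by decide +kernel
theorem cD_1 : chkD tabs 1 = true := by decide +kernel
theorem cD_2 : chkD tabs 2 = true := by decide +kernel
theorem cD_3 : chkD tabs 3 = true := by decide +kernel
theorem cD_4 : chkD tabs 4 = true := by decide +kernel
theorem cD_5 : chkD tabs 5 = true := by decide +kernel
theorem cD_6 : chkD tabs 6 = true := by decide +kernel
theorem cD_7 : chkD tabs 7 = true := by decide +kernel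
theorem cD_8 : chkD tabs 8 = true := by decide +kernel
theorem cD_9 : chkD tabs 9 = true := by decide +kernel
theorem cD_10 : chkD tabs 10 = true := by decide +kernel
theorem cD_11 : chkD tabs 11 = true := by decide +kernel

end Pool.Agent.GreedyCons
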