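import Pool.Agent.GreedyCons.CertE
import Pool.Agent.GreedyCons.CertA
import Pool.Agent.GreedyCons.CertB0
import Pool.Agent.GreedyCons.CertB1
import Pool.Agent.GreedyCons.CertB2
import Pool.Agent.GreedyCons.CertB3
import Pool.Agent.GreedyCons.CertB4
import Pool.Agent.GreedyCons.CertB5
import Pool.Agent.GreedyCons.CertM

/-! # The certificate -/

namespace Pool.Agent.GreedyCons

theorem certA : ∀ c, c < 36 → chkA tabs c = true := by
  intro c hc
  interval_cases c
  · exact cA_0
  · exact cA_1
  · exact cA_2
  · exact cA_3
  · exact cA_4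
  · exact cA_5
  · exact cA_6
  · exact cA_7
  · exact cA_8
  · exact cA_9
  · exact cA_10
  · exact cA_11
  · exact cA_12
  · exact cA_13
  · exact cA_14
  · exact cA_15
  · exact cA_16
  · exact cA_17
  · exact cA_18
  · exact cA_19
  · exact cA_20
  · exact cA_21
  · exact cA_22
  · exact cA_23
  · exact cA_24
  · exact cA_25
  · exact cA_26
  · exact cA_27
  · exact cA_28
  · exact cA_29
  · exact cA_30
  · exact cA_31
  · exact cA_32
  · exact cA_33
  · exact cA_34
  · exact cA_35

theorem certB : ∀ c, c < 36 → chkB tabs c = true := by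
  intro c hc
  interval_cases c
  · exact cB_0
  · exact cB_1
  · exact cB_2
  · exact cB_3
  · exact cB_4
  · exact cB_5
  · exact cB_6
  · exact cB_7
  · exact cB_8
  · exact cB_9
  · exact cB_10
  · exact cB_11
  · exact cB_12
  · exact cB_13
  · exact cB_14
  · exact cB_15
  · exact cB_16
  · exact cB_17
  · exact cB_18
  · exact cB_19
  · exact cB_20
  · exact cB_21
  · exact cB_22
  · exact cB_23
  · exact cB_24
  · exact cB_25
  · exact cB_26
  · exact cB_27
  · exact cB_28
  · exact cB_29
  · exact cB_30
  · exact cB_31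
  · exact cB_32
  · exact cB_33
  · exact cB_34
  · exact cB_35

theorem certD : ∀ c, c < 12 → chkD tabs c = true := by
  intro c hc
  interval_cases c
  · exact cD_0
  · exact cD_1
  · exact cD_2
  · exact cD_3
  · exact cD_4
  · exact cD_5
  · exact cD_6
  · exact cD_7
  · exact cD_8
  · exact cD_9
  · exact cD_10
  · exact cD_11

theorem certM : ∀ c, c < 12 → chkM tabs c = true := by
  intro c hc
  interval_cases c
  · exact cM_0
  · exact cM_1
  · exact cM_2
  · exact cM_3
  · exact cM_4
  · exact cM_5
  · exact cM_6
  · exact cM_7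
  · exact cM_8
  · exact cM_9
  · exact cM_10
  · exact cM_11

end Pool.Agent.GreedyCons
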