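import Pool.Agent.GreedyCons.Check

/-! # Kernel checks of the certificate (generated) -/

namespace Pool.Agent.GreedyCons

theorem cE : chkE = true := by decide +kernel
theorem cAD7 : chkAD 7 AD7 = true := by decide +kernel
theorem cAD8 : chkAD 8 AD8 = true := by decide +kernel
theorem cAD11 : chkAD 11 AD11 = true := by decide +kernel

end Pool.Agent.GreedyCons
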