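import Pool.Agent.GreedyCons.Maps

/-! # The certificate: potentials and kernel-checked inequalities (MP_a0eb8a_nt) -/

namespace Pool.Agent.GreedyCons

/-! ## Loops for kernel evaluation -/

/-- evaluate the argument first -/
noncomputable def strict (x : ℕ) (f : ℕ → Bool) : Bool :=
  Nat.rec (motive := fun _ => Bool) (f 0) (fun n _ => f (Nat.succ n)) x

noncomputable def bAnd (a b : Bool) : Bool := Bool.rec (motive := fun _ => Bool) false b a

/-- `if b then x else y` -/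
noncomputable def bIf (b x y : Bool) : Bool := Bool.rec (motive := fun _ => Bool) y x b

noncomputable def allN (n : ℕ) (f : ℕ → Bool) : Bool :=
  Nat.rec (motive := fun _ => Bool) true (fun i ih => bAnd (f i) ih) n

/-- all words `acc + pos * w`, `w` an admissible word of length `n` preceded by `r` zeros -/
noncomputable def genAll (f : ℕ → Bool) (n : ℕ) : ℕ → ℕ → ℕ → Bool :=
  Nat.rec (motive := fun _ => ℕ → ℕ → ℕ → Bool) (fun _ _ acc => f acc)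
    (fun _ ih r pos acc => bAnd (ih 0 (Nat.mul 2 pos) (Nat.add acc pos))
      (bIf (Nat.ble 3 r) true (ih (Nat.succ r) (Nat.mul 2 pos) acc))) n

/-! ## Fields -/

/-- 20-bit fields -/
def fld (T k : ℕ) : ℕ := Nat.mod (Nat.shiftRight T (Nat.mul 20 k)) 1048576

/-- 20-bit values in 32-bit fields -/
def vfl (T k : ℕ) : ℕ := Nat.mod (Nat.shiftRight T (Nat.mul 32 k)) 1048576

/-- row `a` (29 fields of 32 bits), masked -/
def row (T a : ℕ) : ℕ := Nat.land (Nat.shiftRight T (Nat.mul 928 a)) GOOD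

/-! ## Index maps -/

def iu (p u : ℕ) : ℕ := Nat.mod (Nat.shiftRight IUL (Nat.mul 5 (Nat.add (Nat.mul 128 p) u))) 32
def it (r t : ℕ) : ℕ := Nat.mod (Nat.shiftRight ITL (Nat.mul 5 (Nat.add (Nat.mul 128 r) t))) 32
def ku (p x : ℕ) : ℕ := Nat.mod (Nat.shiftRight KUL (Nat.mul 7 (Nat.add (Nat.mul 2048 p) x))) 128
def kt3 (r x : ℕ) : ℕ := Nat.mod (Nat.shiftRight KT3L (Nat.mul 6 (Nat.add (Nat.mul 2048 r) x))) 64
def kt2 (r x : ℕ) : ℕ := Nat.mod (Nat.shiftRight KT2L (Nat.mul 5 (Nat.add (Nat.mul 256 r) x))) 32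
def ku2 (p x : ℕ) : ℕ := Nat.mod (Nat.shiftRight KU2L (Nat.mul 6 (Nat.add (Nat.mul 256 p) x))) 64
def zp (j a b : ℕ) : ℕ := Nat.mod (Nat.shiftRight (ZPL j) (Nat.mul 8 (Nat.add (Nat.mul 24 a) b))) 256
def pp (k a b : ℕ) : ℕ := Nat.mod (Nat.shiftRight (PPL k) (Nat.mul 8 (Nat.add (Nat.mul 18 a) b))) 256

def inU2 (p i : ℕ) : ℕ := Nat.mod (Nat.shiftRight INU2L (Nat.mul 8 (Nat.add (Nat.mul 64 p) i))) 256
def inZ (j z : ℕ) : ℕ := Nat.mod (Nat.shiftRight (INZL j) (Nat.mul 19 z)) 524288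
def inU3 (p k : ℕ) : ℕ := Nat.mod (Nat.shiftRight INU3L (Nat.mul 11 (Nat.add (Nat.mul 128 p) k))) 2048
def inT3 (r i : ℕ) : ℕ := Nat.mod (Nat.shiftRight INT3L (Nat.mul 11 (Nat.add (Nat.mul 64 r) i))) 2048
def inU7 (p i : ℕ) : ℕ := Nat.mod (Nat.shiftRight INU7L (Nat.mul 7 (Nat.add (Nat.mul 32 p) i))) 128
def inT7 (r i : ℕ) : ℕ := Nat.mod (Nat.shiftRight INT7L (Nat.mul 7 (Nat.add (Nat.mul 32 r) i))) 128

/-- bit `x` of the literal `L` -/
def tb (L x : ℕ) : ℕ := Nat.mod (Nat.shiftRight L x) 2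

/-- the tables of potentials -/
structure Tabs where
  P3 : ℕ → ℕ
  P4 : ℕ → ℕ
  PZ : ℕ → ℕ
  PS : ℕ → ℕ
  P12 : ℕ → ℕ
  G0 : ℕ → ℕ
  G4 : ℕ → ℕ
  P80 : ℕ → ℕ
  P81 : ℕ → ℕ
  G13 : ℕ → ℕ
  P13 : ℕ → ℕ
  SG : ℕ → ℕ
  K : ℕ
  CC : ℕ

/-! ## Check A: class `c = m % 36`, `e = T2 + 256 U3`, `U2` -/

noncomputable def chkA1 (T : Tabs) (c T2 U3 U2 : ℕ) : Bool :=
  bIf (Nat.beq (tb AD8 (Nat.sub 255 (Nat.lor T2 U2))) 0) true
    (Nat.ble
      (Nat.add
        (Nat.add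
          (vfl (T.PS c) (Nat.add (Nat.mul 29 (ku (Nat.mod (Nat.div c 3) 2) U3))
            (iu (Nat.mod c 2) (Nat.mod (Nat.shiftRight (uw4 (Nat.sub 255 (Nat.lor T2 U2))) (Nat.mod c 2)) 128))))
          (vfl (T.P12 (Nat.mod c 12)) (Nat.add
            (Nat.mul 29 (it (Nat.mod (Nat.add (Nat.div c 2) 16) 3) (Nat.mod T2 128)))
            (iu (Nat.mod (Nat.add (Nat.div c 2) 16) 2) (Nat.mod U2 128)))))
        (Nat.add
          (vfl (T.P80 c) (Nat.add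
            (Nat.mul 29 (pp (Nat.mod c 6) (ku (Nat.mod (Nat.div c 3) 2) U3)
              (it (Nat.mod (Nat.add (Nat.div c 2) 16) 3) (Nat.mod T2 128))))
            (iu (Nat.mod (Nat.add (Nat.div c 2) 16) 2) (Nat.mod U2 128))))
          (vfl (T.P81 c) (Nat.add
            (Nat.mul 29 (pp (Nat.add 6 (Nat.mod c 6)) (ku (Nat.mod (Nat.div c 3) 2) U3)
              (it (Nat.mod (Nat.add (Nat.div c 2) 17) 3) (Nat.div T2 2))))
            (iu (Nat.mod (Nat.add (Nat.div c 2) 17) 2) (Nat.div U2 2))))))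
      (Nat.add (fld (T.P3 (Nat.mod c 12)) U2)
        (fld (T.PZ c) (zp (Nat.mod c 6) (ku (Nat.mod (Nat.div c 3) 2) U3)
          (kt2 (Nat.mod (Nat.add (Nat.div c 2) 16) 3) T2)))))

noncomputable def chkA (T : Tabs) (c : ℕ) : Bool :=
  allN 141 fun z => strict (inZ (Nat.mod c 6) z) fun e =>
    strict (Nat.mod e 256) fun T2 => strict (Nat.div e 256) fun U3 =>
      allN 38 fun i => strict (inU2 (Nat.mod (Nat.div c 2) 2) i) fun U2 => chkA1 T c T2 U3 U2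

/-! ## Check B: class `c = m % 36`, all values of `u7 m` at once -/

/-- the part depending on `S3` only, positive side -/
noncomputable def vP (T : Tabs) (c S3 : ℕ) : ℕ :=
  Nat.mul 3 (Nat.add
    (Nat.add
      (row (T.P12 (Nat.mod (Nat.mul 2 (Nat.add c 2)) 12)) (it (Nat.mod c 3) (Nat.mod (Nat.shiftRight (tw3 S3) (Nat.mod c 3)) 128)))
      (row (T.P12 (Nat.mod (Nat.add (Nat.mul 2 (Nat.add c 2)) 1) 12)) (it (Nat.mod c 3) (Nat.mod (Nat.shiftRight (tw3 S3) (Nat.mod c 3)) 128))))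
    (Nat.add
      (Nat.add
        (row (T.P80 (Nat.mod (Nat.mul 2 (Nat.add c 2)) 36))
          (pp (Nat.mod (Nat.mul 2 (Nat.add c 2)) 6)
            (ku (Nat.mod (Nat.div (Nat.mul 2 (Nat.add c 2)) 3) 2)
              (Nat.mod (Nat.shiftRight (uw7 S3) (Nat.sub (Nat.div (Nat.mul 2 (Nat.add c 2)) 3) (Nat.mul 2 (Nat.div c 3)))) 2048))
            (it (Nat.mod c 3) (Nat.mod (Nat.shiftRight (tw3 S3) (Nat.mod c 3)) 128))))
        (row (T.P80 (Nat.mod (Nat.add (Nat.mul 2 (Nat.add c 2)) 1) 36))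
          (pp (Nat.mod (Nat.add (Nat.mul 2 (Nat.add c 2)) 1) 6)
            (ku (Nat.mod (Nat.div (Nat.add (Nat.mul 2 (Nat.add c 2)) 1) 3) 2)
              (Nat.mod (Nat.shiftRight (uw7 S3) (Nat.sub (Nat.div (Nat.add (Nat.mul 2 (Nat.add c 2)) 1) 3) (Nat.mul 2 (Nat.div c 3)))) 2048))
            (it (Nat.mod c 3) (Nat.mod (Nat.shiftRight (tw3 S3) (Nat.mod c 3)) 128)))))
      (Nat.add
        (row (T.P81 (Nat.mod (Nat.mul 2 (Nat.add c 1)) 36))
          (pp (Nat.add 6 (Nat.mod (Nat.mul 2 (Nat.add c 1)) 6))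
            (ku (Nat.mod (Nat.div (Nat.mul 2 (Nat.add c 1)) 3) 2)
              (Nat.mod (Nat.shiftRight (uw7 S3) (Nat.sub (Nat.div (Nat.mul 2 (Nat.add c 1)) 3) (Nat.mul 2 (Nat.div c 3)))) 2048))
            (it (Nat.mod c 3) (Nat.mod (Nat.shiftRight (tw3 S3) (Nat.mod c 3)) 128))))
        (row (T.P81 (Nat.mod (Nat.add (Nat.mul 2 (Nat.add c 1)) 1) 36))
          (pp (Nat.add 6 (Nat.mod (Nat.add (Nat.mul 2 (Nat.add c 1)) 1) 6))
            (ku (Nat.mod (Nat.div (Nat.add (Nat.mul 2 (Nat.add c 1)) 1) 3) 2)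
              (Nat.mod (Nat.shiftRight (uw7 S3) (Nat.sub (Nat.div (Nat.add (Nat.mul 2 (Nat.add c 1)) 1) 3) (Nat.mul 2 (Nat.div c 3)))) 2048))
            (it (Nat.mod c 3) (Nat.mod (Nat.shiftRight (tw3 S3) (Nat.mod c 3)) 128)))))))

/-- the part depending on `S3` only, negative side -/
noncomputable def vN (T : Tabs) (c S3 : ℕ) : ℕ :=
  Nat.add
    (Nat.mul 2 (Nat.add
      (Nat.add (row (T.G0 (Nat.mod (Nat.mul 3 (Nat.add c 4)) 36)) (it (Nat.mod c 3) (Nat.mod (Nat.shiftRight (tw3 S3) (Nat.mod c 3)) 128)))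
        (Nat.add (row (T.G0 (Nat.mod (Nat.add (Nat.mul 3 (Nat.add c 4)) 1) 36)) (it (Nat.mod c 3) (Nat.mod (Nat.shiftRight (tw3 S3) (Nat.mod c 3)) 128)))
          (row (T.G0 (Nat.mod (Nat.add (Nat.mul 3 (Nat.add c 4)) 2) 36)) (it (Nat.mod c 3) (Nat.mod (Nat.shiftRight (tw3 S3) (Nat.mod c 3)) 128)))))
      (Nat.add (row (T.G4 (Nat.mod (Nat.mul 3 c) 36)) (it (Nat.mod c 3) (Nat.mod (Nat.shiftRight (tw3 S3) (Nat.mod c 3)) 128)))
        (Nat.add (row (T.G4 (Nat.mod (Nat.add (Nat.mul 3 c) 1) 36)) (it (Nat.mod c 3) (Nat.mod (Nat.shiftRight (tw3 S3) (Nat.mod c 3)) 128)))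
          (row (T.G4 (Nat.mod (Nat.add (Nat.mul 3 c) 2) 36)) (it (Nat.mod c 3) (Nat.mod (Nat.shiftRight (tw3 S3) (Nat.mod c 3)) 128)))))))
    (Nat.mul 6 (row (T.G13 (Nat.mod c 12)) (it (Nat.mod c 3) (Nat.mod (Nat.shiftRight (tw3 S3) (Nat.mod c 3)) 128))))

/-- the scalar part -/
noncomputable def sY (T : Tabs) (c T3 U3 : ℕ) : ℕ :=
  Nat.add (fld (T.P4 c) (kt3 (Nat.mod (Nat.add (Nat.div c 3) 2) 3) T3))
    (Nat.add
      (vfl (T.G0 c) (Nat.add (Nat.mul 29 (it (Nat.mod (Nat.add (Nat.div c 3) 2) 3) (Nat.mod T3 128)))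
        (iu (Nat.mod (Nat.div c 3) 2) (Nat.mod U3 128))))
      (vfl (T.G4 c) (Nat.add (Nat.mul 29 (it (Nat.mod (Nat.div c 3) 3) (Nat.div T3 16)))
        (iu (Nat.mod (Nat.div c 3) 2) (Nat.div U3 16)))))

noncomputable def chkB1 (T : Tabs) (c T3 U3 S3 : ℕ) : Bool :=
  bIf (Nat.beq (tb AD11 S3) 0) true
    (Nat.beq (Nat.land
      (Nat.sub
        (Nat.add
          (Nat.add (Nat.mul 6 (row (T.PS c) (ku (Nat.mod (Nat.div c 3) 2) U3)))
            (Nat.mul (Nat.mul 6 (sY T c T3 U3)) ONE))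
          (Nat.add (vP T c S3) HH))
        (vN T c S3)) HH) HH)

noncomputable def chkB (T : Tabs) (c : ℕ) : Bool :=
  allN 124 fun k => strict (inU3 (Nat.mod (Nat.div c 3) 2) k) fun U3 =>
    allN 60 fun i => strict (inT3 (Nat.mod (Nat.add (Nat.div c 3) 2) 3) i) fun T3 =>
      strict (Nat.sub 2047 (Nat.lor T3 U3)) fun S3 => chkB1 T c T3 U3 S3

/-! ## Check D: class `c = m % 12` -/

noncomputable def chkD (T : Tabs) (c : ℕ) : Bool :=
  allN 17 fun a => strict (inT7 (Nat.mod c 3) a) fun t =>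
    allN 29 fun i => strict (inU7 (Nat.mod c 2) i) fun u =>
      bIf (Nat.beq (tb AD7 (Nat.sub 127 (Nat.lor t u))) 0) true
        (Nat.ble (fld (T.P13 c) (Nat.sub 127 (Nat.lor t u)))
          (vfl (T.G13 c) (Nat.add (Nat.mul 29 (it (Nat.mod c 3) t)) (iu (Nat.mod c 2) u))))

/-! ## Check M: class `c = m % 12`, word `w` of length `13`; `UW = uw9 w`, `TW = tw5 w` -/

/-- `d` is the shift constant `5` (for `j < 4`) or `4`, `a` and `b` the shifts of the windows -/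
noncomputable def mZ (T : Tabs) (c UW TW j d a b : ℕ) : ℕ :=
  fld (T.PZ (Nat.mod (Nat.add (Nat.mul 6 (Nat.add c d)) j) 36))
    (zp j (ku (Nat.mod (Nat.div j 3) 2) (Nat.mod (Nat.shiftRight UW a) 2048))
      (kt2 (Nat.mod (Nat.add (Nat.div j 2) 1) 3) (Nat.mod (Nat.shiftRight TW b) 256)))

noncomputable def m3 (T : Tabs) (c UW j : ℕ) : ℕ :=
  fld (T.P3 (Nat.mod (Nat.add (Nat.mul 4 (Nat.add c 3)) j) 12)) (Nat.mod (Nat.shiftRight UW (Nat.div j 2)) 256)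

/-- `d` is the shift constant `6` (for `j < 3`) or `5`, `r = (j / 3 + 2) % 3` -/
noncomputable def m4 (T : Tabs) (c TW j d r : ℕ) : ℕ :=
  fld (T.P4 (Nat.mod (Nat.add (Nat.mul 9 (Nat.add c d)) j) 36))
    (kt3 r (Nat.mod (Nat.shiftRight TW r) 2048))

noncomputable def chkM1 (T : Tabs) (c w UW TW : ℕ) : Bool :=
  Nat.ble
    (Nat.add
      (Nat.add
        (Nat.mul 36 (Nat.add (Nat.mul (Nat.mod w 2) T.K)
          (fld (T.SG (Nat.mod (Nat.add c 1) 12)) (Nat.mod (Nat.shiftRight w 1) 512))))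
        (Nat.mul 9 (Nat.add (Nat.add (m3 T c UW 0) (m3 T c UW 1)) (Nat.add (m3 T c UW 2) (m3 T c UW 3)))))
      (Nat.add
        (Nat.mul 6 (Nat.add (Nat.add (mZ T c UW TW 0 5 2 1) (Nat.add (mZ T c UW TW 1 5 2 1) (mZ T c UW TW 2 5 2 2)))
          (Nat.add (mZ T c UW TW 3 5 3 2) (Nat.add (mZ T c UW TW 4 4 1 0) (mZ T c UW TW 5 4 1 0)))))
        (Nat.mul 4 (Nat.add
          (Nat.add (m4 T c TW 0 6 2) (Nat.add (m4 T c TW 1 6 2) (m4 T c TW 2 6 2)))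
          (Nat.add
            (Nat.add (m4 T c TW 3 5 0) (Nat.add (m4 T c TW 4 5 0) (m4 T c TW 5 5 0)))
            (Nat.add (m4 T c TW 6 5 1) (Nat.add (m4 T c TW 7 5 1) (m4 T c TW 8 5 1))))))))
    (Nat.mul 36 (Nat.add (Nat.add (fld (T.P13 c) (Nat.mod w 128)) (fld (T.SG c) (Nat.mod w 512))) T.CC))

noncomputable def chkM (T : Tabs) (c : ℕ) : Bool :=
  genAll (fun w => strict w fun w => strict (uw9 w) fun UW => strict (tw5 w) fun TW =>
    chkM1 T c w UW TW) 13 0 1 0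

/-! ## Check E: domains of the index maps -/

noncomputable def eU2 (UW p : ℕ) : Bool :=
  strict (Nat.mod (Nat.shiftRight UW p) 256) fun x => bAnd (Nat.beq (inU2 p (ku2 p x)) x) (Nat.ble (ku2 p x) 37)
noncomputable def eU3 (UW p : ℕ) : Bool :=
  strict (Nat.mod (Nat.shiftRight UW (Nat.add 2 p)) 2048) fun x => bAnd (Nat.beq (inU3 p (ku p x)) x) (Nat.ble (ku p x) 123)
noncomputable def eT3 (TW r : ℕ) : Bool :=
  strict (Nat.mod (Nat.shiftRight TW r) 2048) fun x => bAnd (Nat.beq (inT3 r (kt3 r x)) x) (Nat.ble (kt3 r x) 59)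
noncomputable def eU7 (UW p : ℕ) : Bool :=
  strict (Nat.mod (Nat.shiftRight UW p) 128) fun x => bAnd (Nat.beq (inU7 p (iu p x)) x) (Nat.ble (iu p x) 28)
noncomputable def eT7 (TW r : ℕ) : Bool :=
  strict (Nat.mod (Nat.shiftRight TW r) 128) fun x => bAnd (Nat.beq (inT7 r (it r x)) x) (Nat.ble (it r x) 16)
noncomputable def eZ (UW TW j : ℕ) : Bool :=
  strict (Nat.mod (Nat.shiftRight TW (Nat.add 1 (Nat.div j 2))) 256) fun T2 =>
    strict (Nat.mod (Nat.shiftRight UW (Nat.add 2 (Nat.div j 3))) 2048) fun U3 =>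
      strict (zp j (ku (Nat.mod (Nat.div j 3) 2) U3) (kt2 (Nat.mod (Nat.add (Nat.div j 2) 1) 3) T2)) fun z =>
        bAnd (Nat.beq (inZ j z) (Nat.add T2 (Nat.mul 256 U3))) (Nat.ble z 140)

noncomputable def chkE1 (UW TW : ℕ) : Bool :=
  bAnd (allN 2 fun p => bAnd (eU2 UW p) (bAnd (eU3 UW p) (eU7 UW p)))
    (bAnd (allN 3 fun r => bAnd (eT3 TW r) (eT7 TW r)) (allN 6 fun j => eZ UW TW j))

noncomputable def chkE : Bool :=
  genAll (fun w => strict w fun w => strict (uw9 w) fun UW => strict (tw5 w) fun TW => chkE1 UW TW) 13 0 1 0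

/-- the bit masks of admissible words -/
noncomputable def chkAD (n L : ℕ) : Bool :=
  genAll (fun w => Nat.beq (tb L w) 1) n 0 1 0

end Pool.Agent.GreedyCons
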