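import Pool.Agent.GreedyCons.NulLem

namespace Pool.Agent.GreedyCons

/-- shift constants of the scale `9` family -/
def cJ (j : ℕ) : ℕ := if j < 3 then 6 else 5

/-- shift constants of the scale `6` family -/
def cZ (j : ℕ) : ℕ := if j < 4 then 5 else 4

/-- The averaging argument: the three pointwise inequalities give a pointwise bound of the
indicator by a function with bounded logarithmic sums. -/
theorem core (s : ℕ → Bool) (f3 f4 fz fs f12 g0 g4 j0 j1 f13 sg : ℕ → ℝ)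
    (b3 : Bdd f3) (b4 : Bdd f4) (bz : Bdd fz) (bs : Bdd fs) (b12 : Bdd f12) (bg0 : Bdd g0)
    (bg4 : Bdd g4) (bj0 : Bdd j0) (bj1 : Bdd j1) (b13 : Bdd f13) (bsg : Bdd sg)
    (K cc : ℝ) (hK : 0 < K) (m0 : ℕ)
    (hA : ∀ m, m0 ≤ m → fs m + f12 m + j0 m + j1 m ≤ f3 m + fz m)
    (hB : ∀ m, m0 ≤ m →
      6 * f13 m + 2 * (∑ j ∈ Finset.range 3, g0 (3 * (m + 4) + j)) +
          2 * (∑ j ∈ Finset.range 3, g4 (3 * m + j)) ≤
        6 * f4 m + 6 * fs m + 3 * (∑ j ∈ Finset.range 2, f12 (2 * (m + 2) + j)) +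
          3 * (∑ j ∈ Finset.range 2, j0 (2 * (m + 2) + j)) +
          3 * (∑ j ∈ Finset.range 2, j1 (2 * (m + 1) + j)) + 6 * g0 m + 6 * g4 m)
    (hM : ∀ m, m0 ≤ m →
      36 * ((if s m = true then K else 0) - cc) + 9 * (∑ j ∈ Finset.range 4, f3 (4 * (m + 3) + j)) +
          6 * (∑ j ∈ Finset.range 6, fz (6 * (m + cZ j) + j)) +
          4 * (∑ j ∈ Finset.range 9, f4 (9 * (m + cJ j) + j)) ≤
        36 * (f13 m + sg m - sg (m + 1))) :
    ∃ ν : ℕ → ℝ, Nul ν ∧ ∀ m, m0 ≤ m → (if s m = true then (1 : ℝ) else 0) - cc / K ≤ ν m := by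
  have n3 := Nul.dilShift b3 4 (by norm_num) (fun _ => 3)
  have nz := Nul.dilShift bz 6 (by norm_num) cZ
  have n4 := Nul.dilShift b4 9 (by norm_num) cJ
  have ng0 := Nul.dilShift bg0 3 (by norm_num) (fun _ => 4)
  have ng4 := Nul.dil bg4 3 (by norm_num)
  have n12 := Nul.dilShift b12 2 (by norm_num) (fun _ => 2)
  have nj0 := Nul.dilShift bj0 2 (by norm_num) (fun _ => 2)
  have nj1 := Nul.dilShift bj1 2 (by norm_num) (fun _ => 1)
  have nsg := Nul.shift bsg 1
  have hsum := (((((((n3.smul 9).add (nz.smul 6)).add (n4.smul 4)).add (ng0.smul 12)).add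
    (ng4.smul 12)).sub (n12.smul 18)).sub (nj0.smul 18)).sub (nj1.smul 18)
  have hall := (hsum.sub (nsg.smul 36)).smul (1 / (36 * K))
  refine ⟨_, hall, ?_⟩
  intro m hm
  have h1 := hA m hm
  have h2 := hB m hm
  have h3 := hM m hm
  have hK36 : (0 : ℝ) < 36 * K := by positivity
  have hcc : (if s m = true then (1 : ℝ) else 0) - cc / K
      = (1 / (36 * K)) * (36 * ((if s m = true then K else 0) - cc)) := by
    by_cases hs : s m = true
    · rw [if_pos hs, if_pos hs]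
      field_simp
    · rw [if_neg hs, if_neg hs]
      field_simp
      ring
  rw [hcc]
  refine mul_le_mul_of_nonneg_left ?_ (by positivity)
  push_cast
  linarith

end Pool.Agent.GreedyCons
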