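import Mathlib

/-!
# MP_a0eb8a_nt: the greedy sequence avoiding sums of two or three consecutive terms

Definitions used by the statement, and the combinatorial description used by the proof.
-/

namespace Pool.Agent.GreedyCons

/-- `a` (indexed from `0`) is the greedy sequence: `a 0 = 1`, and `a (n+1)` is the least integer
greater than `a n` which is neither a sum of two nor a sum of three consecutive terms among
`a 0, …, a n`. -/
structure IsGreedy (a : ℕ → ℕ) : Prop where
  zero : a 0 = 1
  succ : ∀ n, IsLeast {m : ℕ | a n < m ∧ (∀ i, i + 1 ≤ n → m ≠ a i + a (i + 1)) ∧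
    (∀ i, i + 2 ≤ n → m ≠ a i + a (i + 1) + a (i + 2))} (a (n + 1))

/-- The counting function `A(x) = #{n : a n ≤ x}`. -/
noncomputable def cnt (a : ℕ → ℕ) (x : ℝ) : ℕ := Nat.card {n : ℕ // (a n : ℝ) ≤ x}

/-- Indicator of a set given by its terms. -/
noncomputable def ind (a : ℕ → ℕ) (m : ℕ) : Bool :=
  @decide (∃ n, a n = m) (Classical.propDecidable _)

/-- `s` has consecutive elements `e` and `e + g` (no element strictly between). -/
def adj (s : ℕ → Bool) (e g : ℕ) : Prop :=
  s e = true ∧ s (e + g) = true ∧ ∀ j, 0 < j → j < g → s (e + j) = false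

/-- `x` is a sum of two consecutive elements (gap at most `4`). -/
def isU (s : ℕ → Bool) (x : ℕ) : Prop :=
  ∃ g e, 1 ≤ g ∧ g ≤ 4 ∧ x = 2 * e + g ∧ adj s e g

/-- `x` is a sum of three consecutive elements (gaps at most `4`). -/
def isT (s : ℕ → Bool) (x : ℕ) : Prop :=
  ∃ g h e, 1 ≤ g ∧ g ≤ 4 ∧ 1 ≤ h ∧ h ≤ 4 ∧ x = 3 * e + 2 * g + h ∧
    adj s e g ∧ adj s (e + g) h

/-- The self-referential description of the set of terms. -/
structure Self (s : ℕ → Bool) : Prop where
  zero : s 0 = false
  gap : ∀ m, 1 ≤ m → ∃ j, j < 4 ∧ s (m + j) = true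
  rule : ∀ x, 1 ≤ x → (s x = true ↔ ¬ isU s x ∧ ¬ isT s x)

end Pool.Agent.GreedyCons
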