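import Mathlib

/-! # Functions with bounded logarithmic sums (MP_a0eb8a_nt) -/

namespace Pool.Agent.GreedyCons

/-- The logarithmically weighted sums of `F` are bounded. -/
def Nul (F : ℕ → ℝ) : Prop := ∃ C : ℝ, ∀ N : ℕ, |∑ m ∈ Finset.range N, F m / ((m : ℝ) + 1)| ≤ C

/-- `F` is bounded. -/
def Bdd (F : ℕ → ℝ) : Prop := ∃ B : ℝ, ∀ m : ℕ, |F m| ≤ B

end Pool.Agent.GreedyCons
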