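import Pool.Agent.GreedyCons.Defs
import Pool.Agent.GreedyCons.NulDef

namespace Pool.Agent.GreedyCons

open Filter

/-- From a pointwise inequality valid from `m0` on to weighted sums. -/
theorem fin_sum_le (f : ℕ → ℝ) (m0 : ℕ) (h : ∀ m, m0 ≤ m → f m ≤ 0) :
    ∃ E : ℝ, 0 ≤ E ∧ ∀ N : ℕ, ∑ m ∈ Finset.range N, f m ≤ E := by
  refine ⟨∑ m ∈ Finset.range m0, |f m|, Finset.sum_nonneg fun _ _ => abs_nonneg _, fun N => ?_⟩
  calc ∑ m ∈ Finset.range N, f m
      ≤ ∑ m ∈ Finset.range N, (if m < m0 then |f m| else 0) := by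
        refine Finset.sum_le_sum fun m _ => ?_
        split_ifs with hm
        · exact le_abs_self _
        · exact h m (by omega)
    _ = ∑ m ∈ (Finset.range N).filter (fun m => m < m0), |f m| := by
        rw [Finset.sum_filter]
    _ ≤ ∑ m ∈ Finset.range m0, |f m| := by
        refine Finset.sum_le_sum_of_subset_of_nonneg (fun m hm => ?_) fun _ _ _ => abs_nonneg _
        exact Finset.mem_range.2 (Finset.mem_filter.1 hm).2

/-- From a pointwise inequality to the logarithmic density. -/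
theorem log_of_nul (s : ℕ → Bool) (c : ℝ) (ν : ℕ → ℝ) (hν : Nul ν) (m0 : ℕ)
    (h : ∀ m, m0 ≤ m → (if s m = true then (1 : ℝ) else 0) - c ≤ ν m) :
    ∃ C : ℝ, ∀ N : ℕ, ∑ m ∈ Finset.range N, (if s m = true then (1 : ℝ) else 0) / ((m : ℝ) + 1) ≤
      c * ∑ m ∈ Finset.range N, 1 / ((m : ℝ) + 1) + C := by
  obtain ⟨C0, hC0⟩ := hν
  obtain ⟨E, _, hE⟩ := fin_sum_le
    (fun m => ((if s m = true then (1 : ℝ) else 0) - c - ν m) / ((m : ℝ) + 1)) m0 (by
      intro m hm
      have h1 := h m hm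
      have h2 : (0 : ℝ) < (m : ℝ) + 1 := by positivity
      exact div_nonpos_of_nonpos_of_nonneg (by linarith) h2.le)
  refine ⟨C0 + E, fun N => ?_⟩
  have h1 := hE N
  have h2 := (abs_le.1 (hC0 N)).2
  have h3 : ∑ m ∈ Finset.range N, ((if s m = true then (1 : ℝ) else 0) - c - ν m) / ((m : ℝ) + 1) =
      ∑ m ∈ Finset.range N, (if s m = true then (1 : ℝ) else 0) / ((m : ℝ) + 1) -
        c * ∑ m ∈ Finset.range N, 1 / ((m : ℝ) + 1) -
        ∑ m ∈ Finset.range N, ν m / ((m : ℝ) + 1) := by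
    rw [Finset.mul_sum, ← Finset.sum_sub_distrib, ← Finset.sum_sub_distrib]
    refine Finset.sum_congr rfl fun m _ => ?_
    ring
  rw [h3] at h1
  linarith

/-- The counting function at a natural number is at most the number of elements. -/
theorem cnt_le (a : ℕ → ℕ) (ha : StrictMono a) (n : ℕ) :
    (cnt a (n : ℝ) : ℝ) ≤ ∑ m ∈ Finset.range (n + 1), (if ind a m = true then (1 : ℝ) else 0) := by
  have h1 : ∑ m ∈ Finset.range (n + 1), (if ind a m = true then (1 : ℝ) else 0) =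
      (((Finset.range (n + 1)).filter (fun m => ind a m = true)).card : ℝ) := by
    rw [Finset.card_filter]
    push_cast
    rfl
  rw [h1, Nat.cast_le]
  unfold cnt
  have h2 : Nat.card {x // x ∈ (Finset.range (n + 1)).filter (fun m => ind a m = true)} =
      ((Finset.range (n + 1)).filter (fun m => ind a m = true)).card := by
    rw [Nat.card_eq_fintype_card, Fintype.card_coe]
  rw [← h2]
  refine Nat.card_le_card_of_injective
    (fun k : {k : ℕ // (a k : ℝ) ≤ (n : ℝ)} =>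
      (⟨a k.1, by
        have hk : a k.1 ≤ n := by exact_mod_cast k.2
        refine Finset.mem_filter.2 ⟨Finset.mem_range.2 (by omega), ?_⟩
        simp only [ind, decide_eq_true_eq]
        exact ⟨k.1, rfl⟩⟩ :
        {x // x ∈ (Finset.range (n + 1)).filter (fun m => ind a m = true)})) ?_
  intro k l hkl
  have : a k.1 = a l.1 := congrArg Subtype.val hkl
  exact Subtype.ext (ha.injective this)

/-- Summation by parts. -/
theorem abel (u : ℕ → ℝ) (N : ℕ) :
    ∑ m ∈ Finset.range N, u m / ((m : ℝ) + 1) =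
      (∑ m ∈ Finset.range N, u m) / ((N : ℝ) + 1) +
      ∑ m ∈ Finset.range N, (∑ j ∈ Finset.range (m + 1), u j) *
        (1 / ((m : ℝ) + 1) - 1 / ((m : ℝ) + 2)) := by
  induction N with
  | zero => simp
  | succ N ih =>
    rw [Finset.sum_range_succ, ih, Finset.sum_range_succ (fun m =>
      (∑ j ∈ Finset.range (m + 1), u j) * (1 / ((m : ℝ) + 1) - 1 / ((m : ℝ) + 2))) N,
      Finset.sum_range_succ u N]
    push_cast
    have h1 : (N : ℝ) + 1 ≠ 0 := by positivity
    have h2 : (N : ℝ) + 2 ≠ 0 := by positivity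
    have h3 : (N : ℝ) + 1 + 1 ≠ 0 := by positivity
    field_simp
    ring

/-- The telescoping sum. -/
theorem tele (N : ℕ) :
    ∑ m ∈ Finset.range N, (1 / ((m : ℝ) + 1) - 1 / ((m : ℝ) + 2)) = 1 - 1 / ((N : ℝ) + 1) := by
  induction N with
  | zero => simp
  | succ N ih =>
    rw [Finset.sum_range_succ, ih]
    push_cast
    have h3 : (N : ℝ) + 1 + 1 = (N : ℝ) + 2 := by ring
    rw [h3]
    ring

/-- From the logarithmic density to the counting function. -/
theorem freq_of_log (a : ℕ → ℕ) (ha : StrictMono a) (c : ℝ)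
    (h : ∃ C : ℝ, ∀ N : ℕ, ∑ m ∈ Finset.range N, (if ind a m = true then (1 : ℝ) else 0) / ((m : ℝ) + 1) ≤
      c * ∑ m ∈ Finset.range N, 1 / ((m : ℝ) + 1) + C) (d : ℝ) (hd : c < d) :
    ∃ᶠ x : ℝ in atTop, (cnt a x : ℝ) / x < d := by
  by_contra hcon
  rw [Filter.not_frequently] at hcon
  obtain ⟨x0, hx0⟩ := Filter.eventually_atTop.1 hcon
  obtain ⟨C, hC⟩ := h
  set u : ℕ → ℝ := fun m => if ind a m = true then (1 : ℝ) else 0 with hu
  have hu0 : ∀ m, 0 ≤ u m := by
    intro m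
    simp only [hu]
    split_ifs <;> norm_num
  -- lower bound for the partial sums
  obtain ⟨n0, hn0⟩ := exists_nat_ge x0
  have hT : ∀ m, n0 + 1 ≤ m → d * (m : ℝ) ≤ ∑ j ∈ Finset.range (m + 1), u j := by
    intro m hm
    have hm1 : (0 : ℝ) < (m : ℝ) := by
      have : 0 < m := by omega
      exact_mod_cast this
    have hm2 : x0 ≤ (m : ℝ) := by
      have : (n0 : ℝ) ≤ (m : ℝ) := by
        have : n0 ≤ m := by omega
        exact_mod_cast this
      linarith
    have h1 := not_lt.1 (hx0 (m : ℝ) hm2)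
    rw [le_div_iff₀ hm1] at h1
    exact h1.trans (cnt_le a ha m)
  obtain ⟨E, hE0, hE⟩ := fin_sum_le
    (fun m => (d * (m : ℝ) - ∑ j ∈ Finset.range (m + 1), u j) *
      (1 / ((m : ℝ) + 1) - 1 / ((m : ℝ) + 2))) (n0 + 1) (by
      intro m hm
      have h1 := hT m hm
      have h2 : 0 ≤ 1 / ((m : ℝ) + 1) - 1 / ((m : ℝ) + 2) := by
        have h3 : (0 : ℝ) < (m : ℝ) + 1 := by positivity
        have h4 : 1 / ((m : ℝ) + 2) ≤ 1 / ((m : ℝ) + 1) :=
          one_div_le_one_div_of_le h3 (by linarith)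
        linarith
      exact mul_nonpos_of_nonpos_of_nonneg (by linarith) h2)
  have key : ∀ N : ℕ, (d - c) * ∑ m ∈ Finset.range N, 1 / ((m : ℝ) + 1) ≤ C + E + 2 * |d| := by
    intro N
    have h1 := hC N
    have h2 := hE N
    have h3 := abel u N
    have h4 : 0 ≤ (∑ m ∈ Finset.range N, u m) / ((N : ℝ) + 1) :=
      div_nonneg (Finset.sum_nonneg fun m _ => hu0 m) (by positivity)
    have h5 : ∑ m ∈ Finset.range N, (d * (m : ℝ) - ∑ j ∈ Finset.range (m + 1), u j) *
        (1 / ((m : ℝ) + 1) - 1 / ((m : ℝ) + 2)) =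
        d * ∑ m ∈ Finset.range N, 1 / ((m : ℝ) + 1) -
          2 * d * ∑ m ∈ Finset.range N, (1 / ((m : ℝ) + 1) - 1 / ((m : ℝ) + 2)) -
          ∑ m ∈ Finset.range N, (∑ j ∈ Finset.range (m + 1), u j) *
            (1 / ((m : ℝ) + 1) - 1 / ((m : ℝ) + 2)) := by
      rw [Finset.mul_sum, Finset.mul_sum, ← Finset.sum_sub_distrib, ← Finset.sum_sub_distrib]
      refine Finset.sum_congr rfl fun m _ => ?_
      have h6 : (m : ℝ) + 1 ≠ 0 := by positivity
      have h7 : (m : ℝ) + 2 ≠ 0 := by positivity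
      have h8 : d * (m : ℝ) * (1 / ((m : ℝ) + 1) - 1 / ((m : ℝ) + 2)) =
          d * (1 / ((m : ℝ) + 1)) - 2 * d * (1 / ((m : ℝ) + 1) - 1 / ((m : ℝ) + 2)) := by
        field_simp
        ring
      rw [sub_mul, h8]
    rw [h5, tele N] at h2
    have h9 : 2 * d * (1 - 1 / ((N : ℝ) + 1)) ≤ 2 * |d| := by
      have h10 : 0 ≤ 1 / ((N : ℝ) + 1) := by positivity
      have h11 : 1 / ((N : ℝ) + 1) ≤ 1 := by
        rw [div_le_one (by positivity)]
        have : (0 : ℝ) ≤ (N : ℝ) := by positivity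
        linarith
      have h12 : d ≤ |d| := le_abs_self d
      have h13 : 0 ≤ |d| := abs_nonneg d
      nlinarith [mul_nonneg (sub_nonneg.2 h12) (sub_nonneg.2 h11), mul_nonneg h13 h10]
    have h14 : ∑ m ∈ Finset.range N, u m / ((m : ℝ) + 1) ≤
        c * ∑ m ∈ Finset.range N, 1 / ((m : ℝ) + 1) + C := h1
    rw [h3] at h14
    have h15 : (d - c) * ∑ m ∈ Finset.range N, 1 / ((m : ℝ) + 1) =
        d * ∑ m ∈ Finset.range N, 1 / ((m : ℝ) + 1) -
          c * ∑ m ∈ Finset.range N, 1 / ((m : ℝ) + 1) := by ring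
    rw [h15]
    linarith
  have hdc : 0 < d - c := by linarith
  have htop : Tendsto (fun N : ℕ => (d - c) * ∑ m ∈ Finset.range N, 1 / ((m : ℝ) + 1))
      atTop atTop :=
    Real.tendsto_sum_range_one_div_nat_succ_atTop.const_mul_atTop hdc
  obtain ⟨N, hN⟩ := (htop.eventually (eventually_gt_atTop (C + E + 2 * |d|))).exists
  exact absurd (key N) (not_le.2 hN)

/-- Hence no convergence to a larger limit. -/
theorem not_tendsto (a : ℕ → ℕ) (ha : StrictMono a) (c : ℝ)
    (h : ∃ C : ℝ, ∀ N : ℕ, ∑ m ∈ Finset.range N, (if ind a m = true then (1 : ℝ) else 0) / ((m : ℝ) + 1) ≤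
      c * ∑ m ∈ Finset.range N, 1 / ((m : ℝ) + 1) + C) (d : ℝ) (hd : c < d) :
    ¬ Tendsto (fun x : ℝ => (cnt a x : ℝ) / x) atTop (nhds d) := by
  intro ht
  have h1 := freq_of_log a ha c h ((c + d) / 2) (by linarith)
  have h2 : ∀ᶠ x : ℝ in atTop, (c + d) / 2 < (cnt a x : ℝ) / x :=
    ht.eventually (lt_mem_nhds (by linarith))
  obtain ⟨x, hx1, hx2⟩ := (h1.and_eventually h2).exists
  exact absurd hx1 (not_lt.2 hx2.le)

end Pool.Agent.GreedyCons
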