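import Pool.Agent.GreedyCons.Words

/-! # Words of a `0/1` sequence: lemmas (MP_a0eb8a_nt) -/

namespace Pool.Agent.GreedyCons

theorem words_succ (s : ℕ → Bool) (b n : ℕ) : wd s b (n + 1) = (s b).toNat + 2 * wd s (b + 1) n := rfl

theorem wd_lt (s : ℕ → Bool) (b n : ℕ) : wd s b n < 2 ^ n := by
  induction n generalizing b with
  | zero => simp [wd]
  | succ n ih =>
    have h1 := ih (b + 1)
    have h2 : (s b).toNat < 2 := Bool.toNat_lt _
    rw [words_succ, pow_succ]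
    omega

theorem words_testBit (s : ℕ → Bool) (b n i : ℕ) :
    (wd s b n).testBit i = (decide (i < n) && s (b + i)) := by
  induction n generalizing b i with
  | zero => simp [wd]
  | succ n ih =>
    have h2 : (s b).toNat < 2 := Bool.toNat_lt _
    rw [words_succ]
    cases i with
    | zero =>
      rw [Nat.testBit_zero]
      cases h : s b <;> simp
    | succ i =>
      rw [Nat.testBit_succ]
      have h3 : ((s b).toNat + 2 * wd s (b + 1) n) / 2 = wd s (b + 1) n := by omega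
      rw [h3, ih, show b + 1 + i = b + (i + 1) by omega]
      congr 1
      simp

/-- sub-words -/
theorem wd_sub (s : ℕ → Bool) (b n k l : ℕ) (h : k + l ≤ n) :
    (wd s b n >>> k) % 2 ^ l = wd s (b + k) l := by
  apply Nat.eq_of_testBit_eq
  intro i
  rw [Nat.testBit_mod_two_pow, Nat.testBit_shiftRight, words_testBit, words_testBit, Nat.add_assoc]
  by_cases hi : i < l
  · have h1 : k + i < n := by omega
    simp [hi, h1]
  · simp [hi]

theorem words_append (s : ℕ → Bool) (b m n : ℕ) :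
    wd s b (m + n) = wd s b m + 2 ^ m * wd s (b + m) n := by
  induction m generalizing b with
  | zero => simp [wd]
  | succ m ih =>
    rw [show m + 1 + n = (m + n) + 1 by omega, words_succ, words_succ, ih (b + 1), pow_succ,
      show b + 1 + m = b + (m + 1) by omega]
    ring

/-! ### The local rules -/

theorem words_adj1 (s : ℕ → Bool) (e : ℕ) : adj s e 1 ↔ (s e && s (e + 1)) = true := by
  unfold adj
  rw [Bool.and_eq_true]
  constructor
  · rintro ⟨h1, h2, _⟩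
    exact ⟨h1, h2⟩
  · rintro ⟨h1, h2⟩
    exact ⟨h1, h2, fun j h3 h4 => by omega⟩

theorem words_adj2 (s : ℕ → Bool) (e : ℕ) :
    adj s e 2 ↔ (s e && s (e + 2) && !s (e + 1)) = true := by
  unfold adj
  simp only [Bool.and_eq_true, Bool.not_eq_true']
  constructor
  · rintro ⟨h1, h2, h3⟩
    exact ⟨⟨h1, h2⟩, h3 1 (by omega) (by omega)⟩
  · rintro ⟨⟨h1, h2⟩, h3⟩
    refine ⟨h1, h2, fun j h4 h5 => ?_⟩
    obtain rfl : j = 1 := by omega
    exact h3

theorem words_adj3 (s : ℕ → Bool) (e : ℕ) :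
    adj s e 3 ↔ (s e && s (e + 3) && !s (e + 1) && !s (e + 2)) = true := by
  unfold adj
  simp only [Bool.and_eq_true, Bool.not_eq_true']
  constructor
  · rintro ⟨h1, h2, h3⟩
    exact ⟨⟨⟨h1, h2⟩, h3 1 (by omega) (by omega)⟩, h3 2 (by omega) (by omega)⟩
  · rintro ⟨⟨⟨h1, h2⟩, h3⟩, h6⟩
    refine ⟨h1, h2, fun j h4 h5 => ?_⟩
    obtain rfl | rfl : j = 1 ∨ j = 2 := by omega
    · exact h3
    · exact h6

theorem words_adj4 (s : ℕ → Bool) (e : ℕ) :
    adj s e 4 ↔ (s e && s (e + 4) && !s (e + 1) && !s (e + 2) && !s (e + 3)) = true := by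
  unfold adj
  simp only [Bool.and_eq_true, Bool.not_eq_true']
  constructor
  · rintro ⟨h1, h2, h3⟩
    exact ⟨⟨⟨⟨h1, h2⟩, h3 1 (by omega) (by omega)⟩, h3 2 (by omega) (by omega)⟩,
      h3 3 (by omega) (by omega)⟩
  · rintro ⟨⟨⟨⟨h1, h2⟩, h3⟩, h6⟩, h7⟩
    refine ⟨h1, h2, fun j h4 h5 => ?_⟩
    obtain rfl | rfl | rfl : j = 1 ∨ j = 2 ∨ j = 3 := by omega
    · exact h3
    · exact h6
    · exact h7

theorem words_u0 (s : ℕ → Bool) (c : ℕ) :
    isU s (2 * (c + 2)) ↔ adj s (c + 1) 2 ∨ adj s c 4 := by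
  constructor
  · rintro ⟨g, e, h1, h2, h3, h4⟩
    obtain rfl | rfl : g = 2 ∨ g = 4 := by omega
    · left
      obtain rfl : e = c + 1 := by omega
      exact h4
    · right
      obtain rfl : e = c := by omega
      exact h4
  · rintro (h | h)
    · exact ⟨2, c + 1, by omega, by omega, by omega, h⟩
    · exact ⟨4, c, by omega, by omega, by omega, h⟩

theorem words_u1 (s : ℕ → Bool) (c : ℕ) :
    isU s (2 * (c + 2) + 1) ↔ adj s (c + 2) 1 ∨ adj s (c + 1) 3 := by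
  constructor
  · rintro ⟨g, e, h1, h2, h3, h4⟩
    obtain rfl | rfl : g = 1 ∨ g = 3 := by omega
    · left
      obtain rfl : e = c + 2 := by omega
      exact h4
    · right
      obtain rfl : e = c + 1 := by omega
      exact h4
  · rintro (h | h)
    · exact ⟨1, c + 2, by omega, by omega, by omega, h⟩
    · exact ⟨3, c + 1, by omega, by omega, by omega, h⟩

theorem words_t0 (s : ℕ → Bool) (c : ℕ) :
    isT s (3 * (c + 4)) ↔
      (adj s (c + 3) 1 ∧ adj s (c + 4) 1) ∨ (adj s (c + 2) 2 ∧ adj s (c + 4) 2) ∨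
      (adj s (c + 1) 3 ∧ adj s (c + 4) 3) ∨ (adj s c 4 ∧ adj s (c + 4) 4) ∨
      (adj s (c + 2) 1 ∧ adj s (c + 3) 4) ∨ (adj s (c + 1) 4 ∧ adj s (c + 5) 1) := by
  constructor
  · rintro ⟨g, h, e, h1, h2, h3, h4, h5, h6, h7⟩
    have hc : (g = 1 ∧ h = 1 ∧ e = c + 3) ∨ (g = 2 ∧ h = 2 ∧ e = c + 2) ∨
        (g = 3 ∧ h = 3 ∧ e = c + 1) ∨ (g = 4 ∧ h = 4 ∧ e = c) ∨ (g = 1 ∧ h = 4 ∧ e = c + 2) ∨
        (g = 4 ∧ h = 1 ∧ e = c + 1) := by omega
    rcases hc with ⟨rfl, rfl, rfl⟩ | ⟨rfl, rfl, rfl⟩ | ⟨rfl, rfl, rfl⟩ | ⟨rfl, rfl, rfl⟩ |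
      ⟨rfl, rfl, rfl⟩ | ⟨rfl, rfl, rfl⟩
    · exact Or.inl ⟨h6, h7⟩
    · exact Or.inr (Or.inl ⟨h6, h7⟩)
    · exact Or.inr (Or.inr (Or.inl ⟨h6, h7⟩))
    · exact Or.inr (Or.inr (Or.inr (Or.inl ⟨h6, h7⟩)))
    · exact Or.inr (Or.inr (Or.inr (Or.inr (Or.inl ⟨h6, h7⟩))))
    · exact Or.inr (Or.inr (Or.inr (Or.inr (Or.inr ⟨h6, h7⟩))))
  · rintro (⟨h6, h7⟩ | ⟨h6, h7⟩ | ⟨h6, h7⟩ | ⟨h6, h7⟩ | ⟨h6, h7⟩ | ⟨h6, h7⟩)
    · exact ⟨1, 1, c + 3, by omega, by omega, by omega, by omega, by omega, h6, h7⟩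
    · exact ⟨2, 2, c + 2, by omega, by omega, by omega, by omega, by omega, h6, h7⟩
    · exact ⟨3, 3, c + 1, by omega, by omega, by omega, by omega, by omega, h6, h7⟩
    · exact ⟨4, 4, c, by omega, by omega, by omega, by omega, by omega, h6, h7⟩
    · exact ⟨1, 4, c + 2, by omega, by omega, by omega, by omega, by omega, h6, h7⟩
    · exact ⟨4, 1, c + 1, by omega, by omega, by omega, by omega, by omega, h6, h7⟩

theorem words_t1 (s : ℕ → Bool) (c : ℕ) :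
    isT s (3 * (c + 4) + 1) ↔
      (adj s (c + 3) 1 ∧ adj s (c + 4) 2) ∨ (adj s (c + 2) 2 ∧ adj s (c + 4) 3) ∨
      (adj s (c + 1) 3 ∧ adj s (c + 4) 4) ∨ (adj s (c + 2) 3 ∧ adj s (c + 5) 1) ∨
      (adj s (c + 1) 4 ∧ adj s (c + 5) 2) := by
  constructor
  · rintro ⟨g, h, e, h1, h2, h3, h4, h5, h6, h7⟩
    have hc : (g = 1 ∧ h = 2 ∧ e = c + 3) ∨ (g = 2 ∧ h = 3 ∧ e = c + 2) ∨
        (g = 3 ∧ h = 4 ∧ e = c + 1) ∨ (g = 3 ∧ h = 1 ∧ e = c + 2) ∨ (g = 4 ∧ h = 2 ∧ e = c + 1) := by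
      omega
    rcases hc with ⟨rfl, rfl, rfl⟩ | ⟨rfl, rfl, rfl⟩ | ⟨rfl, rfl, rfl⟩ | ⟨rfl, rfl, rfl⟩ |
      ⟨rfl, rfl, rfl⟩
    · exact Or.inl ⟨h6, h7⟩
    · exact Or.inr (Or.inl ⟨h6, h7⟩)
    · exact Or.inr (Or.inr (Or.inl ⟨h6, h7⟩))
    · exact Or.inr (Or.inr (Or.inr (Or.inl ⟨h6, h7⟩)))
    · exact Or.inr (Or.inr (Or.inr (Or.inr ⟨h6, h7⟩)))
  · rintro (⟨h6, h7⟩ | ⟨h6, h7⟩ | ⟨h6, h7⟩ | ⟨h6, h7⟩ | ⟨h6, h7⟩)
    · exact ⟨1, 2, c + 3, by omega, by omega, by omega, by omega, by omega, h6, h7⟩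
    · exact ⟨2, 3, c + 2, by omega, by omega, by omega, by omega, by omega, h6, h7⟩
    · exact ⟨3, 4, c + 1, by omega, by omega, by omega, by omega, by omega, h6, h7⟩
    · exact ⟨3, 1, c + 2, by omega, by omega, by omega, by omega, by omega, h6, h7⟩
    · exact ⟨4, 2, c + 1, by omega, by omega, by omega, by omega, by omega, h6, h7⟩

theorem words_t2 (s : ℕ → Bool) (c : ℕ) :
    isT s (3 * (c + 4) + 2) ↔
      (adj s (c + 3) 1 ∧ adj s (c + 4) 3) ∨ (adj s (c + 2) 2 ∧ adj s (c + 4) 4) ∨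
      (adj s (c + 3) 2 ∧ adj s (c + 5) 1) ∨ (adj s (c + 2) 3 ∧ adj s (c + 5) 2) ∨
      (adj s (c + 1) 4 ∧ adj s (c + 5) 3) := by
  constructor
  · rintro ⟨g, h, e, h1, h2, h3, h4, h5, h6, h7⟩
    have hc : (g = 1 ∧ h = 3 ∧ e = c + 3) ∨ (g = 2 ∧ h = 4 ∧ e = c + 2) ∨
        (g = 2 ∧ h = 1 ∧ e = c + 3) ∨ (g = 3 ∧ h = 2 ∧ e = c + 2) ∨ (g = 4 ∧ h = 3 ∧ e = c + 1) := by
      omega
    rcases hc with ⟨rfl, rfl, rfl⟩ | ⟨rfl, rfl, rfl⟩ | ⟨rfl, rfl, rfl⟩ | ⟨rfl, rfl, rfl⟩ |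
      ⟨rfl, rfl, rfl⟩
    · exact Or.inl ⟨h6, h7⟩
    · exact Or.inr (Or.inl ⟨h6, h7⟩)
    · exact Or.inr (Or.inr (Or.inl ⟨h6, h7⟩))
    · exact Or.inr (Or.inr (Or.inr (Or.inl ⟨h6, h7⟩)))
    · exact Or.inr (Or.inr (Or.inr (Or.inr ⟨h6, h7⟩)))
  · rintro (⟨h6, h7⟩ | ⟨h6, h7⟩ | ⟨h6, h7⟩ | ⟨h6, h7⟩ | ⟨h6, h7⟩)
    · exact ⟨1, 3, c + 3, by omega, by omega, by omega, by omega, by omega, h6, h7⟩
    · exact ⟨2, 4, c + 2, by omega, by omega, by omega, by omega, by omega, h6, h7⟩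
    · exact ⟨2, 1, c + 3, by omega, by omega, by omega, by omega, by omega, h6, h7⟩
    · exact ⟨3, 2, c + 2, by omega, by omega, by omega, by omega, by omega, h6, h7⟩
    · exact ⟨4, 3, c + 1, by omega, by omega, by omega, by omega, by omega, h6, h7⟩

/-! ### The tables -/

def words_f1 (x y : Bool) : Bool := x && y
def words_f2 (x y z : Bool) : Bool := x && z && !y
def words_f3 (x y z w : Bool) : Bool := x && w && !y && !z
def words_f4 (x y z w v : Bool) : Bool := x && v && !y && !z && !w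

def words_a1 (s : ℕ → Bool) (e : ℕ) : Bool := words_f1 (s e) (s (e + 1))
def words_a2 (s : ℕ → Bool) (e : ℕ) : Bool := words_f2 (s e) (s (e + 1)) (s (e + 2))
def words_a3 (s : ℕ → Bool) (e : ℕ) : Bool := words_f3 (s e) (s (e + 1)) (s (e + 2)) (s (e + 3))
def words_a4 (s : ℕ → Bool) (e : ℕ) : Bool :=
  words_f4 (s e) (s (e + 1)) (s (e + 2)) (s (e + 3)) (s (e + 4))

theorem words_adj1' (s : ℕ → Bool) (e : ℕ) : adj s e 1 ↔ words_a1 s e = true := words_adj1 s e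
theorem words_adj2' (s : ℕ → Bool) (e : ℕ) : adj s e 2 ↔ words_a2 s e = true := words_adj2 s e
theorem words_adj3' (s : ℕ → Bool) (e : ℕ) : adj s e 3 ↔ words_a3 s e = true := words_adj3 s e
theorem words_adj4' (s : ℕ → Bool) (e : ℕ) : adj s e 4 ↔ words_a4 s e = true := words_adj4 s e

theorem words_uB (s : ℕ → Bool) (x : ℕ) : uB s x = true ↔ isU s x :=
  @decide_eq_true_iff _ (Classical.propDecidable _)

theorem words_tB (s : ℕ → Bool) (x : ℕ) : tB s x = true ↔ isT s x :=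
  @decide_eq_true_iff _ (Classical.propDecidable _)

theorem words_uB0 (s : ℕ → Bool) (c : ℕ) :
    uB s (2 * (c + 2)) = (words_a2 s (c + 1) || words_a4 s c) := by
  rw [Bool.eq_iff_iff, words_uB, words_u0, words_adj2', words_adj4', Bool.or_eq_true]

theorem words_uB1 (s : ℕ → Bool) (c : ℕ) :
    uB s (2 * (c + 2) + 1) = (words_a1 s (c + 2) || words_a3 s (c + 1)) := by
  rw [Bool.eq_iff_iff, words_uB, words_u1, words_adj1', words_adj3', Bool.or_eq_true]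

theorem words_tB0 (s : ℕ → Bool) (c : ℕ) :
    tB s (3 * (c + 4)) = ((words_a1 s (c + 3) && words_a1 s (c + 4)) ||
      ((words_a2 s (c + 2) && words_a2 s (c + 4)) || ((words_a3 s (c + 1) && words_a3 s (c + 4)) ||
      ((words_a4 s c && words_a4 s (c + 4)) || ((words_a1 s (c + 2) && words_a4 s (c + 3)) ||
      (words_a4 s (c + 1) && words_a1 s (c + 5))))))) := by
  rw [Bool.eq_iff_iff, words_tB, words_t0]
  simp only [Bool.or_eq_true, Bool.and_eq_true, words_adj1', words_adj2', words_adj3', words_adj4']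

theorem words_tB1 (s : ℕ → Bool) (c : ℕ) :
    tB s (3 * (c + 4) + 1) = ((words_a1 s (c + 3) && words_a2 s (c + 4)) ||
      ((words_a2 s (c + 2) && words_a3 s (c + 4)) || ((words_a3 s (c + 1) && words_a4 s (c + 4)) ||
      ((words_a3 s (c + 2) && words_a1 s (c + 5)) || (words_a4 s (c + 1) && words_a2 s (c + 5)))))) := by
  rw [Bool.eq_iff_iff, words_tB, words_t1]
  simp only [Bool.or_eq_true, Bool.and_eq_true, words_adj1', words_adj2', words_adj3', words_adj4']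

theorem words_tB2 (s : ℕ → Bool) (c : ℕ) :
    tB s (3 * (c + 4) + 2) = ((words_a1 s (c + 3) && words_a3 s (c + 4)) ||
      ((words_a2 s (c + 2) && words_a4 s (c + 4)) || ((words_a2 s (c + 3) && words_a1 s (c + 5)) ||
      ((words_a3 s (c + 2) && words_a2 s (c + 5)) || (words_a4 s (c + 1) && words_a3 s (c + 5)))))) := by
  rw [Bool.eq_iff_iff, words_tB, words_t2]
  simp only [Bool.or_eq_true, Bool.and_eq_true, words_adj1', words_adj2', words_adj3', words_adj4']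

theorem words_utab (b0 b1 b2 b3 b4 : Bool) :
    Nat.mod (Nat.shiftRight UTL (Nat.mul 2 (b0.toNat + 2 * (b1.toNat + 2 * (b2.toNat +
      2 * (b3.toNat + 2 * (b4.toNat + 2 * 0))))))) 4 =
    (words_f2 b1 b2 b3 || words_f4 b0 b1 b2 b3 b4).toNat +
      2 * ((words_f1 b2 b3 || words_f3 b1 b2 b3 b4).toNat + 2 * 0) := by
  revert b0 b1 b2 b3 b4
  decide

theorem words_ttab (b0 b1 b2 b3 b4 b5 b6 b7 b8 : Bool) :
    Nat.mod (Nat.shiftRight TTL (Nat.mul 3 (b0.toNat + 2 * (b1.toNat + 2 * (b2.toNat +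
      2 * (b3.toNat + 2 * (b4.toNat + 2 * (b5.toNat + 2 * (b6.toNat + 2 * (b7.toNat +
      2 * (b8.toNat + 2 * 0))))))))))) 8 =
    ((words_f1 b3 b4 && words_f1 b4 b5) ||
      ((words_f2 b2 b3 b4 && words_f2 b4 b5 b6) || ((words_f3 b1 b2 b3 b4 && words_f3 b4 b5 b6 b7) ||
      ((words_f4 b0 b1 b2 b3 b4 && words_f4 b4 b5 b6 b7 b8) ||
      ((words_f1 b2 b3 && words_f4 b3 b4 b5 b6 b7) ||
      (words_f4 b1 b2 b3 b4 b5 && words_f1 b5 b6)))))).toNat +
    2 * (((words_f1 b3 b4 && words_f2 b4 b5 b6) ||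
      ((words_f2 b2 b3 b4 && words_f3 b4 b5 b6 b7) ||
      ((words_f3 b1 b2 b3 b4 && words_f4 b4 b5 b6 b7 b8) ||
      ((words_f3 b2 b3 b4 b5 && words_f1 b5 b6) ||
      (words_f4 b1 b2 b3 b4 b5 && words_f2 b5 b6 b7))))).toNat +
    2 * (((words_f1 b3 b4 && words_f3 b4 b5 b6 b7) ||
      ((words_f2 b2 b3 b4 && words_f4 b4 b5 b6 b7 b8) || ((words_f2 b3 b4 b5 && words_f1 b5 b6) ||
      ((words_f3 b2 b3 b4 b5 && words_f2 b5 b6 b7) ||
      (words_f4 b1 b2 b3 b4 b5 && words_f3 b5 b6 b7 b8))))).toNat + 2 * 0)) := by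
  revert b0 b1 b2 b3 b4 b5 b6 b7 b8
  decide +kernel

theorem words_u (s : ℕ → Bool) (c : ℕ) :
    Nat.mod (Nat.shiftRight UTL (Nat.mul 2 (wd s c 5))) 4 = wd (uB s) (2 * (c + 2)) 2 := by
  have h := words_utab (s c) (s (c + 1)) (s (c + 2)) (s (c + 3)) (s (c + 4))
  rw [words_succ (uB s), words_succ (uB s), words_uB0, words_uB1]
  exact h

theorem words_t (s : ℕ → Bool) (c : ℕ) :
    Nat.mod (Nat.shiftRight TTL (Nat.mul 3 (wd s c 9))) 8 = wd (tB s) (3 * (c + 4)) 3 := by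
  have h := words_ttab (s c) (s (c + 1)) (s (c + 2)) (s (c + 3)) (s (c + 4)) (s (c + 5)) (s (c + 6))
    (s (c + 7)) (s (c + 8))
  rw [words_succ (tB s), words_succ (tB s), words_succ (tB s), Nat.add_assoc (3 * (c + 4)) 1 1,
    words_tB0, words_tB1, words_tB2]
  exact h

/-! ### The chunks -/

theorem words_uc (s : ℕ → Bool) (b n i : ℕ) (h : i + 5 ≤ n) :
    uc (wd s b n) i = wd (uB s) (2 * (b + 2) + 2 * i) 2 := by
  have h1 : (wd s b n >>> i) % 32 = wd s (b + i) 5 := wd_sub s b n i 5 h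
  have h2 := words_u s (b + i)
  rw [show 2 * (b + i + 2) = 2 * (b + 2) + 2 * i by ring] at h2
  rw [← h2, ← h1]
  rfl

theorem words_tc (s : ℕ → Bool) (b n i : ℕ) (h : i + 9 ≤ n) :
    tc (wd s b n) i = wd (tB s) (3 * (b + 4) + 3 * i) 3 := by
  have h1 : (wd s b n >>> i) % 512 = wd s (b + i) 9 := wd_sub s b n i 9 h
  have h2 := words_t s (b + i)
  rw [show 3 * (b + i + 4) = 3 * (b + 4) + 3 * i by ring] at h2
  rw [← h2, ← h1]
  rfl

theorem words_shl (a k : ℕ) : Nat.shiftLeft a k = a * 2 ^ k := Nat.shiftLeft_eq a k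

/-- the `U`-words, from the `s`-word on `b, …` -/
theorem words_uw4 (s : ℕ → Bool) (b n : ℕ) (h : 8 ≤ n) :
    uw4 (wd s b n) = wd (uB s) (2 * (b + 2)) 8 := by
  have e : wd (uB s) (2 * (b + 2)) 8 = wd (uB s) (2 * (b + 2) + 2 * 0) 2 +
      2 ^ 2 * (wd (uB s) (2 * (b + 2) + 2 * 1) 2 + 2 ^ 2 * (wd (uB s) (2 * (b + 2) + 2 * 2) 2 +
      2 ^ 2 * wd (uB s) (2 * (b + 2) + 2 * 3) 2)) := by
    rw [← words_append (uB s) (2 * (b + 2) + 2 * 2) 2 2,
      ← words_append (uB s) (2 * (b + 2) + 2 * 1) 2 (2 + 2),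
      ← words_append (uB s) (2 * (b + 2) + 2 * 0) 2 (2 + (2 + 2))]
    rfl
  unfold uw4
  rw [words_uc s b n 0 (by omega), words_uc s b n 1 (by omega), words_uc s b n 2 (by omega),
    words_uc s b n 3 (by omega), e, words_shl, words_shl, words_shl]
  simp only [Nat.add_eq]
  ring

theorem words_uw7 (s : ℕ → Bool) (b n : ℕ) (h : 11 ≤ n) :
    uw7 (wd s b n) = wd (uB s) (2 * (b + 2)) 14 := by
  have e : wd (uB s) (2 * (b + 2)) 14 = wd (uB s) (2 * (b + 2)) 8 +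
      2 ^ 8 * (wd (uB s) (2 * (b + 2) + 2 * 4) 2 + 2 ^ 2 * (wd (uB s) (2 * (b + 2) + 2 * 5) 2 +
      2 ^ 2 * wd (uB s) (2 * (b + 2) + 2 * 6) 2)) := by
    rw [← words_append (uB s) (2 * (b + 2) + 2 * 5) 2 2,
      ← words_append (uB s) (2 * (b + 2) + 2 * 4) 2 (2 + 2),
      ← words_append (uB s) (2 * (b + 2)) 8 (2 + (2 + 2))]
  unfold uw7
  rw [words_uw4 s b n (by omega), words_uc s b n 4 (by omega), words_uc s b n 5 (by omega),
    words_uc s b n 6 (by omega), e, words_shl, words_shl, words_shl]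
  simp only [Nat.add_eq]
  ring

theorem words_uw9 (s : ℕ → Bool) (b n : ℕ) (h : 13 ≤ n) :
    uw9 (wd s b n) = wd (uB s) (2 * (b + 2)) 18 := by
  have e : wd (uB s) (2 * (b + 2)) 18 = wd (uB s) (2 * (b + 2)) 14 +
      2 ^ 14 * (wd (uB s) (2 * (b + 2) + 2 * 7) 2 + 2 ^ 2 * wd (uB s) (2 * (b + 2) + 2 * 8) 2) := by
    rw [← words_append (uB s) (2 * (b + 2) + 2 * 7) 2 2,
      ← words_append (uB s) (2 * (b + 2)) 14 (2 + 2)]
  unfold uw9
  rw [words_uw7 s b n (by omega), words_uc s b n 7 (by omega), words_uc s b n 8 (by omega), e,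
    words_shl, words_shl]
  simp only [Nat.add_eq]
  ring

theorem uw4_wd (s : ℕ → Bool) (b : ℕ) : uw4 (wd s b 8) = wd (uB s) (2 * (b + 2)) 8 :=
  words_uw4 s b 8 le_rfl

theorem uw7_wd (s : ℕ → Bool) (b : ℕ) : uw7 (wd s b 11) = wd (uB s) (2 * (b + 2)) 14 :=
  words_uw7 s b 11 le_rfl

theorem uw9_wd (s : ℕ → Bool) (b : ℕ) : uw9 (wd s b 13) = wd (uB s) (2 * (b + 2)) 18 :=
  words_uw9 s b 13 le_rfl

/-- the `T`-words -/
theorem words_tw3 (s : ℕ → Bool) (b n : ℕ) (h : 11 ≤ n) :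
    tw3 (wd s b n) = wd (tB s) (3 * (b + 4)) 9 := by
  have e : wd (tB s) (3 * (b + 4)) 9 = wd (tB s) (3 * (b + 4) + 3 * 0) 3 +
      2 ^ 3 * (wd (tB s) (3 * (b + 4) + 3 * 1) 3 + 2 ^ 3 * wd (tB s) (3 * (b + 4) + 3 * 2) 3) := by
    rw [← words_append (tB s) (3 * (b + 4) + 3 * 1) 3 3,
      ← words_append (tB s) (3 * (b + 4) + 3 * 0) 3 (3 + 3)]
    rfl
  unfold tw3
  rw [words_tc s b n 0 (by omega), words_tc s b n 1 (by omega), words_tc s b n 2 (by omega), e,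
    words_shl, words_shl]
  simp only [Nat.add_eq]
  ring

theorem words_tw5 (s : ℕ → Bool) (b n : ℕ) (h : 13 ≤ n) :
    tw5 (wd s b n) = wd (tB s) (3 * (b + 4)) 15 := by
  have e : wd (tB s) (3 * (b + 4)) 15 = wd (tB s) (3 * (b + 4)) 9 +
      2 ^ 9 * (wd (tB s) (3 * (b + 4) + 3 * 3) 3 + 2 ^ 3 * wd (tB s) (3 * (b + 4) + 3 * 4) 3) := by
    rw [← words_append (tB s) (3 * (b + 4) + 3 * 3) 3 3,
      ← words_append (tB s) (3 * (b + 4)) 9 (3 + 3)]
  unfold tw5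
  rw [words_tw3 s b n (by omega), words_tc s b n 3 (by omega), words_tc s b n 4 (by omega), e,
    words_shl, words_shl]
  simp only [Nat.add_eq]
  ring

theorem tw3_wd (s : ℕ → Bool) (b : ℕ) : tw3 (wd s b 11) = wd (tB s) (3 * (b + 4)) 9 :=
  words_tw3 s b 11 le_rfl

theorem tw5_wd (s : ℕ → Bool) (b : ℕ) : tw5 (wd s b 13) = wd (tB s) (3 * (b + 4)) 15 :=
  words_tw5 s b 13 le_rfl

/-- the rule `x ∈ S ↔ x ∉ U ∪ T` on words -/
theorem wd_compl {s : ℕ → Bool} (hs : Self s) (x : ℕ) (hx : 1 ≤ x) (n : ℕ) :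
    wd s x n = 2 ^ n - 1 - (wd (tB s) x n ||| wd (uB s) x n) := by
  have h1 : (wd (tB s) x n ||| wd (uB s) x n) < 2 ^ n := Nat.or_lt_two_pow (wd_lt _ _ _) (wd_lt _ _ _)
  apply Nat.eq_of_testBit_eq
  intro i
  rw [Nat.sub_sub, Nat.add_comm 1, Nat.testBit_two_pow_sub_succ h1, Nat.testBit_or, words_testBit,
    words_testBit, words_testBit]
  by_cases hi : i < n
  · simp only [hi, decide_true, Bool.true_and]
    rw [Bool.eq_iff_iff, hs.rule (x + i) (by omega), Bool.not_eq_true', Bool.or_eq_false_iff,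
      ← Bool.not_eq_true, ← Bool.not_eq_true, words_uB, words_tB]
    exact And.comm
  · simp [hi]

theorem words_adm {s : ℕ → Bool} (hs : Self s) (n : ℕ) : ∀ x r : ℕ, 1 ≤ x →
    (∀ j, j < r → s (x + j) = false) → adm n r (wd s (x + r) n) = true := by
  induction n with
  | zero => intro x r _ _; rfl
  | succ n ih =>
    intro x r hx hr
    rw [words_succ]
    unfold adm
    cases h : s (x + r) with
    | true =>
      have h1 : (Bool.toNat true + 2 * wd s (x + r + 1) n) % 2 = 1 := by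
        rw [Bool.toNat_true]; omega
      have h2 : (Bool.toNat true + 2 * wd s (x + r + 1) n) / 2 = wd s (x + r + 1) n := by
        rw [Bool.toNat_true]; omega
      rw [if_pos h1, h2]
      exact ih (x + r + 1) 0 (by omega) (fun j hj => by omega)
    | false =>
      have h1 : ¬ (Bool.toNat false + 2 * wd s (x + r + 1) n) % 2 = 1 := by
        rw [Bool.toNat_false]; omega
      have h2 : (Bool.toNat false + 2 * wd s (x + r + 1) n) / 2 = wd s (x + r + 1) n := by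
        rw [Bool.toNat_false]; omega
      have hr' : ∀ j, j < r + 1 → s (x + j) = false := by
        intro j hj
        rcases Nat.lt_succ_iff_lt_or_eq.1 hj with h3 | rfl
        · exact hr j h3
        · exact h
      have h3 : r < 3 := by
        by_contra h3
        obtain ⟨j, hj, hsj⟩ := hs.gap x hx
        rw [hr' j (by omega)] at hsj
        exact absurd hsj (by decide)
      rw [if_neg h1, h2, decide_eq_true h3, Bool.true_and]
      exact ih x (r + 1) hx hr'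

/-- words of `s` are admissible -/
theorem adm_wd {s : ℕ → Bool} (hs : Self s) (x : ℕ) (hx : 1 ≤ x) (n : ℕ) :
    adm n 0 (wd s x n) = true :=
  words_adm hs n x 0 hx (fun j hj => by omega)

end Pool.Agent.GreedyCons
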