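import Pool.Agent.GreedyCons.Pot
import Pool.Agent.GreedyCons.WordsLem

/-! # Check A on the words of a self-referential set (MP_a0eb8a_nt) -/

namespace Pool.Agent.GreedyCons

attribute [local irreducible] iu it ku kt3 kt2 ku2 zp pp inU2 inZ inU3 inT3 inU7 inT7 fld vfl row
  uw4 uw7 uw9 tw3 tw5 tb AD7 AD8 AD11 IUL ITL KUL KT3L KT2L KU2L INU2L INU3L INT3L INU7L INT7L
  GOOD ONE HH ZPL PPL INZL wd

/-- words of a self-referential set, `13` bits, pass check E -/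
theorem E_words {s : ℕ → Bool} (hs : Self s) (hE : chkE = true) (b : ℕ) (hb : 1 ≤ b) :
    chkE1 (wd (uB s) (2 * (b + 2)) 18) (wd (tB s) (3 * (b + 4)) 15) = true := by
  unfold chkE at hE
  have h := genAll_spec' hE (wd s b 13) (wd_lt s b 13) (adm_wd hs b hb 13)
  rw [strict_eq, strict_eq, strict_eq, uw9_wd, tw5_wd] at h
  exact h

theorem eU2_spec {UW p : ℕ} (h : eU2 UW p = true) :
    inU2 p (ku2 p ((UW >>> p) % 256)) = (UW >>> p) % 256 ∧ ku2 p ((UW >>> p) % 256) ≤ 37 := by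
  unfold eU2 at h
  rw [strict_eq] at h
  have h2 := bAnd_true h
  exact ⟨Nat.eq_of_beq_eq_true h2.1, Nat.le_of_ble_eq_true h2.2⟩

theorem eZ_spec {UW TW j : ℕ} (h : eZ UW TW j = true) :
    inZ j (zp j (ku (j / 3 % 2) ((UW >>> (2 + j / 3)) % 2048))
      (kt2 ((j / 2 + 1) % 3) ((TW >>> (1 + j / 2)) % 256))) =
        (TW >>> (1 + j / 2)) % 256 + 256 * ((UW >>> (2 + j / 3)) % 2048) ∧
    zp j (ku (j / 3 % 2) ((UW >>> (2 + j / 3)) % 2048))
      (kt2 ((j / 2 + 1) % 3) ((TW >>> (1 + j / 2)) % 256)) ≤ 140 := by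
  unfold eZ at h
  rw [strict_eq, strict_eq, strict_eq] at h
  have h2 := bAnd_true h
  exact ⟨Nat.eq_of_beq_eq_true h2.1, Nat.le_of_ble_eq_true h2.2⟩

/-- the `8`-bit `U`-word near `m / 2` is in the range of `inU2` -/
theorem wU2_range {s : ℕ → Bool} (hs : Self s) (hE : chkE = true) (m : ℕ) (hm : 200 ≤ m) :
    ∃ i, i < 38 ∧ inU2 (m / 2 % 2) i = wU2 s m := by
  have h := E_words hs hE (m / 4 - 3) (by omega)
  unfold chkE1 at h
  have h1 := allN_spec (bAnd_true h).1 (m / 2 % 2) (Nat.mod_lt _ (by omega))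
  have h2 := eU2_spec (bAnd_true h1).1
  have h3 : (wd (uB s) (2 * (m / 4 - 3 + 2)) 18 >>> (m / 2 % 2)) % 256 = wU2 s m := by
    have h4 := wd_sub (uB s) (2 * (m / 4 - 3 + 2)) 18 (m / 2 % 2) 8 (by omega)
    have h5 : 2 * (m / 4 - 3 + 2) + m / 2 % 2 = m / 2 - 2 := by omega
    rw [h5] at h4
    exact h4
  rw [h3] at h2
  exact ⟨_, Nat.lt_succ_of_le h2.2, h2.1⟩

/-- the pair of words near `m / 2` and `m / 3` is in the range of `inZ` -/
theorem wZ_range {s : ℕ → Bool} (hs : Self s) (hE : chkE = true) (m : ℕ) (hm : 200 ≤ m) :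
    ∃ z, z < 141 ∧ inZ (m % 6) z = wT2 s m + 256 * wU3 s m := by
  have h := E_words hs hE (m / 6 - 5) (by omega)
  unfold chkE1 at h
  have h1 := allN_spec (bAnd_true (bAnd_true h).2).2 (m % 6) (Nat.mod_lt _ (by omega))
  have h2 := eZ_spec h1
  have h3 : (wd (tB s) (3 * (m / 6 - 5 + 4)) 15 >>> (1 + m % 6 / 2)) % 256 = wT2 s m := by
    have h4 := wd_sub (tB s) (3 * (m / 6 - 5 + 4)) 15 (1 + m % 6 / 2) 8 (by omega)
    have h5 : 3 * (m / 6 - 5 + 4) + (1 + m % 6 / 2) = m / 2 - 2 := by omega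
    rw [h5] at h4
    exact h4
  have h6 : (wd (uB s) (2 * (m / 6 - 5 + 2)) 18 >>> (2 + m % 6 / 3)) % 2048 = wU3 s m := by
    have h4 := wd_sub (uB s) (2 * (m / 6 - 5 + 2)) 18 (2 + m % 6 / 3) 11 (by omega)
    have h5 : 2 * (m / 6 - 5 + 2) + (2 + m % 6 / 3) = m / 3 - 4 := by omega
    rw [h5] at h4
    exact h4
  rw [h3, h6] at h2
  exact ⟨_, Nat.lt_succ_of_le h2.2, h2.1⟩

theorem chkA_spec {T : Tabs} {c : ℕ} (h : chkA T c = true) {z i T2 U3 U2 : ℕ} (hz : z < 141)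
    (hi : i < 38) (hT2 : T2 < 256) (h1 : inZ (c % 6) z = T2 + 256 * U3)
    (h2 : inU2 (c / 2 % 2) i = U2) : chkA1 T c T2 U3 U2 = true := by
  unfold chkA at h
  have h3 := allN_spec h z hz
  have hz' : inZ (Nat.mod c 6) z = T2 + 256 * U3 := h1
  rw [strict_eq, strict_eq, strict_eq, hz'] at h3
  have h4 := allN_spec h3 i hi
  have hi' : inU2 (Nat.mod (Nat.div c 2) 2) i = U2 := h2
  rw [strict_eq, hi'] at h4
  have e1 : Nat.mod (T2 + 256 * U3) 256 = T2 := by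
    show (T2 + 256 * U3) % 256 = T2
    omega
  have e2 : Nat.div (T2 + 256 * U3) 256 = U3 := by
    show (T2 + 256 * U3) / 256 = U3
    omega
  rw [e1, e2] at h4
  exact h4

theorem chkA1_spec {T : Tabs} {c T2 U3 U2 : ℕ} (h : chkA1 T c T2 U3 U2 = true)
    (hS : tb AD8 (255 - (T2 ||| U2)) = 1) :
    vfl (T.PS c) (29 * ku (c / 3 % 2) U3 + iu (c % 2) ((uw4 (255 - (T2 ||| U2)) >>> (c % 2)) % 128)) +
      vfl (T.P12 (c % 12)) (29 * it ((c / 2 + 16) % 3) (T2 % 128) + iu ((c / 2 + 16) % 2) (U2 % 128)) +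
      (vfl (T.P80 c) (29 * pp (c % 6) (ku (c / 3 % 2) U3) (it ((c / 2 + 16) % 3) (T2 % 128)) +
          iu ((c / 2 + 16) % 2) (U2 % 128)) +
        vfl (T.P81 c) (29 * pp (6 + c % 6) (ku (c / 3 % 2) U3) (it ((c / 2 + 17) % 3) (T2 / 2)) +
          iu ((c / 2 + 17) % 2) (U2 / 2))) ≤
      fld (T.P3 (c % 12)) U2 +
        fld (T.PZ c) (zp (c % 6) (ku (c / 3 % 2) U3) (kt2 ((c / 2 + 16) % 3) T2)) := by
  unfold chkA1 at h
  have hb : Nat.beq (tb AD8 (Nat.sub 255 (Nat.lor T2 U2))) 0 = false := by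
    have hS' : tb AD8 (Nat.sub 255 (Nat.lor T2 U2)) = 1 := hS
    rw [hS']
    rfl
  exact Nat.le_of_ble_eq_true (bIf_true_left h hb)

/-- the pointwise inequality A -/
theorem linkA (T : Tabs) {s : ℕ → Bool} (hs : Self s) (hE : chkE = true)
    (h8 : chkAD 8 AD8 = true) (hA : ∀ c, c < 36 → chkA T c = true) (m : ℕ) (hm : 200 ≤ m) :
    FS T s m + F12 T s m + J0 T s m + J1 T s m ≤ F3 T s m + FZ T s m := by
  obtain ⟨i, hi, hi2⟩ := wU2_range hs hE m hm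
  obtain ⟨z, hz, hz2⟩ := wZ_range hs hE m hm
  have hT2 : wT2 s m < 256 := wd_lt (tB s) (m / 2 - 2) 8
  have hU2 : wU2 s m < 256 := wd_lt (uB s) (m / 2 - 2) 8
  have hc : m % 36 < 36 := Nat.mod_lt _ (by omega)
  have r6 : m % 36 % 6 = m % 6 := by omega
  have r2 : m % 36 % 2 = m % 2 := by omega
  have r12 : m % 36 % 12 = m % 12 := by omega
  have r32 : m % 36 / 3 % 2 = m / 3 % 2 := by omega
  have r22 : m % 36 / 2 % 2 = m / 2 % 2 := by omega
  have ra : (m % 36 / 2 + 16) % 3 = (m / 2 - 2) % 3 := by omega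
  have rb : (m % 36 / 2 + 16) % 2 = (m / 2 - 2) % 2 := by omega
  have rc : (m % 36 / 2 + 17) % 3 = (m / 2 - 1) % 3 := by omega
  have rd : (m % 36 / 2 + 17) % 2 = (m / 2 - 1) % 2 := by omega
  have hk : chkA1 T (m % 36) (wT2 s m) (wU3 s m) (wU2 s m) = true :=
    chkA_spec (hA (m % 36) hc) hz hi hT2 (r6.symm ▸ hz2) (r22.symm ▸ hi2)
  -- the word of `s` near `m / 2`
  have hS2 : wd s (m / 2 - 2) 8 = 255 - (wT2 s m ||| wU2 s m) := wd_compl hs _ (by omega) 8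
  have hS : tb AD8 (255 - (wT2 s m ||| wU2 s m)) = 1 := by
    rw [← hS2]
    unfold chkAD at h8
    exact Nat.eq_of_beq_eq_true
      (genAll_spec' h8 _ (wd_lt s _ 8) (adm_wd hs _ (by omega) 8))
  have hle := chkA1_spec hk hS
  -- the seven bit words
  have w1 : (uw4 (255 - (wT2 s m ||| wU2 s m)) >>> (m % 36 % 2)) % 128 = u7 s m := by
    rw [← hS2, uw4_wd, r2]
    have h4 := wd_sub (uB s) (2 * (m / 2 - 2 + 2)) 8 (m % 2) 7 (by omega)
    have h5 : 2 * (m / 2 - 2 + 2) + m % 2 = m := by omega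
    rw [h5] at h4
    exact h4
  have w2 : wT2 s m % 128 = t7 s (m / 2 - 2) := wd_sub (tB s) (m / 2 - 2) 8 0 7 (by omega)
  have w3 : wU2 s m % 128 = u7 s (m / 2 - 2) := wd_sub (uB s) (m / 2 - 2) 8 0 7 (by omega)
  have h21 : m / 2 - 2 + 1 = m / 2 - 1 := by omega
  have w4 : wT2 s m / 2 = t7 s (m / 2 - 1) := by
    have h4 : (wT2 s m >>> 1) % 128 = wd (tB s) (m / 2 - 2 + 1) 7 :=
      wd_sub (tB s) (m / 2 - 2) 8 1 7 (by omega)
    rw [h21, Nat.shiftRight_eq_div_pow] at h4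
    have h5 : wd (tB s) (m / 2 - 1) 7 = t7 s (m / 2 - 1) := rfl
    omega
  have w5 : wU2 s m / 2 = u7 s (m / 2 - 1) := by
    have h4 : (wU2 s m >>> 1) % 128 = wd (uB s) (m / 2 - 2 + 1) 7 :=
      wd_sub (uB s) (m / 2 - 2) 8 1 7 (by omega)
    rw [h21, Nat.shiftRight_eq_div_pow] at h4
    have h5 : wd (uB s) (m / 2 - 1) 7 = u7 s (m / 2 - 1) := rfl
    omega
  rw [w1, w2, w3, w4, w5, r6, r2, r12, r32, ra, rb, rc, rd] at hle
  unfold FS F12 J0 J1 F3 FZ ix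
  calc _ = _ := by ring
    _ ≤ _ := hle

end Pool.Agent.GreedyCons
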