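import Mathlib

namespace Pool.Agent.GreedyCons

/-- packed vector with `b`-bit fields `x 0, …, x (n-1)` -/
def vecSum (b n : ℕ) (x : ℕ → ℕ) : ℕ := ∑ i ∈ Finset.range n, x i * 2 ^ (b * i)

theorem vecSum_add (b n : ℕ) (x y : ℕ → ℕ) :
    vecSum b n (fun i => x i + y i) = vecSum b n x + vecSum b n y := by
  unfold vecSum
  rw [← Finset.sum_add_distrib]
  exact Finset.sum_congr rfl fun i _ => by ring

theorem vecSum_mul (b n c : ℕ) (x : ℕ → ℕ) :
    vecSum b n (fun i => c * x i) = c * vecSum b n x := by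
  unfold vecSum
  rw [Finset.mul_sum]
  exact Finset.sum_congr rfl fun i _ => by ring

theorem vecSum_zero' (b : ℕ) (x : ℕ → ℕ) : vecSum b 0 x = 0 := by
  unfold vecSum
  simp

theorem vecSum_succ' (b n : ℕ) (x : ℕ → ℕ) :
    vecSum b (n + 1) x = x 0 + 2 ^ b * vecSum b n (fun i => x (i + 1)) := by
  unfold vecSum
  rw [Finset.sum_range_succ', Finset.mul_sum, Nat.mul_zero, Nat.pow_zero, Nat.mul_one,
    Nat.add_comm]
  congr 1
  refine Finset.sum_congr rfl fun i _ => ?_
  rw [show b * (i + 1) = b + b * i by ring, pow_add]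
  ring

/-- splitting off the lowest field in a bitwise and -/
theorem land_split (b v m M : ℕ) (hm : m < 2 ^ b) :
    v &&& (m + 2 ^ b * M) = ((v % 2 ^ b) &&& m) + 2 ^ b * ((v / 2 ^ b) &&& M) := by
  have h1 : (v &&& (m + 2 ^ b * M)) % 2 ^ b = (v % 2 ^ b) &&& m := by
    rw [Nat.and_mod_two_pow, Nat.add_mul_mod_self_left, Nat.mod_eq_of_lt hm]
  have h2 : (v &&& (m + 2 ^ b * M)) / 2 ^ b = (v / 2 ^ b) &&& M := by
    rw [Nat.and_div_two_pow, Nat.add_mul_div_left _ _ (Nat.two_pow_pos b),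
      Nat.div_eq_of_lt hm, Nat.zero_add]
  rw [← h1, ← h2]
  exact (Nat.mod_add_div _ _).symm

/-- masking with `k`-bit masks in each `b`-bit field -/
theorem land_mask (b n k : ℕ) (hk : k ≤ b) (v : ℕ) :
    v &&& vecSum b n (fun _ => 2 ^ k - 1) = vecSum b n (fun i => (v >>> (b * i)) % 2 ^ k) := by
  induction n generalizing v with
  | zero =>
    rw [vecSum_zero', vecSum_zero']
    exact Nat.and_zero v
  | succ n ih =>
    have hm : 2 ^ k - 1 < 2 ^ b := by
      have h1 : 2 ^ k ≤ 2 ^ b := Nat.pow_le_pow_right (by norm_num) hk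
      have h2 : 0 < 2 ^ k := Nat.two_pow_pos k
      omega
    rw [vecSum_succ', vecSum_succ', land_split b v _ _ hm, ih, Nat.and_two_pow_sub_one_eq_mod,
      Nat.mod_mod_of_dvd _ (pow_dvd_pow 2 hk)]
    congr 1
    congr 1
    unfold vecSum
    refine Finset.sum_congr rfl fun i _ => ?_
    have h3 : (v / 2 ^ b) >>> (b * i) = v >>> (b * (i + 1)) := by
      rw [← Nat.shiftRight_eq_div_pow, ← Nat.shiftRight_add, Nat.mul_succ, Nat.add_comm]
    show (v / 2 ^ b) >>> (b * i) % 2 ^ k * 2 ^ (b * i) = v >>> (b * (i + 1)) % 2 ^ k * 2 ^ (b * i)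
    rw [h3]

theorem vec_and (b n : ℕ) : ∀ (z m : ℕ → ℕ), (∀ i, i < n → z i < 2 ^ b) →
    (∀ i, i < n → m i < 2 ^ b) → vecSum b n z &&& vecSum b n m = vecSum b n m →
    ∀ i, i < n → z i &&& m i = m i := by
  induction n with
  | zero => intro z m _ _ _ i hi; exact absurd hi (Nat.not_lt_zero i)
  | succ n ih =>
    intro z m hz hm h i hi
    have hz0 := hz 0 (Nat.succ_pos n)
    have hm0 := hm 0 (Nat.succ_pos n)
    rw [vecSum_succ', vecSum_succ', land_split b _ _ _ hm0, Nat.add_mul_mod_self_left,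
      Nat.mod_eq_of_lt hz0, Nat.add_mul_div_left _ _ (Nat.two_pow_pos b),
      Nat.div_eq_of_lt hz0, Nat.zero_add] at h
    have hlt : z 0 &&& m 0 < 2 ^ b := lt_of_le_of_lt Nat.and_le_right hm0
    have h1 : z 0 &&& m 0 = m 0 := by
      have h2 := congrArg (fun t => t % 2 ^ b) h
      simp only [Nat.add_mul_mod_self_left] at h2
      rwa [Nat.mod_eq_of_lt hlt, Nat.mod_eq_of_lt hm0] at h2
    have h3 : vecSum b n (fun i => z (i + 1)) &&& vecSum b n (fun i => m (i + 1)) =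
        vecSum b n (fun i => m (i + 1)) := by
      have h2 := congrArg (fun t => t / 2 ^ b) h
      simp only [Nat.add_mul_div_left _ _ (Nat.two_pow_pos b)] at h2
      rwa [Nat.div_eq_of_lt hlt, Nat.div_eq_of_lt hm0, Nat.zero_add, Nat.zero_add] at h2
    cases i with
    | zero => exact h1
    | succ i =>
      exact ih (fun i => z (i + 1)) (fun i => m (i + 1)) (fun j hj => hz (j + 1) (by omega))
        (fun j hj => hm (j + 1) (by omega)) h3 i (by omega)

/-- simultaneous comparison of all fields -/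
theorem vec_check (b n : ℕ) (hb : 1 ≤ b) (x y : ℕ → ℕ) (hx : ∀ i, i < n → x i < 2 ^ (b - 1))
    (hy : ∀ i, i < n → y i ≤ 2 ^ (b - 1))
    (h : (vecSum b n x + vecSum b n (fun _ => 2 ^ (b - 1)) - vecSum b n y) &&&
      vecSum b n (fun _ => 2 ^ (b - 1)) = vecSum b n (fun _ => 2 ^ (b - 1))) :
    ∀ i, i < n → y i ≤ x i := by
  have hB : 2 ^ b = 2 * 2 ^ (b - 1) := by
    obtain ⟨c, rfl⟩ : ∃ c, b = c + 1 := ⟨b - 1, by omega⟩
    rw [Nat.add_sub_cancel, pow_succ, Nat.mul_comm]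
  have hpos : 0 < 2 ^ (b - 1) := Nat.two_pow_pos _
  have hsum : vecSum b n (fun i => x i + 2 ^ (b - 1) - y i) + vecSum b n y =
      vecSum b n x + vecSum b n (fun _ => 2 ^ (b - 1)) := by
    rw [← vecSum_add, ← vecSum_add]
    unfold vecSum
    refine Finset.sum_congr rfl fun i hi => ?_
    have h1 := hy i (Finset.mem_range.1 hi)
    have h2 : x i + 2 ^ (b - 1) - y i + y i = x i + 2 ^ (b - 1) := by omega
    show (x i + 2 ^ (b - 1) - y i + y i) * 2 ^ (b * i) = (x i + 2 ^ (b - 1)) * 2 ^ (b * i)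
    rw [h2]
  have hz : vecSum b n x + vecSum b n (fun _ => 2 ^ (b - 1)) - vecSum b n y =
      vecSum b n (fun i => x i + 2 ^ (b - 1) - y i) := by
    rw [← hsum]
    exact Nat.add_sub_cancel _ _
  rw [hz] at h
  intro i hi
  have h1 := vec_and b n _ _ (fun j hj => by
    have h2 := hx j hj
    show x j + 2 ^ (b - 1) - y j < 2 ^ b
    omega) (fun j _ => by
    show 2 ^ (b - 1) < 2 ^ b
    omega) h i hi
  have h1' : (x i + 2 ^ (b - 1) - y i) &&& 2 ^ (b - 1) = 2 ^ (b - 1) := h1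
  have h3 : 2 ^ (b - 1) ≤ x i + 2 ^ (b - 1) - y i :=
    h1'.symm.le.trans Nat.and_le_left
  have h4 := hy i hi
  omega

end Pool.Agent.GreedyCons
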