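import Pool.Agent.GreedyCons.Pot
import Pool.Agent.GreedyCons.WordsLem
import Pool.Agent.GreedyCons.Vec

/-! # The pointwise inequality B (MP_a0eb8a_nt) -/

namespace Pool.Agent.GreedyCons

attribute [local irreducible] iu it ku kt3 kt2 ku2 zp pp inU2 inZ inU3 inT3 inU7 inT7 fld uw4 uw7
  uw9 tw3 tw5 tb

/-- words of a self-referential set, `13` bits, pass check E -/
theorem E_words' {s : ℕ → Bool} (hs : Self s) (hE : chkE = true) (b : ℕ) (hb : 1 ≤ b) :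
    chkE1 (wd (uB s) (2 * (b + 2)) 18) (wd (tB s) (3 * (b + 4)) 15) = true := by
  have h1 := genAll_spec' (f := fun w => strict w fun w => strict (uw9 w) fun UW =>
    strict (tw5 w) fun TW => chkE1 UW TW) (n := 13) hE (wd s b 13) (wd_lt s b 13)
    (adm_wd hs b hb 13)
  simp only [strict_eq] at h1
  rw [uw9_wd, tw5_wd] at h1
  exact h1

theorem dom_U7 {s : ℕ → Bool} (hs : Self s) (hE : chkE = true) (x : ℕ) (hx : 6 ≤ x) :
    inU7 (x % 2) (iu (x % 2) (u7 s x)) = u7 s x ∧ iu (x % 2) (u7 s x) < 29 := by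
  have h := E_words' hs hE (x / 2 - 2) (by omega)
  have h2 := (bAnd_true (bAnd_true (allN_spec (bAnd_true h).1 (x % 2) (by omega))).2).2
  unfold eU7 at h2
  rw [strict_eq] at h2
  have h3 : Nat.mod (Nat.shiftRight (wd (uB s) (2 * (x / 2 - 2 + 2)) 18) (x % 2)) 128 = u7 s x := by
    have h5 := wd_sub (uB s) (2 * (x / 2 - 2 + 2)) 18 (x % 2) 7 (by omega)
    have e : 2 * (x / 2 - 2 + 2) + x % 2 = x := by omega
    rw [e] at h5
    exact h5
  rw [h3] at h2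
  have h4 := bAnd_true h2
  exact ⟨Nat.eq_of_beq_eq_true h4.1, Nat.lt_succ_of_le (Nat.le_of_ble_eq_true h4.2)⟩

theorem dom_T7 {s : ℕ → Bool} (hs : Self s) (hE : chkE = true) (x : ℕ) (hx : 15 ≤ x) :
    inT7 (x % 3) (it (x % 3) (t7 s x)) = t7 s x ∧ it (x % 3) (t7 s x) < 17 := by
  have h := E_words' hs hE (x / 3 - 4) (by omega)
  have h2 := (bAnd_true (allN_spec (bAnd_true (bAnd_true h).2).1 (x % 3) (by omega))).2
  unfold eT7 at h2
  rw [strict_eq] at h2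
  have h3 : Nat.mod (Nat.shiftRight (wd (tB s) (3 * (x / 3 - 4 + 4)) 15) (x % 3)) 128 = t7 s x := by
    have h5 := wd_sub (tB s) (3 * (x / 3 - 4 + 4)) 15 (x % 3) 7 (by omega)
    have e : 3 * (x / 3 - 4 + 4) + x % 3 = x := by omega
    rw [e] at h5
    exact h5
  rw [h3] at h2
  have h4 := bAnd_true h2
  exact ⟨Nat.eq_of_beq_eq_true h4.1, Nat.lt_succ_of_le (Nat.le_of_ble_eq_true h4.2)⟩

theorem dom_U3 {s : ℕ → Bool} (hs : Self s) (hE : chkE = true) (m : ℕ) (hm : 200 ≤ m) :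
    inU3 (m / 3 % 2) (ku (m / 3 % 2) (wU3 s m)) = wU3 s m ∧ ku (m / 3 % 2) (wU3 s m) < 124 := by
  have h := E_words' hs hE (m / 6 - 5) (by omega)
  have h2 := (bAnd_true (bAnd_true (allN_spec (bAnd_true h).1 (m / 3 % 2) (by omega))).2).1
  unfold eU3 at h2
  rw [strict_eq] at h2
  have h3 : Nat.mod (Nat.shiftRight (wd (uB s) (2 * (m / 6 - 5 + 2)) 18) (Nat.add 2 (m / 3 % 2)))
      2048 = wU3 s m := by
    have h5 := wd_sub (uB s) (2 * (m / 6 - 5 + 2)) 18 (2 + m / 3 % 2) 11 (by omega)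
    have e : 2 * (m / 6 - 5 + 2) + (2 + m / 3 % 2) = m / 3 - 4 := by omega
    rw [e] at h5
    exact h5
  rw [h3] at h2
  have h4 := bAnd_true h2
  exact ⟨Nat.eq_of_beq_eq_true h4.1, Nat.lt_succ_of_le (Nat.le_of_ble_eq_true h4.2)⟩

theorem dom_T3 {s : ℕ → Bool} (hs : Self s) (hE : chkE = true) (m : ℕ) (hm : 200 ≤ m) :
    inT3 ((m / 3 - 4) % 3) (kt3 ((m / 3 - 4) % 3) (wT3 s m)) = wT3 s m ∧
      kt3 ((m / 3 - 4) % 3) (wT3 s m) < 60 := by
  have h := E_words' hs hE ((m / 3 - 4) / 3 - 4) (by omega)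
  have h2 := (bAnd_true (allN_spec (bAnd_true (bAnd_true h).2).1 ((m / 3 - 4) % 3) (by omega))).1
  unfold eT3 at h2
  rw [strict_eq] at h2
  have h3 : Nat.mod (Nat.shiftRight (wd (tB s) (3 * ((m / 3 - 4) / 3 - 4 + 4)) 15)
      ((m / 3 - 4) % 3)) 2048 = wT3 s m := by
    have h5 := wd_sub (tB s) (3 * ((m / 3 - 4) / 3 - 4 + 4)) 15 ((m / 3 - 4) % 3) 11 (by omega)
    have e : 3 * ((m / 3 - 4) / 3 - 4 + 4) + (m / 3 - 4) % 3 = m / 3 - 4 := by omega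
    rw [e] at h5
    exact h5
  rw [h3] at h2
  have h4 := bAnd_true h2
  exact ⟨Nat.eq_of_beq_eq_true h4.1, Nat.lt_succ_of_le (Nat.le_of_ble_eq_true h4.2)⟩

/-! ## Literals and rows -/

set_option exponentiation.threshold 1000 in
theorem GOOD_eq : GOOD = vecSum 32 29 (fun _ => 2 ^ 20 - 1) := by
  unfold vecSum GOOD
  simp only [Finset.sum_range_succ, Finset.sum_range_zero]
  norm_num

set_option exponentiation.threshold 1000 in
theorem ONE_eq : ONE = vecSum 32 29 (fun _ => 1) := by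
  unfold vecSum ONE
  simp only [Finset.sum_range_succ, Finset.sum_range_zero]
  norm_num

set_option exponentiation.threshold 1000 in
theorem HH_eq : HH = vecSum 32 29 (fun _ => 2 ^ (32 - 1)) := by
  unfold vecSum HH
  simp only [Finset.sum_range_succ, Finset.sum_range_zero]
  norm_num

attribute [local irreducible] GOOD ONE HH AD7 AD11

theorem row_eq (T a : ℕ) : row T a = vecSum 32 29 (fun i => vfl T (29 * a + i)) := by
  have h := land_mask 32 29 20 (by norm_num) (T >>> (928 * a))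
  have h1 : row T a = (T >>> (928 * a)) &&& vecSum 32 29 (fun _ => 2 ^ 20 - 1) := by
    rw [← GOOD_eq]; rfl
  rw [h1, h]
  unfold vecSum
  refine Finset.sum_congr rfl fun i _ => ?_
  congr 1
  show (T >>> (928 * a)) >>> (32 * i) % 2 ^ 20 = (T >>> (32 * (29 * a + i))) % 1048576
  rw [← Nat.shiftRight_add, show 928 * a + 32 * i = 32 * (29 * a + i) by ring]
  norm_num

attribute [local irreducible] row vfl

/-! ## The two sides of check B in standard notation -/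

/-- index of the `T`-word at `m` -/
noncomputable def aT (c S3 : ℕ) : ℕ := it (c % 3) ((tw3 S3 >>> (c % 3)) % 128)

/-- class of the `U`-word near `M / 3` -/
noncomputable def bU (c S3 M : ℕ) : ℕ := ku (M / 3 % 2) ((uw7 S3 >>> (M / 3 - 2 * (c / 3))) % 2048)

theorem vP_eq (T : Tabs) (c S3 : ℕ) : vP T c S3 =
    3 * ((row (T.P12 (2 * (c + 2) % 12)) (aT c S3) + row (T.P12 ((2 * (c + 2) + 1) % 12)) (aT c S3)) +
      ((row (T.P80 (2 * (c + 2) % 36)) (pp (2 * (c + 2) % 6) (bU c S3 (2 * (c + 2))) (aT c S3)) +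
        row (T.P80 ((2 * (c + 2) + 1) % 36))
          (pp ((2 * (c + 2) + 1) % 6) (bU c S3 (2 * (c + 2) + 1)) (aT c S3))) +
      (row (T.P81 (2 * (c + 1) % 36)) (pp (6 + 2 * (c + 1) % 6) (bU c S3 (2 * (c + 1))) (aT c S3)) +
        row (T.P81 ((2 * (c + 1) + 1) % 36))
          (pp (6 + (2 * (c + 1) + 1) % 6) (bU c S3 (2 * (c + 1) + 1)) (aT c S3))))) := rfl

theorem vN_eq (T : Tabs) (c S3 : ℕ) : vN T c S3 =
    2 * ((row (T.G0 (3 * (c + 4) % 36)) (aT c S3) + (row (T.G0 ((3 * (c + 4) + 1) % 36)) (aT c S3) +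
        row (T.G0 ((3 * (c + 4) + 2) % 36)) (aT c S3))) +
      (row (T.G4 (3 * c % 36)) (aT c S3) + (row (T.G4 ((3 * c + 1) % 36)) (aT c S3) +
        row (T.G4 ((3 * c + 2) % 36)) (aT c S3)))) +
      6 * row (T.G13 (c % 12)) (aT c S3) := rfl

theorem sY_eq (T : Tabs) (c T3 U3 : ℕ) : sY T c T3 U3 =
    fld (T.P4 c) (kt3 ((c / 3 + 2) % 3) T3) +
      (vfl (T.G0 c) (29 * it ((c / 3 + 2) % 3) (T3 % 128) + iu (c / 3 % 2) (U3 % 128)) +
        vfl (T.G4 c) (29 * it (c / 3 % 3) (T3 / 16) + iu (c / 3 % 2) (U3 / 16))) := rfl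

theorem chkB1_spec (T : Tabs) (c T3 U3 S3 : ℕ) (h : chkB1 T c T3 U3 S3 = true)
    (ht : tb AD11 S3 = 1) :
    ((6 * row (T.PS c) (ku (c / 3 % 2) U3) + 6 * sY T c T3 U3 * ONE) + (vP T c S3 + HH) -
      vN T c S3) &&& HH = HH := by
  unfold chkB1 at h
  have h1 := bIf_true_left h (by rw [ht]; rfl)
  exact Nat.eq_of_beq_eq_true h1

/-- fields of the positive side -/
noncomputable def xF (T : Tabs) (c T3 U3 S3 i : ℕ) : ℕ :=
  6 * vfl (T.PS c) (29 * ku (c / 3 % 2) U3 + i) + 6 * sY T c T3 U3 * 1 +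
  3 * ((vfl (T.P12 (2 * (c + 2) % 12)) (29 * aT c S3 + i) +
      vfl (T.P12 ((2 * (c + 2) + 1) % 12)) (29 * aT c S3 + i)) +
      ((vfl (T.P80 (2 * (c + 2) % 36))
          (29 * pp (2 * (c + 2) % 6) (bU c S3 (2 * (c + 2))) (aT c S3) + i) +
        vfl (T.P80 ((2 * (c + 2) + 1) % 36))
          (29 * pp ((2 * (c + 2) + 1) % 6) (bU c S3 (2 * (c + 2) + 1)) (aT c S3) + i)) +
      (vfl (T.P81 (2 * (c + 1) % 36))
          (29 * pp (6 + 2 * (c + 1) % 6) (bU c S3 (2 * (c + 1))) (aT c S3) + i) +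
        vfl (T.P81 ((2 * (c + 1) + 1) % 36))
          (29 * pp (6 + (2 * (c + 1) + 1) % 6) (bU c S3 (2 * (c + 1) + 1)) (aT c S3) + i))))

/-- fields of the negative side -/
noncomputable def yF (T : Tabs) (c S3 i : ℕ) : ℕ :=
  2 * ((vfl (T.G0 (3 * (c + 4) % 36)) (29 * aT c S3 + i) +
        (vfl (T.G0 ((3 * (c + 4) + 1) % 36)) (29 * aT c S3 + i) +
        vfl (T.G0 ((3 * (c + 4) + 2) % 36)) (29 * aT c S3 + i))) +
      (vfl (T.G4 (3 * c % 36)) (29 * aT c S3 + i) +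
        (vfl (T.G4 ((3 * c + 1) % 36)) (29 * aT c S3 + i) +
        vfl (T.G4 ((3 * c + 2) % 36)) (29 * aT c S3 + i)))) +
      6 * vfl (T.G13 (c % 12)) (29 * aT c S3 + i)

theorem xF_sum (T : Tabs) (c T3 U3 S3 : ℕ) : vecSum 32 29 (xF T c T3 U3 S3) =
    6 * row (T.PS c) (ku (c / 3 % 2) U3) + 6 * sY T c T3 U3 * ONE + vP T c S3 := by
  rw [vP_eq, ONE_eq]
  simp only [row_eq, ← vecSum_mul, ← vecSum_add]
  rfl

theorem yF_sum (T : Tabs) (c S3 : ℕ) : vecSum 32 29 (yF T c S3) = vN T c S3 := by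
  rw [vN_eq]
  simp only [row_eq, ← vecSum_mul, ← vecSum_add]
  rfl

theorem xF_lt (T : Tabs) (c T3 U3 S3 i : ℕ) : xF T c T3 U3 S3 i < 2 ^ (32 - 1) := by
  unfold xF
  rw [sY_eq]
  have h1 := vfl_lt (T.PS c) (29 * ku (c / 3 % 2) U3 + i)
  have h2 := fld_lt (T.P4 c) (kt3 ((c / 3 + 2) % 3) T3)
  have h3 := vfl_lt (T.G0 c) (29 * it ((c / 3 + 2) % 3) (T3 % 128) + iu (c / 3 % 2) (U3 % 128))
  have h4 := vfl_lt (T.G4 c) (29 * it (c / 3 % 3) (T3 / 16) + iu (c / 3 % 2) (U3 / 16))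
  have h5 := vfl_lt (T.P12 (2 * (c + 2) % 12)) (29 * aT c S3 + i)
  have h6 := vfl_lt (T.P12 ((2 * (c + 2) + 1) % 12)) (29 * aT c S3 + i)
  have h7 := vfl_lt (T.P80 (2 * (c + 2) % 36))
    (29 * pp (2 * (c + 2) % 6) (bU c S3 (2 * (c + 2))) (aT c S3) + i)
  have h8 := vfl_lt (T.P80 ((2 * (c + 2) + 1) % 36))
    (29 * pp ((2 * (c + 2) + 1) % 6) (bU c S3 (2 * (c + 2) + 1)) (aT c S3) + i)
  have h9 := vfl_lt (T.P81 (2 * (c + 1) % 36))
    (29 * pp (6 + 2 * (c + 1) % 6) (bU c S3 (2 * (c + 1))) (aT c S3) + i)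
  have h10 := vfl_lt (T.P81 ((2 * (c + 1) + 1) % 36))
    (29 * pp (6 + (2 * (c + 1) + 1) % 6) (bU c S3 (2 * (c + 1) + 1)) (aT c S3) + i)
  norm_num at h1 h2 h3 h4 h5 h6 h7 h8 h9 h10 ⊢
  linarith

theorem yF_lt (T : Tabs) (c S3 i : ℕ) : yF T c S3 i ≤ 2 ^ (32 - 1) := by
  unfold yF
  have h1 := vfl_lt (T.G0 (3 * (c + 4) % 36)) (29 * aT c S3 + i)
  have h2 := vfl_lt (T.G0 ((3 * (c + 4) + 1) % 36)) (29 * aT c S3 + i)
  have h3 := vfl_lt (T.G0 ((3 * (c + 4) + 2) % 36)) (29 * aT c S3 + i)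
  have h4 := vfl_lt (T.G4 (3 * c % 36)) (29 * aT c S3 + i)
  have h5 := vfl_lt (T.G4 ((3 * c + 1) % 36)) (29 * aT c S3 + i)
  have h6 := vfl_lt (T.G4 ((3 * c + 2) % 36)) (29 * aT c S3 + i)
  have h7 := vfl_lt (T.G13 (c % 12)) (29 * aT c S3 + i)
  norm_num at h1 h2 h3 h4 h5 h6 h7 ⊢
  linarith

theorem fields (T : Tabs) (c T3 U3 S3 : ℕ) (h : chkB1 T c T3 U3 S3 = true)
    (ht : tb AD11 S3 = 1) (i : ℕ) (hi : i < 29) : yF T c S3 i ≤ xF T c T3 U3 S3 i := by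
  refine vec_check 32 29 (by norm_num) (xF T c T3 U3 S3) (yF T c S3)
    (fun i _ => xF_lt T c T3 U3 S3 i) (fun i _ => yF_lt T c S3 i) ?_ i hi
  have h1 := chkB1_spec T c T3 U3 S3 h ht
  rw [xF_sum, yF_sum, ← HH_eq, add_assoc]
  exact h1

/-! ## Words and potentials at `m` -/

theorem aT_eq (s : ℕ → Bool) (m : ℕ) (hm : 200 ≤ m) :
    aT (m % 36) (wd s (m / 3 - 4) 11) = it (m % 3) (t7 s m) := by
  have h5 := wd_sub (tB s) (3 * (m / 3 - 4 + 4)) 9 (m % 3) 7 (by omega)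
  have e : 3 * (m / 3 - 4 + 4) + m % 3 = m := by omega
  rw [e] at h5
  unfold aT
  rw [tw3_wd, show m % 36 % 3 = m % 3 by omega]
  exact congrArg _ h5

theorem bU_eq (s : ℕ → Bool) (m : ℕ) (hm : 200 ≤ m) (d j : ℕ) (hd : d = 1 ∨ d = 2) (hj : j < 2) :
    bU (m % 36) (wd s (m / 3 - 4) 11) (2 * (m % 36 + d) + j) =
      ku ((2 * (m + d) + j) / 3 % 2) (wU3 s (2 * (m + d) + j)) := by
  have h5 := wd_sub (uB s) (2 * (m / 3 - 4 + 2)) 14
    ((2 * (m % 36 + d) + j) / 3 - 2 * (m % 36 / 3)) 11 (by omega)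
  have e : 2 * (m / 3 - 4 + 2) + ((2 * (m % 36 + d) + j) / 3 - 2 * (m % 36 / 3)) =
      (2 * (m + d) + j) / 3 - 4 := by omega
  rw [e] at h5
  unfold bU
  rw [uw7_wd, show (2 * (m % 36 + d) + j) / 3 % 2 = (2 * (m + d) + j) / 3 % 2 by omega]
  exact congrArg _ h5

theorem F12_eq (T : Tabs) (s : ℕ → Bool) (m j : ℕ) (hj : j < 2) :
    F12 T s (2 * (m + 2) + j) = vfl (T.P12 ((2 * (m % 36 + 2) + j) % 12))
      (29 * it (m % 3) (t7 s m) + iu (m % 2) (u7 s m)) := by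
  unfold F12 ix
  rw [show (2 * (m + 2) + j) / 2 - 2 = m by omega,
    show (2 * (m + 2) + j) % 12 = (2 * (m % 36 + 2) + j) % 12 by omega]

theorem J0_eq (T : Tabs) (s : ℕ → Bool) (m j : ℕ) (hm : 200 ≤ m) (hj : j < 2) :
    J0 T s (2 * (m + 2) + j) = vfl (T.P80 ((2 * (m % 36 + 2) + j) % 36))
      (29 * pp ((2 * (m % 36 + 2) + j) % 6)
        (bU (m % 36) (wd s (m / 3 - 4) 11) (2 * (m % 36 + 2) + j))
        (it (m % 3) (t7 s m)) + iu (m % 2) (u7 s m)) := by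
  unfold J0
  rw [bU_eq s m hm 2 j (Or.inr rfl) hj, show (2 * (m + 2) + j) / 2 - 2 = m by omega,
    show (2 * (m + 2) + j) % 36 = (2 * (m % 36 + 2) + j) % 36 by omega,
    show (2 * (m + 2) + j) % 6 = (2 * (m % 36 + 2) + j) % 6 by omega]

theorem J1_eq (T : Tabs) (s : ℕ → Bool) (m j : ℕ) (hm : 200 ≤ m) (hj : j < 2) :
    J1 T s (2 * (m + 1) + j) = vfl (T.P81 ((2 * (m % 36 + 1) + j) % 36))
      (29 * pp (6 + (2 * (m % 36 + 1) + j) % 6)
        (bU (m % 36) (wd s (m / 3 - 4) 11) (2 * (m % 36 + 1) + j))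
        (it (m % 3) (t7 s m)) + iu (m % 2) (u7 s m)) := by
  unfold J1
  rw [bU_eq s m hm 1 j (Or.inl rfl) hj, show (2 * (m + 1) + j) / 2 - 1 = m by omega,
    show (2 * (m + 1) + j) % 36 = (2 * (m % 36 + 1) + j) % 36 by omega,
    show (2 * (m + 1) + j) % 6 = (2 * (m % 36 + 1) + j) % 6 by omega]

theorem H0_eq (T : Tabs) (s : ℕ → Bool) (m j : ℕ) (hj : j < 3) :
    H0 T s (3 * (m + 4) + j) = vfl (T.G0 ((3 * (m % 36 + 4) + j) % 36))
      (29 * it (m % 3) (t7 s m) + iu (m % 2) (u7 s m)) := by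
  unfold H0 ix
  rw [show (3 * (m + 4) + j) / 3 - 4 = m by omega,
    show (3 * (m + 4) + j) % 36 = (3 * (m % 36 + 4) + j) % 36 by omega]

theorem H4_eq (T : Tabs) (s : ℕ → Bool) (m j : ℕ) (hj : j < 3) :
    H4 T s (3 * m + j) = vfl (T.G4 ((3 * (m % 36) + j) % 36))
      (29 * it (m % 3) (t7 s m) + iu (m % 2) (u7 s m)) := by
  unfold H4 ix
  rw [show (3 * m + j) / 3 = m by omega,
    show (3 * m + j) % 36 = (3 * (m % 36) + j) % 36 by omega]

theorem wd_mod (s : ℕ → Bool) (x : ℕ) : wd s x 11 % 128 = wd s x 7 := by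
  have h := wd_sub s x 11 0 7 (by norm_num)
  rw [Nat.shiftRight_zero, Nat.add_zero] at h
  exact h

theorem wd_div (s : ℕ → Bool) (x : ℕ) : wd s x 11 / 16 = wd s (x + 4) 7 := by
  have h := wd_sub s x 11 4 7 (by norm_num)
  rw [Nat.shiftRight_eq_div_pow] at h
  have h2 := wd_lt s x 11
  norm_num at h h2
  omega

theorem sY_val (T : Tabs) (s : ℕ → Bool) (m : ℕ) (hm : 200 ≤ m) :
    sY T (m % 36) (wT3 s m) (wU3 s m) = F4 T s m + (H0 T s m + H4 T s m) := by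
  rw [sY_eq]
  unfold F4 H0 H4 ix wT3 wU3 t7 u7
  rw [wd_mod, wd_mod, wd_div, wd_div, show m / 3 - 4 + 4 = m / 3 by omega,
    show (m % 36 / 3 + 2) % 3 = (m / 3 - 4) % 3 by omega,
    show m % 36 / 3 % 2 = m / 3 % 2 by omega, show m % 36 / 3 % 3 = m / 3 % 3 by omega,
    show (m / 3 - 4) % 2 = m / 3 % 2 by omega]

theorem adm_bit {s : ℕ → Bool} (hs : Self s) (n L : ℕ) (h : chkAD n L = true) (x : ℕ)
    (hx : 1 ≤ x) : tb L (wd s x n) = 1 := by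
  have h1 := genAll_spec' (f := fun w => Nat.beq (tb L w) 1) (n := n) h (wd s x n) (wd_lt s x n)
    (adm_wd hs x hx n)
  exact Nat.eq_of_beq_eq_true h1

theorem linkD (T : Tabs) {s : ℕ → Bool} (hs : Self s) (hE : chkE = true)
    (h7 : chkAD 7 AD7 = true) (hD : ∀ c, c < 12 → chkD T c = true) (m : ℕ) (hm : 200 ≤ m) :
    F13 T s m ≤ vfl (T.G13 (m % 12)) (29 * it (m % 3) (t7 s m) + iu (m % 2) (u7 s m)) := by
  obtain ⟨hT, hTl⟩ := dom_T7 hs hE m (by omega)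
  obtain ⟨hU, hUl⟩ := dom_U7 hs hE m (by omega)
  have h := allN_spec (hD (m % 12) (by omega)) (it (m % 3) (t7 s m)) hTl
  rw [strict_eq] at h
  have h2 := allN_spec h (iu (m % 2) (u7 s m)) hUl
  rw [strict_eq] at h2
  have e3 : Nat.mod (m % 12) 3 = m % 3 := show m % 12 % 3 = m % 3 by omega
  have e2 : Nat.mod (m % 12) 2 = m % 2 := show m % 12 % 2 = m % 2 by omega
  rw [e3, e2, hT, hU] at h2
  have e4 : Nat.sub 127 (Nat.lor (t7 s m) (u7 s m)) = wd s m 7 :=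
    (wd_compl hs m (by omega) 7).symm
  rw [e4] at h2
  have h3 := bIf_true_left h2 (by rw [adm_bit hs 7 AD7 h7 m (by omega)]; rfl)
  exact Nat.le_of_ble_eq_true h3

/-- the pointwise inequality B -/
theorem linkB (T : Tabs) {s : ℕ → Bool} (hs : Self s) (hE : chkE = true)
    (h11 : chkAD 11 AD11 = true) (h7 : chkAD 7 AD7 = true)
    (hB : ∀ c, c < 36 → chkB T c = true) (hD : ∀ c, c < 12 → chkD T c = true)
    (m : ℕ) (hm : 200 ≤ m) :
    6 * F13 T s m + 2 * (H0 T s (3 * (m + 4)) + H0 T s (3 * (m + 4) + 1) + H0 T s (3 * (m + 4) + 2)) +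
        2 * (H4 T s (3 * m) + H4 T s (3 * m + 1) + H4 T s (3 * m + 2)) ≤
      6 * F4 T s m + 6 * FS T s m + 3 * (F12 T s (2 * (m + 2)) + F12 T s (2 * (m + 2) + 1)) +
        3 * (J0 T s (2 * (m + 2)) + J0 T s (2 * (m + 2) + 1)) +
        3 * (J1 T s (2 * (m + 1)) + J1 T s (2 * (m + 1) + 1)) + 6 * H0 T s m + 6 * H4 T s m := by
  obtain ⟨hU, hUl⟩ := dom_U3 hs hE m hm
  obtain ⟨hT, hTl⟩ := dom_T3 hs hE m hm
  obtain ⟨-, hil⟩ := dom_U7 hs hE m (by omega)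
  have hB1 : chkB1 T (m % 36) (wT3 s m) (wU3 s m) (wd s (m / 3 - 4) 11) = true := by
    have h := allN_spec (hB (m % 36) (by omega)) (ku (m / 3 % 2) (wU3 s m)) hUl
    rw [strict_eq] at h
    have h2 := allN_spec h (kt3 ((m / 3 - 4) % 3) (wT3 s m)) hTl
    rw [strict_eq, strict_eq] at h2
    have e2 : Nat.mod (Nat.div (m % 36) 3) 2 = m / 3 % 2 :=
      show m % 36 / 3 % 2 = m / 3 % 2 by omega
    have e3 : Nat.mod (Nat.add (Nat.div (m % 36) 3) 2) 3 = (m / 3 - 4) % 3 :=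
      show (m % 36 / 3 + 2) % 3 = (m / 3 - 4) % 3 by omega
    rw [e2, e3, hT, hU] at h2
    have e4 : Nat.sub 2047 (Nat.lor (wT3 s m) (wU3 s m)) = wd s (m / 3 - 4) 11 :=
      (wd_compl hs (m / 3 - 4) (by omega) 11).symm
    rw [e4] at h2
    exact h2
  have hf := fields T (m % 36) (wT3 s m) (wU3 s m) (wd s (m / 3 - 4) 11) hB1
    (adm_bit hs 11 AD11 h11 (m / 3 - 4) (by omega)) (iu (m % 2) (u7 s m)) hil
  unfold xF yF at hf
  rw [aT_eq s m hm, sY_val T s m hm] at hf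
  have a0 := F12_eq T s m 0 (by norm_num)
  have a1 := F12_eq T s m 1 (by norm_num)
  have b0 := J0_eq T s m 0 hm (by norm_num)
  have b1 := J0_eq T s m 1 hm (by norm_num)
  have c0 := J1_eq T s m 0 hm (by norm_num)
  have c1 := J1_eq T s m 1 hm (by norm_num)
  have d0 := H0_eq T s m 0 (by norm_num)
  have d1 := H0_eq T s m 1 (by norm_num)
  have d2 := H0_eq T s m 2 (by norm_num)
  have g0 := H4_eq T s m 0 (by norm_num)
  have g1 := H4_eq T s m 1 (by norm_num)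
  have g2 := H4_eq T s m 2 (by norm_num)
  simp only [Nat.add_zero] at a0 b0 c0 d0 g0
  have hFS : FS T s m = vfl (T.PS (m % 36))
      (29 * ku (m % 36 / 3 % 2) (wU3 s m) + iu (m % 2) (u7 s m)) := by
    unfold FS
    rw [show m % 36 / 3 % 2 = m / 3 % 2 by omega]
  have hd := linkD T hs hE h7 hD m hm
  rw [show m % 12 = m % 36 % 12 by omega] at hd
  rw [← hFS, ← a0, ← a1, ← b0, ← b1, ← c0, ← c1, ← d0, ← d1, ← d2, ← g0, ← g1, ← g2] at hf
  linarith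

end Pool.Agent.GreedyCons
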