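import Pool.Agent.GreedyCons.Pot
import Pool.Agent.GreedyCons.WordsLem

namespace Pool.Agent.GreedyCons

attribute [local irreducible] iu it ku kt3 kt2 zp pp fld vfl row uw4 uw7 uw9 tw3 tw5 wd uB tB

theorem LinkM_wd2 (s : ℕ → Bool) (m : ℕ) : wd s m 13 % 2 = (s m).toNat := by
  have h := wd_sub s m 13 0 1 (by omega)
  have h1 : wd s m 1 = (s m).toNat := by
    unfold wd
    simp [wd]
  rw [Nat.shiftRight_zero, pow_one, Nat.add_zero, h1] at h
  exact h

theorem LinkM_w7 (s : ℕ → Bool) (m : ℕ) : wd s m 13 % 128 = wd s m 7 := by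
  have h := wd_sub s m 13 0 7 (by omega)
  rw [Nat.shiftRight_zero, Nat.add_zero] at h
  have h2 : (2 : ℕ) ^ 7 = 128 := by norm_num
  rw [h2] at h
  exact h

theorem LinkM_w9 (s : ℕ → Bool) (m : ℕ) : wd s m 13 % 512 = wd s m 9 := by
  have h := wd_sub s m 13 0 9 (by omega)
  rw [Nat.shiftRight_zero, Nat.add_zero] at h
  have h2 : (2 : ℕ) ^ 9 = 512 := by norm_num
  rw [h2] at h
  exact h

theorem LinkM_w9' (s : ℕ → Bool) (m : ℕ) : (wd s m 13 >>> 1) % 512 = wd s (m + 1) 9 := by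
  have h := wd_sub s m 13 1 9 (by omega)
  have h2 : (2 : ℕ) ^ 9 = 512 := by norm_num
  rw [h2] at h
  exact h

theorem LinkM_f3 (T : Tabs) (s : ℕ → Bool) (m j : ℕ) (hj : j < 4) :
    m3 T (m % 12) (wd (uB s) (2 * (m + 2)) 18) j = F3 T s (4 * (m + 3) + j) := by
  have h := wd_sub (uB s) (2 * (m + 2)) 18 (j / 2) 8 (by omega)
  have h2 : (2 : ℕ) ^ 8 = 256 := by norm_num
  rw [h2] at h
  have e1 : (4 * (m % 12 + 3) + j) % 12 = (4 * (m + 3) + j) % 12 := by omega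
  have e2 : 2 * (m + 2) + j / 2 = (4 * (m + 3) + j) / 2 - 2 := by omega
  rw [e2] at h
  have e3 : m3 T (m % 12) (wd (uB s) (2 * (m + 2)) 18) j =
      fld (T.P3 ((4 * (m % 12 + 3) + j) % 12)) ((wd (uB s) (2 * (m + 2)) 18 >>> (j / 2)) % 256) := rfl
  rw [e3, e1, h]
  rfl

theorem LinkM_fz (T : Tabs) (s : ℕ → Bool) (m j d a b : ℕ) (hj : j < 6)
    (ha : a + 11 ≤ 18) (hb : b + 8 ≤ 15)
    (e2 : 2 * (m + 2) + a = (6 * (m + d) + j) / 3 - 4)
    (e3 : 3 * (m + 4) + b = (6 * (m + d) + j) / 2 - 2) :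
    mZ T (m % 12) (wd (uB s) (2 * (m + 2)) 18) (wd (tB s) (3 * (m + 4)) 15) j d a b =
      FZ T s (6 * (m + d) + j) := by
  have h := wd_sub (uB s) (2 * (m + 2)) 18 a 11 (by omega)
  have h' := wd_sub (tB s) (3 * (m + 4)) 15 b 8 (by omega)
  have h2 : (2 : ℕ) ^ 8 = 256 := by norm_num
  have h3 : (2 : ℕ) ^ 11 = 2048 := by norm_num
  rw [h3] at h
  rw [h2] at h'
  have e1 : (6 * (m % 12 + d) + j) % 36 = (6 * (m + d) + j) % 36 := by omega
  have e4 : j / 3 % 2 = (6 * (m + d) + j) / 3 % 2 := by omega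
  have e5 : (j / 2 + 1) % 3 = ((6 * (m + d) + j) / 2 - 2) % 3 := by omega
  have e6 : j = (6 * (m + d) + j) % 6 := by omega
  rw [e2] at h
  rw [e3] at h'
  have e7 : mZ T (m % 12) (wd (uB s) (2 * (m + 2)) 18) (wd (tB s) (3 * (m + 4)) 15) j d a b =
      fld (T.PZ ((6 * (m % 12 + d) + j) % 36)) (zp j (ku (j / 3 % 2)
        ((wd (uB s) (2 * (m + 2)) 18 >>> a) % 2048))
        (kt2 ((j / 2 + 1) % 3) ((wd (tB s) (3 * (m + 4)) 15 >>> b) % 256))) := rfl
  have e8 : FZ T s (6 * (m + d) + j) = fld (T.PZ ((6 * (m + d) + j) % 36))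
      (zp ((6 * (m + d) + j) % 6) (ku ((6 * (m + d) + j) / 3 % 2)
        (wd (uB s) ((6 * (m + d) + j) / 3 - 4) 11))
        (kt2 (((6 * (m + d) + j) / 2 - 2) % 3) (wd (tB s) ((6 * (m + d) + j) / 2 - 2) 8))) := rfl
  rw [e7, e8, e1, h, h', e4, e5, ← e6]

theorem LinkM_f4 (T : Tabs) (s : ℕ → Bool) (m j d r : ℕ)
    (hr : r < 3) (hd : (9 * (m + d) + j) / 3 - 4 = 3 * (m + 4) + r) :
    m4 T (m % 12) (wd (tB s) (3 * (m + 4)) 15) j d r = F4 T s (9 * (m + d) + j) := by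
  have h := wd_sub (tB s) (3 * (m + 4)) 15 r 11 (by omega)
  have h3 : (2 : ℕ) ^ 11 = 2048 := by norm_num
  rw [h3] at h
  have e1 : (9 * (m % 12 + d) + j) % 36 = (9 * (m + d) + j) % 36 := by omega
  have e5 : r = (3 * (m + 4) + r) % 3 := by omega
  have e7 : m4 T (m % 12) (wd (tB s) (3 * (m + 4)) 15) j d r =
      fld (T.P4 ((9 * (m % 12 + d) + j) % 36))
        (kt3 r ((wd (tB s) (3 * (m + 4)) 15 >>> r) % 2048)) := rfl
  have e8 : F4 T s (9 * (m + d) + j) = fld (T.P4 ((9 * (m + d) + j) % 36))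
      (kt3 (((9 * (m + d) + j) / 3 - 4) % 3) (wd (tB s) ((9 * (m + d) + j) / 3 - 4) 11)) := rfl
  rw [e7, e8, hd, e1, h, ← e5]

/-- the pointwise inequality M -/
theorem linkM (T : Tabs) {s : ℕ → Bool} (hs : Self s) (hM : ∀ c, c < 12 → chkM T c = true)
    (m : ℕ) (hm : 200 ≤ m) :
    36 * ((if s m = true then T.K else 0) + SGM T s (m + 1)) +
        9 * (F3 T s (4 * (m + 3)) + F3 T s (4 * (m + 3) + 1) + F3 T s (4 * (m + 3) + 2) +
          F3 T s (4 * (m + 3) + 3)) +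
        6 * (FZ T s (6 * (m + 5)) + FZ T s (6 * (m + 5) + 1) + FZ T s (6 * (m + 5) + 2) +
          FZ T s (6 * (m + 5) + 3) + FZ T s (6 * (m + 4) + 4) + FZ T s (6 * (m + 4) + 5)) +
        4 * (F4 T s (9 * (m + 6)) + F4 T s (9 * (m + 6) + 1) + F4 T s (9 * (m + 6) + 2) +
          F4 T s (9 * (m + 5) + 3) + F4 T s (9 * (m + 5) + 4) + F4 T s (9 * (m + 5) + 5) +
          F4 T s (9 * (m + 5) + 6) + F4 T s (9 * (m + 5) + 7) + F4 T s (9 * (m + 5) + 8)) ≤
      36 * (F13 T s m + SGM T s m + T.CC) := by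
  have hc : m % 12 < 12 := Nat.mod_lt _ (by norm_num)
  have h0 : chkM T (m % 12) = true := hM _ hc
  unfold chkM at h0
  have h1 := genAll_spec' h0 (wd s m 13) (wd_lt s m 13) (adm_wd hs m (by omega) 13)
  clear h0
  rw [strict_eq, strict_eq, strict_eq, uw9_wd, tw5_wd] at h1
  unfold chkM1 at h1
  have h2 := Nat.le_of_ble_eq_true h1
  clear h1
  have a0 := LinkM_f3 T s m 0 (by omega)
  have a1 := LinkM_f3 T s m 1 (by omega)
  have a2 := LinkM_f3 T s m 2 (by omega)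
  have a3 := LinkM_f3 T s m 3 (by omega)
  have b0 := LinkM_fz T s m 0 5 2 1 (by omega) (by omega) (by omega) (by omega) (by omega)
  have b1 := LinkM_fz T s m 1 5 2 1 (by omega) (by omega) (by omega) (by omega) (by omega)
  have b2 := LinkM_fz T s m 2 5 2 2 (by omega) (by omega) (by omega) (by omega) (by omega)
  have b3 := LinkM_fz T s m 3 5 3 2 (by omega) (by omega) (by omega) (by omega) (by omega)
  have b4 := LinkM_fz T s m 4 4 1 0 (by omega) (by omega) (by omega) (by omega) (by omega)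
  have b5 := LinkM_fz T s m 5 4 1 0 (by omega) (by omega) (by omega) (by omega) (by omega)
  have c0 := LinkM_f4 T s m 0 6 2 (by omega) (by omega)
  have c1 := LinkM_f4 T s m 1 6 2 (by omega) (by omega)
  have c2 := LinkM_f4 T s m 2 6 2 (by omega) (by omega)
  have c3 := LinkM_f4 T s m 3 5 0 (by omega) (by omega)
  have c4 := LinkM_f4 T s m 4 5 0 (by omega) (by omega)
  have c5 := LinkM_f4 T s m 5 5 0 (by omega) (by omega)
  have c6 := LinkM_f4 T s m 6 5 1 (by omega) (by omega)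
  have c7 := LinkM_f4 T s m 7 5 1 (by omega) (by omega)
  have c8 := LinkM_f4 T s m 8 5 1 (by omega) (by omega)
  rw [Nat.add_zero] at a0 b0 c0
  have g1 : SGM T s (m + 1) = fld (T.SG ((m % 12 + 1) % 12)) ((wd s m 13 >>> 1) % 512) := by
    have e : (m % 12 + 1) % 12 = (m + 1) % 12 := by omega
    rw [LinkM_w9', e]
    rfl
  have g2 : F13 T s m = fld (T.P13 (m % 12)) (wd s m 13 % 128) := by
    rw [LinkM_w7]
    rfl
  have g3 : SGM T s m = fld (T.SG (m % 12)) (wd s m 13 % 512) := by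
    rw [LinkM_w9]
    rfl
  have g4 : (if s m = true then T.K else 0) = (wd s m 13 % 2) * T.K := by
    rw [LinkM_wd2]
    cases s m <;> simp
  rw [a0, a1, a2, a3, b0, b1, b2, b3, b4, b5, c0, c1, c2, c3, c4, c5, c6, c7, c8] at h2
  rw [g1, g2, g3, g4]
  generalize F3 T s (4 * (m + 3)) = x0 at *
  generalize F3 T s (4 * (m + 3) + 1) = x1 at *
  generalize F3 T s (4 * (m + 3) + 2) = x2 at *
  generalize F3 T s (4 * (m + 3) + 3) = x3 at *
  generalize FZ T s (6 * (m + 5)) = y0 at *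
  generalize FZ T s (6 * (m + 5) + 1) = y1 at *
  generalize FZ T s (6 * (m + 5) + 2) = y2 at *
  generalize FZ T s (6 * (m + 5) + 3) = y3 at *
  generalize FZ T s (6 * (m + 4) + 4) = y4 at *
  generalize FZ T s (6 * (m + 4) + 5) = y5 at *
  generalize F4 T s (9 * (m + 6)) = z0 at *
  generalize F4 T s (9 * (m + 6) + 1) = z1 at *
  generalize F4 T s (9 * (m + 6) + 2) = z2 at *
  generalize F4 T s (9 * (m + 5) + 3) = z3 at *
  generalize F4 T s (9 * (m + 5) + 4) = z4 at *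
  generalize F4 T s (9 * (m + 5) + 5) = z5 at *
  generalize F4 T s (9 * (m + 5) + 6) = z6 at *
  generalize F4 T s (9 * (m + 5) + 7) = z7 at *
  generalize F4 T s (9 * (m + 5) + 8) = z8 at *
  have h3 : (36 * ((wd s m 13 % 2) * T.K + fld (T.SG ((m % 12 + 1) % 12)) ((wd s m 13 >>> 1) % 512)) +
      9 * ((x0 + x1) + (x2 + x3))) + (6 * ((y0 + (y1 + y2)) + (y3 + (y4 + y5))) +
      4 * ((z0 + (z1 + z2)) + ((z3 + (z4 + z5)) + (z6 + (z7 + z8))))) ≤
      36 * ((fld (T.P13 (m % 12)) (wd s m 13 % 128) + fld (T.SG (m % 12)) (wd s m 13 % 512)) +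
        T.CC) := h2
  clear h2
  generalize (wd s m 13 % 2) * T.K = k0 at *
  generalize fld (T.SG ((m % 12 + 1) % 12)) ((wd s m 13 >>> 1) % 512) = k1 at *
  generalize fld (T.P13 (m % 12)) (wd s m 13 % 128) = k2 at *
  generalize fld (T.SG (m % 12)) (wd s m 13 % 512) = k3 at *
  omega

end Pool.Agent.GreedyCons
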