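import Pool.Agent.GreedyCons.Defs

/-! # The greedy sequence: self-referential description, existence and uniqueness -/

namespace Pool.Agent.GreedyCons

theorem IsGreedy.strictMono {a : ℕ → ℕ} (ha : IsGreedy a) : StrictMono a :=
  strictMono_nat_of_lt_succ (fun n => (ha.succ n).1.1)

theorem IsGreedy.pos {a : ℕ → ℕ} (ha : IsGreedy a) (n : ℕ) : 1 ≤ a n := by
  have h := ha.strictMono.monotone (Nat.zero_le n)
  rw [ha.zero] at h
  exact h

/-- terms are not sums of two consecutive terms -/
theorem IsGreedy.term_ne_two {a : ℕ → ℕ} (ha : IsGreedy a) (n i : ℕ) :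
    a n ≠ a i + a (i + 1) := by
  intro h
  have hi := ha.pos i
  have h1 : a (i + 1) < a n := by omega
  have h2 : i + 1 < n := ha.strictMono.lt_iff_lt.mp h1
  obtain ⟨n', rfl⟩ : ∃ n', n = n' + 1 := ⟨n - 1, by omega⟩
  exact (ha.succ n').1.2.1 i (by omega) h

/-- terms are not sums of three consecutive terms -/
theorem IsGreedy.term_ne_three {a : ℕ → ℕ} (ha : IsGreedy a) (n i : ℕ) :
    a n ≠ a i + a (i + 1) + a (i + 2) := by
  intro h
  have hi := ha.pos i
  have h1 : a (i + 2) < a n := by omega
  have h2 : i + 2 < n := ha.strictMono.lt_iff_lt.mp h1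
  obtain ⟨n', rfl⟩ : ∃ n', n = n' + 1 := ⟨n - 1, by omega⟩
  exact (ha.succ n').1.2.2 i (by omega) h

/-- an integer which is not forbidden is a term -/
theorem IsGreedy.term_of {a : ℕ → ℕ} (ha : IsGreedy a) {m : ℕ} (hm : 1 ≤ m)
    (h2 : ∀ i, m ≠ a i + a (i + 1)) (h3 : ∀ i, m ≠ a i + a (i + 1) + a (i + 2)) :
    ∃ n, a n = m := by
  by_contra hne
  push Not at hne
  have key : ∀ n, a n < m := by
    intro n
    induction n with
    | zero =>
      have h0 := hne 0
      have hz := ha.zero
      omega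
    | succ n ih =>
      have hle : a (n + 1) ≤ m :=
        (ha.succ n).2 ⟨ih, fun i _ => h2 i, fun i _ => h3 i⟩
      exact lt_of_le_of_ne hle (hne (n + 1))
  have h4 := key m
  have h5 : m ≤ a m := ha.strictMono.le_apply
  omega

theorem two_gap {a : ℕ → ℕ} (ha : StrictMono a) {i j : ℕ} (h : i < j) :
    a i + a (i + 1) + 2 ≤ a j + a (j + 1) := by
  have h1 : a i < a (i + 1) := ha (by omega)
  have h2 : a (i + 1) < a (i + 2) := ha (by omega)
  have h3 : a (i + 1) ≤ a j := ha.monotone (by omega)
  have h4 : a (i + 2) ≤ a (j + 1) := ha.monotone (by omega)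
  omega

theorem three_gap {a : ℕ → ℕ} (ha : StrictMono a) {i j : ℕ} (h : i < j) :
    a i + a (i + 1) + a (i + 2) + 3 ≤ a j + a (j + 1) + a (j + 2) := by
  have h1 : a i < a (i + 1) := ha (by omega)
  have h2 : a (i + 1) < a (i + 2) := ha (by omega)
  have h2' : a (i + 2) < a (i + 3) := ha (by omega)
  have h3 : a (i + 1) ≤ a j := ha.monotone (by omega)
  have h4 : a (i + 2) ≤ a (j + 1) := ha.monotone (by omega)
  have h5 : a (i + 3) ≤ a (j + 2) := ha.monotone (by omega)
  omega

theorem not_two_adjacent {a : ℕ → ℕ} (ha : StrictMono a) {x i j : ℕ}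
    (hi : x = a i + a (i + 1)) (hj : x + 1 = a j + a (j + 1)) : False := by
  rcases lt_trichotomy i j with h | h | h
  · have := two_gap ha h
    omega
  · subst h
    omega
  · have := two_gap ha h
    omega

theorem not_three_close {a : ℕ → ℕ} (ha : StrictMono a) {x i j k : ℕ} (hk : 1 ≤ k) (hk2 : k ≤ 2)
    (hi : x = a i + a (i + 1) + a (i + 2)) (hj : x + k = a j + a (j + 1) + a (j + 2)) :
    False := by
  rcases lt_trichotomy i j with h | h | h
  · have := three_gap ha h
    omega
  · subst h
    omega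
  · have := three_gap ha h
    omega

/-- gaps are at most `4` -/
theorem IsGreedy.gap {a : ℕ → ℕ} (ha : IsGreedy a) {m : ℕ} (hm : 1 ≤ m) :
    ∃ j, j < 4 ∧ ∃ n, a n = m + j := by
  have hs := ha.strictMono
  by_contra hcon
  push Not at hcon
  have hforb : ∀ j, j < 4 →
      (∃ i, m + j = a i + a (i + 1)) ∨ (∃ i, m + j = a i + a (i + 1) + a (i + 2)) := by
    intro j hj
    by_contra hn
    push Not at hn
    obtain ⟨n, hn'⟩ := ha.term_of (m := m + j) (by omega) hn.1 hn.2
    exact hcon j hj n hn'
  have hUU : ∀ x, (∃ i, x = a i + a (i + 1)) → (∃ i, x + 1 = a i + a (i + 1)) → False := by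
    rintro x ⟨i, hi⟩ ⟨j, hj⟩
    exact not_two_adjacent hs hi hj
  have hTT : ∀ x k, 1 ≤ k → k ≤ 2 → (∃ i, x = a i + a (i + 1) + a (i + 2)) →
      (∃ i, x + k = a i + a (i + 1) + a (i + 2)) → False := by
    rintro x k hk hk2 ⟨i, hi⟩ ⟨j, hj⟩
    exact not_three_close hs hk hk2 hi hj
  have h0 := hforb 0 (by omega)
  have h1 := hforb 1 (by omega)
  have h2 := hforb 2 (by omega)
  have h3 := hforb 3 (by omega)
  rw [Nat.add_zero] at h0
  rcases h1 with h1 | h1
  · rcases h2 with h2 | h2
    · exact hUU (m + 1) h1 h2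
    · -- m + 2 is a sum of three; then m is not, so m is a sum of two, and m + 1 too
      rcases h0 with h0 | h0
      · exact hUU m h0 h1
      · exact hTT m 2 (by omega) (by omega) h0 h2
  · -- m + 1 is a sum of three: then m + 2 and m + 3 are sums of two
    rcases h2 with h2 | h2
    · rcases h3 with h3 | h3
      · exact hUU (m + 2) h2 h3
      · exact hTT (m + 1) 2 (by omega) (by omega) h1 h3
    · exact hTT (m + 1) 1 (by omega) (by omega) h1 h2

theorem IsGreedy.succ_le {a : ℕ → ℕ} (ha : IsGreedy a) (n : ℕ) : a (n + 1) ≤ a n + 4 := by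
  obtain ⟨j, hj, k, hk⟩ := ha.gap (m := a n + 1) (by omega)
  have h1 : a n < a k := by omega
  have h2 : n < k := ha.strictMono.lt_iff_lt.mp h1
  have h3 : a (n + 1) ≤ a k := ha.strictMono.monotone (by omega)
  omega

theorem ind_eq_true {a : ℕ → ℕ} {m : ℕ} : ind a m = true ↔ ∃ n, a n = m := by
  unfold ind
  exact @decide_eq_true_iff _ (Classical.propDecidable _)

theorem ind_eq_false {a : ℕ → ℕ} {m : ℕ} : ind a m = false ↔ ∀ n, a n ≠ m := by
  rw [← Bool.not_eq_true, ind_eq_true]
  push Not
  rfl

theorem adj_iff {a : ℕ → ℕ} (ha : StrictMono a) {e g : ℕ} (hg : 1 ≤ g) :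
    adj (ind a) e g ↔ ∃ i, a i = e ∧ a (i + 1) = e + g := by
  constructor
  · rintro ⟨h1, h2, h3⟩
    obtain ⟨i, hi⟩ := ind_eq_true.mp h1
    obtain ⟨j, hj⟩ := ind_eq_true.mp h2
    have hij : i < j := ha.lt_iff_lt.mp (by omega)
    refine ⟨i, hi, ?_⟩
    by_contra hne
    have h4 : a i < a (i + 1) := ha (by omega)
    have h5 : a (i + 1) ≤ a j := ha.monotone (by omega)
    have h6 := h3 (a (i + 1) - e) (by omega) (by omega)
    have h7 : e + (a (i + 1) - e) = a (i + 1) := by omega
    rw [h7] at h6
    exact (ind_eq_false.mp h6) (i + 1) rfl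
  · rintro ⟨i, h1, h2⟩
    refine ⟨ind_eq_true.mpr ⟨i, h1⟩, ind_eq_true.mpr ⟨i + 1, h2⟩, ?_⟩
    intro j hj hjg
    rw [ind_eq_false]
    intro n hn
    have h3 : i < n := ha.lt_iff_lt.mp (by omega)
    have h4 : n < i + 1 := ha.lt_iff_lt.mp (by omega)
    omega

theorem isU_iff {a : ℕ → ℕ} (ha : IsGreedy a) {x : ℕ} :
    isU (ind a) x ↔ ∃ i, x = a i + a (i + 1) := by
  constructor
  · rintro ⟨g, e, hg, _, hx, had⟩
    obtain ⟨i, h1, h2⟩ := (adj_iff ha.strictMono hg).mp had
    exact ⟨i, by omega⟩
  · rintro ⟨i, hi⟩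
    have h1 : a i < a (i + 1) := ha.strictMono (by omega)
    have h2 := ha.succ_le i
    refine ⟨a (i + 1) - a i, a i, by omega, by omega, by omega, ?_⟩
    exact (adj_iff ha.strictMono (by omega)).mpr ⟨i, rfl, by omega⟩

theorem isT_iff {a : ℕ → ℕ} (ha : IsGreedy a) {x : ℕ} :
    isT (ind a) x ↔ ∃ i, x = a i + a (i + 1) + a (i + 2) := by
  constructor
  · rintro ⟨g, h, e, hg, _, hh, _, hx, had, had'⟩
    obtain ⟨i, h1, h2⟩ := (adj_iff ha.strictMono hg).mp had
    obtain ⟨j, h3, h4⟩ := (adj_iff ha.strictMono hh).mp had'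
    have hij : j = i + 1 := ha.strictMono.injective (by omega)
    subst hij
    exact ⟨i, by
      have : a (i + 1 + 1) = a (i + 2) := rfl
      omega⟩
  · rintro ⟨i, hi⟩
    have h1 : a i < a (i + 1) := ha.strictMono (by omega)
    have h2 := ha.succ_le i
    have h3 : a (i + 1) < a (i + 2) := ha.strictMono (by omega)
    have h4 : a (i + 2) ≤ a (i + 1) + 4 := ha.succ_le (i + 1)
    refine ⟨a (i + 1) - a i, a (i + 2) - a (i + 1), a i, by omega, by omega, by omega, by omega,
      by omega, ?_, ?_⟩
    · exact (adj_iff ha.strictMono (by omega)).mpr ⟨i, rfl, by omega⟩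
    · refine (adj_iff ha.strictMono (by omega)).mpr ⟨i + 1, by omega, ?_⟩
      have : a (i + 1 + 1) = a (i + 2) := rfl
      omega

/-- The set of terms satisfies the self-referential description. Gaps are at most `4` because a
block of four consecutive integers contains at most two sums of two consecutive terms and, if it
contains two sums of three consecutive terms, these are its ends. -/
theorem self_of_greedy {a : ℕ → ℕ} (ha : IsGreedy a) : Self (ind a) where
  zero := by
    rw [ind_eq_false]
    intro n hn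
    have := ha.pos n
    omega
  gap := by
    intro m hm
    obtain ⟨j, hj, n, hn⟩ := ha.gap hm
    exact ⟨j, hj, ind_eq_true.mpr ⟨n, hn⟩⟩
  rule := by
    intro x hx
    rw [isU_iff ha, isT_iff ha, ind_eq_true]
    constructor
    · rintro ⟨n, rfl⟩
      refine ⟨?_, ?_⟩
      · rintro ⟨i, hi⟩
        exact ha.term_ne_two n i hi
      · rintro ⟨i, hi⟩
        exact ha.term_ne_three n i hi
    · rintro ⟨h2, h3⟩
      push Not at h2 h3
      exact ha.term_of hx h2 h3

/-- the admissible values of the next term -/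
def nextSet (f : ℕ → ℕ) (n : ℕ) : Set ℕ :=
  {m : ℕ | f n < m ∧ (∀ i, i + 1 ≤ n → m ≠ f i + f (i + 1)) ∧
    (∀ i, i + 2 ≤ n → m ≠ f i + f (i + 1) + f (i + 2))}

theorem nextSet_nonempty (f : ℕ → ℕ) (n : ℕ) : (nextSet f n).Nonempty := by
  have hle : ∀ i, i ≤ n → f i ≤ ∑ k ∈ Finset.range (n + 1), f k := by
    intro i hi
    exact Finset.single_le_sum (f := f) (fun _ _ => Nat.zero_le _)
      (Finset.mem_range.mpr (by omega))
  refine ⟨3 * (∑ k ∈ Finset.range (n + 1), f k) + 1, ?_, ?_, ?_⟩
  · have := hle n le_rfl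
    omega
  · intro i hi
    have h1 := hle i (by omega)
    have h2 := hle (i + 1) (by omega)
    omega
  · intro i hi
    have h1 := hle i (by omega)
    have h2 := hle (i + 1) (by omega)
    have h3 := hle (i + 2) (by omega)
    omega

theorem nextSet_congr {f g : ℕ → ℕ} {n : ℕ} (h : ∀ k, k ≤ n → f k = g k) :
    nextSet f n = nextSet g n := by
  ext m
  constructor
  · rintro ⟨h1, h2, h3⟩
    refine ⟨by rw [← h n le_rfl]; exact h1, ?_, ?_⟩
    · intro i hi
      rw [← h i (by omega), ← h (i + 1) (by omega)]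
      exact h2 i hi
    · intro i hi
      rw [← h i (by omega), ← h (i + 1) (by omega), ← h (i + 2) (by omega)]
      exact h3 i hi
  · rintro ⟨h1, h2, h3⟩
    refine ⟨by rw [h n le_rfl]; exact h1, ?_, ?_⟩
    · intro i hi
      rw [h i (by omega), h (i + 1) (by omega)]
      exact h2 i hi
    · intro i hi
      rw [h i (by omega), h (i + 1) (by omega), h (i + 2) (by omega)]
      exact h3 i hi

/-- the approximations of the greedy sequence -/
noncomputable def approx : ℕ → ℕ → ℕ
  | 0 => fun _ => 1
  | n + 1 => fun k => if k = n + 1 then sInf (nextSet (approx n) n) else approx n k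

theorem approx_succ_of_le {n k : ℕ} (h : k ≤ n) : approx (n + 1) k = approx n k := by
  show (if k = n + 1 then sInf (nextSet (approx n) n) else approx n k) = approx n k
  rw [if_neg (by omega)]

theorem approx_eq {n k : ℕ} (h : k ≤ n) : approx n k = approx k k := by
  induction n with
  | zero =>
    have : k = 0 := by omega
    subst this
    rfl
  | succ n ih =>
    rcases Nat.lt_or_ge n k with hk | hk
    · have : k = n + 1 := by omega
      subst this
      rfl
    · rw [approx_succ_of_le hk, ih hk]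

theorem isGreedy_approx : IsGreedy (fun n => approx n n) where
  zero := rfl
  succ := by
    intro n
    have h1 : nextSet (fun n => approx n n) n = nextSet (approx n) n :=
      nextSet_congr (fun k hk => (approx_eq hk).symm)
    have h2 : approx (n + 1) (n + 1) = sInf (nextSet (approx n) n) := by
      show (if n + 1 = n + 1 then sInf (nextSet (approx n) n) else approx n (n + 1)) = _
      rw [if_pos rfl]
    have h3 : IsLeast (nextSet (fun n => approx n n) n) (approx (n + 1) (n + 1)) := by
      rw [h1, h2]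
      exact ⟨Nat.sInf_mem (nextSet_nonempty _ _), fun m hm => Nat.sInf_le hm⟩
    exact h3

theorem greedy_unique {a b : ℕ → ℕ} (ha : IsGreedy a) (hb : IsGreedy b) : a = b := by
  funext n
  induction n using Nat.strong_induction_on with
  | _ n ih =>
    rcases n with _ | n
    · rw [ha.zero, hb.zero]
    · have h1 : IsLeast (nextSet a n) (a (n + 1)) := ha.succ n
      have h2 : IsLeast (nextSet b n) (b (n + 1)) := hb.succ n
      rw [nextSet_congr (f := a) (g := b) (fun k hk => ih k (by omega))] at h1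
      exact h1.unique h2

/-- existence and uniqueness of the greedy sequence (non-vacuity) -/
theorem existsUnique_greedy : ∃! a : ℕ → ℕ, IsGreedy a :=
  ⟨fun n => approx n n, isGreedy_approx, fun _ hb => greedy_unique hb isGreedy_approx⟩

end Pool.Agent.GreedyCons
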