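import Pool.Agent.GreedyCons.Core
import Pool.Agent.GreedyCons.LinkA
import Pool.Agent.GreedyCons.LinkB
import Pool.Agent.GreedyCons.LinkM
import Pool.Agent.GreedyCons.Final
import Pool.Agent.GreedyCons.SelfRule

/-! # From the certificate to the logarithmic density (MP_a0eb8a_nt) -/

namespace Pool.Agent.GreedyCons

theorem sum2 (g : ℕ → ℝ) (k : ℕ) : ∑ j ∈ Finset.range 2, g (k + j) = g k + g (k + 1) := by
  simp [Finset.sum_range_succ]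
theorem sum3 (g : ℕ → ℝ) (k : ℕ) : ∑ j ∈ Finset.range 3, g (k + j) = g k + g (k + 1) + g (k + 2) := by
  simp [Finset.sum_range_succ]
theorem sum4 (g : ℕ → ℝ) (k : ℕ) :
    ∑ j ∈ Finset.range 4, g (k + j) = g k + g (k + 1) + g (k + 2) + g (k + 3) := by
  simp [Finset.sum_range_succ]
theorem sumZ (g : ℕ → ℝ) (m : ℕ) : ∑ j ∈ Finset.range 6, g (6 * (m + cZ j) + j) =
    g (6 * (m + 5)) + g (6 * (m + 5) + 1) + g (6 * (m + 5) + 2) + g (6 * (m + 5) + 3) +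
      g (6 * (m + 4) + 4) + g (6 * (m + 4) + 5) := by
  simp [Finset.sum_range_succ, cZ]
theorem sumJ (g : ℕ → ℝ) (m : ℕ) : ∑ j ∈ Finset.range 9, g (9 * (m + cJ j) + j) =
    g (9 * (m + 6)) + g (9 * (m + 6) + 1) + g (9 * (m + 6) + 2) + g (9 * (m + 5) + 3) +
      g (9 * (m + 5) + 4) + g (9 * (m + 5) + 5) + g (9 * (m + 5) + 6) + g (9 * (m + 5) + 7) +
      g (9 * (m + 5) + 8) := by
  simp [Finset.sum_range_succ, cJ]

theorem bdd_fld {f : ℕ → ℕ} (h : ∀ m, f m < 2 ^ 20) : Bdd (fun m => (f m : ℝ)) := by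
  refine ⟨2 ^ 20, fun m => ?_⟩
  have h1 : (f m : ℝ) < 2 ^ 20 := by exact_mod_cast h m
  have h0 : (0 : ℝ) ≤ (f m : ℝ) := Nat.cast_nonneg _
  rw [abs_of_nonneg h0]
  exact h1.le

theorem F3_lt (T : Tabs) (s : ℕ → Bool) (m : ℕ) : F3 T s m < 2 ^ 20 := fld_lt _ _
theorem F4_lt (T : Tabs) (s : ℕ → Bool) (m : ℕ) : F4 T s m < 2 ^ 20 := fld_lt _ _
theorem FZ_lt (T : Tabs) (s : ℕ → Bool) (m : ℕ) : FZ T s m < 2 ^ 20 := fld_lt _ _
theorem FS_lt (T : Tabs) (s : ℕ → Bool) (m : ℕ) : FS T s m < 2 ^ 20 := vfl_lt _ _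
theorem F12_lt (T : Tabs) (s : ℕ → Bool) (m : ℕ) : F12 T s m < 2 ^ 20 := vfl_lt _ _
theorem H0_lt (T : Tabs) (s : ℕ → Bool) (m : ℕ) : H0 T s m < 2 ^ 20 := vfl_lt _ _
theorem H4_lt (T : Tabs) (s : ℕ → Bool) (m : ℕ) : H4 T s m < 2 ^ 20 := vfl_lt _ _
theorem J0_lt (T : Tabs) (s : ℕ → Bool) (m : ℕ) : J0 T s m < 2 ^ 20 := vfl_lt _ _
theorem J1_lt (T : Tabs) (s : ℕ → Bool) (m : ℕ) : J1 T s m < 2 ^ 20 := vfl_lt _ _
theorem F13_lt (T : Tabs) (s : ℕ → Bool) (m : ℕ) : F13 T s m < 2 ^ 20 := fld_lt _ _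
theorem SGM_lt (T : Tabs) (s : ℕ → Bool) (m : ℕ) : SGM T s m < 2 ^ 20 := fld_lt _ _

attribute [local irreducible] F3 F4 FZ FS F12 H0 H4 J0 J1 F13 SGM in
theorem pointwise (T : Tabs) {s : ℕ → Bool} (hs : Self s) (hK : 0 < T.K) (hE : chkE = true)
    (h7 : chkAD 7 AD7 = true) (h8 : chkAD 8 AD8 = true) (h11 : chkAD 11 AD11 = true)
    (hA : ∀ c, c < 36 → chkA T c = true) (hB : ∀ c, c < 36 → chkB T c = true)
    (hD : ∀ c, c < 12 → chkD T c = true) (hM : ∀ c, c < 12 → chkM T c = true) :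
    ∃ ν : ℕ → ℝ, Nul ν ∧ ∀ m, 200 ≤ m →
      (if s m = true then (1 : ℝ) else 0) - (T.CC : ℝ) / (T.K : ℝ) ≤ ν m := by
  refine core s (fun m => (F3 T s m : ℝ)) (fun m => (F4 T s m : ℝ)) (fun m => (FZ T s m : ℝ))
    (fun m => (FS T s m : ℝ)) (fun m => (F12 T s m : ℝ)) (fun m => (H0 T s m : ℝ))
    (fun m => (H4 T s m : ℝ)) (fun m => (J0 T s m : ℝ)) (fun m => (J1 T s m : ℝ))
    (fun m => (F13 T s m : ℝ)) (fun m => (SGM T s m : ℝ))
    (bdd_fld (F3_lt T s)) (bdd_fld (F4_lt T s)) (bdd_fld (FZ_lt T s)) (bdd_fld (FS_lt T s))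
    (bdd_fld (F12_lt T s)) (bdd_fld (H0_lt T s)) (bdd_fld (H4_lt T s)) (bdd_fld (J0_lt T s))
    (bdd_fld (J1_lt T s)) (bdd_fld (F13_lt T s)) (bdd_fld (SGM_lt T s)) (T.K : ℝ) (T.CC : ℝ)
    (by exact_mod_cast hK) 200 ?_ ?_ ?_
  · intro m hm
    have h := linkA T hs hE h8 hA m hm
    exact_mod_cast h
  · intro m hm
    have h := linkB T hs hE h11 h7 hB hD m hm
    have h' : (6 * F13 T s m + 2 * (H0 T s (3 * (m + 4)) + H0 T s (3 * (m + 4) + 1) +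
        H0 T s (3 * (m + 4) + 2)) +
        2 * (H4 T s (3 * m) + H4 T s (3 * m + 1) + H4 T s (3 * m + 2)) : ℝ) ≤
      6 * F4 T s m + 6 * FS T s m + 3 * (F12 T s (2 * (m + 2)) + F12 T s (2 * (m + 2) + 1)) +
        3 * (J0 T s (2 * (m + 2)) + J0 T s (2 * (m + 2) + 1)) +
        3 * (J1 T s (2 * (m + 1)) + J1 T s (2 * (m + 1) + 1)) + 6 * H0 T s m +
          6 * H4 T s m := by exact_mod_cast h
    rw [sum3 (fun m => (H0 T s m : ℝ)), sum3 (fun m => (H4 T s m : ℝ)),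
      sum2 (fun m => (F12 T s m : ℝ)), sum2 (fun m => (J0 T s m : ℝ)),
      sum2 (fun m => (J1 T s m : ℝ))]
    linarith
  · intro m hm
    have h := linkM T hs hM m hm
    have h' : (36 * ((if s m = true then (T.K : ℝ) else 0) + SGM T s (m + 1)) +
        9 * (F3 T s (4 * (m + 3)) + F3 T s (4 * (m + 3) + 1) + F3 T s (4 * (m + 3) + 2) +
          F3 T s (4 * (m + 3) + 3)) +
        6 * (FZ T s (6 * (m + 5)) + FZ T s (6 * (m + 5) + 1) + FZ T s (6 * (m + 5) + 2) +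
          FZ T s (6 * (m + 5) + 3) + FZ T s (6 * (m + 4) + 4) + FZ T s (6 * (m + 4) + 5)) +
        4 * (F4 T s (9 * (m + 6)) + F4 T s (9 * (m + 6) + 1) + F4 T s (9 * (m + 6) + 2) +
          F4 T s (9 * (m + 5) + 3) + F4 T s (9 * (m + 5) + 4) + F4 T s (9 * (m + 5) + 5) +
          F4 T s (9 * (m + 5) + 6) + F4 T s (9 * (m + 5) + 7) + F4 T s (9 * (m + 5) + 8)) : ℝ) ≤
      36 * (F13 T s m + SGM T s m + T.CC) := by
      by_cases hb : s m = true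
      · rw [if_pos hb] at h ⊢
        exact_mod_cast h
      · rw [if_neg hb] at h ⊢
        exact_mod_cast h
    rw [sum4 (fun m => (F3 T s m : ℝ)), sumZ (fun m => (FZ T s m : ℝ)),
      sumJ (fun m => (F4 T s m : ℝ))]
    linarith

end Pool.Agent.GreedyCons
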