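import Pool.Agent.GreedyCons.NulDef

namespace Pool.Agent.GreedyCons

theorem Nul.zero : Nul (fun _ => 0) := ⟨0, fun N => by simp⟩

theorem Nul.add {F G : ℕ → ℝ} (hF : Nul F) (hG : Nul G) : Nul (fun m => F m + G m) := by
  obtain ⟨C, hC⟩ := hF
  obtain ⟨D, hD⟩ := hG
  refine ⟨C + D, fun N => ?_⟩
  have : ∑ m ∈ Finset.range N, (F m + G m) / ((m : ℝ) + 1) =
      ∑ m ∈ Finset.range N, F m / ((m : ℝ) + 1) + ∑ m ∈ Finset.range N, G m / ((m : ℝ) + 1) := by
    rw [← Finset.sum_add_distrib]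
    exact Finset.sum_congr rfl fun m _ => add_div _ _ _
  rw [this]
  exact (abs_add_le _ _).trans (add_le_add (hC N) (hD N))

theorem Nul.smul {F : ℕ → ℝ} (c : ℝ) (hF : Nul F) : Nul (fun m => c * F m) := by
  obtain ⟨C, hC⟩ := hF
  refine ⟨|c| * C, fun N => ?_⟩
  have : ∑ m ∈ Finset.range N, (c * F m) / ((m : ℝ) + 1) =
      c * ∑ m ∈ Finset.range N, F m / ((m : ℝ) + 1) := by
    rw [Finset.mul_sum]
    exact Finset.sum_congr rfl fun m _ => mul_div_assoc _ _ _
  rw [this, abs_mul]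
  exact mul_le_mul_of_nonneg_left (hC N) (abs_nonneg _)

theorem Nul.neg {F : ℕ → ℝ} (hF : Nul F) : Nul (fun m => - F m) := by
  have := hF.smul (-1)
  simpa using this

theorem Nul.sub {F G : ℕ → ℝ} (hF : Nul F) (hG : Nul G) : Nul (fun m => F m - G m) := by
  have := hF.add hG.neg
  simpa [sub_eq_add_neg] using this

theorem Nul.sum {ι : Type*} (s : Finset ι) {F : ι → ℕ → ℝ} (hF : ∀ i ∈ s, Nul (F i)) :
    Nul (fun m => ∑ i ∈ s, F i m) := by
  classical
  induction s using Finset.induction_on with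
  | empty => simpa using Nul.zero
  | insert a s ha ih =>
    have h1 := hF a (Finset.mem_insert_self _ _)
    have h2 := ih fun i hi => hF i (Finset.mem_insert_of_mem hi)
    have h3 := h1.add h2
    simpa [Finset.sum_insert ha] using h3

/-- functions vanishing from some point on -/
theorem Nul.of_eventually_zero {F : ℕ → ℝ} (m0 : ℕ) (h : ∀ m, m0 ≤ m → F m = 0) : Nul F := by
  refine ⟨∑ m ∈ Finset.range m0, |F m / ((m : ℝ) + 1)|, fun N => ?_⟩
  refine (Finset.abs_sum_le_sum_abs _ _).trans ?_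
  have h1 : ∑ m ∈ Finset.range N, |F m / ((m : ℝ) + 1)| ≤
      ∑ m ∈ Finset.range (N + m0), |F m / ((m : ℝ) + 1)| :=
    Finset.sum_le_sum_of_subset_of_nonneg (Finset.range_subset_range.mpr (by omega))
      fun m _ _ => abs_nonneg _
  refine h1.trans ?_
  rw [add_comm N m0, Finset.sum_range_add]
  have : ∑ m ∈ Finset.range N, |F (m0 + m) / (((m0 + m : ℕ) : ℝ) + 1)| = 0 :=
    Finset.sum_eq_zero fun m _ => by rw [h (m0 + m) (by omega)]; simp
  rw [this, add_zero]

theorem Nul.congr {F G : ℕ → ℝ} (m0 : ℕ) (hF : Nul F) (h : ∀ m, m0 ≤ m → F m = G m) : Nul G := by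
  have h1 : Nul (fun m => G m - F m) :=
    Nul.of_eventually_zero m0 fun m hm => by rw [h m hm]; ring
  have h2 := hF.add h1
  have e : (fun m => F m + (G m - F m)) = G := by
    funext m; ring
  rwa [e] at h2

/-- shift: for bounded `F` -/
theorem Nul.shift1 {F : ℕ → ℝ} (hF : Bdd F) : Nul (fun m => F (m + 1) - F m) := by
  obtain ⟨B, hB⟩ := hF
  have hB0 : 0 ≤ B := (abs_nonneg _).trans (hB 0)
  -- sum by parts
  have key : ∀ N : ℕ, ∑ m ∈ Finset.range N, (F (m + 1) - F m) / ((m : ℝ) + 1) =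
      F N / ((N : ℝ) + 1) - F 0 +
        ∑ m ∈ Finset.range N, F (m + 1) * (1 / ((m : ℝ) + 1) - 1 / ((m : ℝ) + 2)) := by
    intro N
    induction N with
    | zero => simp
    | succ N ih =>
      rw [Finset.sum_range_succ, ih, Finset.sum_range_succ]
      push_cast
      have h1 : ((N : ℝ) + 1) ≠ 0 := by positivity
      have h2 : ((N : ℝ) + 2) ≠ 0 := by positivity
      have h3 : ((N : ℝ) + 1 + 1) ≠ 0 := by positivity
      field_simp
      ring
  have tel : ∀ N : ℕ, ∑ m ∈ Finset.range N, (1 / ((m : ℝ) + 1) - 1 / ((m : ℝ) + 2)) =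
      1 - 1 / ((N : ℝ) + 1) := by
    intro N
    induction N with
    | zero => simp
    | succ N ih =>
      rw [Finset.sum_range_succ, ih]
      push_cast
      ring
  refine ⟨3 * B, fun N => ?_⟩
  rw [key N]
  have h1 : |F N / ((N : ℝ) + 1)| ≤ B := by
    rw [abs_div, abs_of_pos (by positivity : (0 : ℝ) < (N : ℝ) + 1)]
    rw [div_le_iff₀ (by positivity)]
    have := hB N
    have hN : (0 : ℝ) ≤ N := Nat.cast_nonneg _
    nlinarith
  have h2 : |∑ m ∈ Finset.range N, F (m + 1) * (1 / ((m : ℝ) + 1) - 1 / ((m : ℝ) + 2))| ≤ B := by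
    refine (Finset.abs_sum_le_sum_abs _ _).trans ?_
    have h3 : ∀ m ∈ Finset.range N, |F (m + 1) * (1 / ((m : ℝ) + 1) - 1 / ((m : ℝ) + 2))| ≤
        B * (1 / ((m : ℝ) + 1) - 1 / ((m : ℝ) + 2)) := by
      intro m _
      have hpos : 0 ≤ 1 / ((m : ℝ) + 1) - 1 / ((m : ℝ) + 2) := by
        rw [sub_nonneg]
        exact one_div_le_one_div_of_le (by positivity) (by linarith)
      rw [abs_mul, abs_of_nonneg hpos]
      exact mul_le_mul_of_nonneg_right (hB _) hpos
    refine (Finset.sum_le_sum h3).trans ?_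
    rw [← Finset.mul_sum, tel]
    have : 0 ≤ 1 / ((N : ℝ) + 1) := by positivity
    nlinarith
  have h0 := hB 0
  calc |F N / ((N : ℝ) + 1) - F 0 +
        ∑ m ∈ Finset.range N, F (m + 1) * (1 / ((m : ℝ) + 1) - 1 / ((m : ℝ) + 2))|
      ≤ |F N / ((N : ℝ) + 1) - F 0| + |∑ m ∈ Finset.range N, F (m + 1) * (1 / ((m : ℝ) + 1) - 1 / ((m : ℝ) + 2))| := abs_add_le _ _
    _ ≤ (|F N / ((N : ℝ) + 1)| + |F 0|) + B := add_le_add (abs_sub _ _) h2
    _ ≤ 3 * B := by linarith

theorem Bdd.comp {F : ℕ → ℝ} (hF : Bdd F) (g : ℕ → ℕ) : Bdd (fun m => F (g m)) := by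
  obtain ⟨B, hB⟩ := hF
  exact ⟨B, fun m => hB _⟩

theorem Nul.shift {F : ℕ → ℝ} (hF : Bdd F) (k : ℕ) : Nul (fun m => F (m + k) - F m) := by
  induction k with
  | zero => simpa using Nul.zero
  | succ k ih =>
    have h1 := Nul.shift1 (hF.comp (fun m => m + k))
    have h2 := ih.add h1
    have e : (fun m => F (m + k) - F m + (F (m + 1 + k) - F (m + k))) =
        fun m => F (m + (k + 1)) - F m := by
      funext m
      have : m + 1 + k = m + (k + 1) := by omega
      rw [this]; ring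
    rwa [e] at h2

theorem tel2 (N : ℕ) : ∑ m ∈ Finset.range N, (1 / ((m : ℝ) + 1) - 1 / ((m : ℝ) + 2)) =
    1 - 1 / ((N : ℝ) + 1) := by
  induction N with
  | zero => simp
  | succ N ih =>
    rw [Finset.sum_range_succ, ih]
    push_cast
    ring

theorem sum_inv_sq (N : ℕ) : ∑ m ∈ Finset.range N, 1 / ((m : ℝ) + 1) ^ 2 ≤ 2 := by
  have h1 : ∀ m ∈ Finset.range N, 1 / ((m : ℝ) + 1) ^ 2 ≤
      2 * (1 / ((m : ℝ) + 1) - 1 / ((m : ℝ) + 2)) := by
    intro m _
    have hm : (0 : ℝ) ≤ m := Nat.cast_nonneg _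
    have e : 2 * (1 / ((m : ℝ) + 1) - 1 / ((m : ℝ) + 2)) = 2 / (((m : ℝ) + 1) * ((m : ℝ) + 2)) := by
      field_simp
      ring
    rw [e, div_le_div_iff₀ (by positivity) (by positivity)]
    nlinarith
  refine (Finset.sum_le_sum h1).trans ?_
  rw [← Finset.mul_sum, tel2]
  have : 0 ≤ 1 / ((N : ℝ) + 1) := by positivity
  linarith

theorem sum_blocks (F : ℕ → ℝ) (q N : ℕ) : ∑ M ∈ Finset.range (q * N), F M =
    ∑ m ∈ Finset.range N, ∑ j ∈ Finset.range q, F (q * m + j) := by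
  induction N with
  | zero => simp
  | succ N ih =>
    rw [Nat.mul_succ, Finset.sum_range_add, ih, Finset.sum_range_succ]

/-- dilation: for bounded `F` -/
theorem Nul.dil {F : ℕ → ℝ} (hF : Bdd F) (q : ℕ) (hq : 0 < q) :
    Nul (fun m => (q : ℝ) * F m - ∑ j ∈ Finset.range q, F (q * m + j)) := by
  obtain ⟨B, hB⟩ := hF
  have hB0 : 0 ≤ B := (abs_nonneg _).trans (hB 0)
  have hq1 : (1 : ℝ) ≤ q := by exact_mod_cast hq
  refine ⟨q * (B * q) + 2 * (B * q * q), fun N => ?_⟩
  have e1 : ∑ m ∈ Finset.range N, ((q : ℝ) * F m - ∑ j ∈ Finset.range q, F (q * m + j)) /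
      ((m : ℝ) + 1) =
      q * (∑ m ∈ Finset.range N, F m / ((m : ℝ) + 1) -
        ∑ M ∈ Finset.range (q * N), F M / ((M : ℝ) + 1)) -
      ∑ m ∈ Finset.range N, ∑ j ∈ Finset.range q,
        F (q * m + j) * (1 / ((m : ℝ) + 1) - q / (((q * m + j : ℕ) : ℝ) + 1)) := by
    rw [sum_blocks (fun M => F M / ((M : ℝ) + 1)) q N, mul_sub, Finset.mul_sum, Finset.mul_sum,
      sub_sub, ← Finset.sum_add_distrib, ← Finset.sum_sub_distrib]
    refine Finset.sum_congr rfl fun m _ => ?_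
    rw [Finset.mul_sum, ← Finset.sum_add_distrib, sub_div, mul_div_assoc, Finset.sum_div]
    congr 1
    refine Finset.sum_congr rfl fun j _ => ?_
    ring
  rw [e1]
  have h1 : |∑ m ∈ Finset.range N, F m / ((m : ℝ) + 1) -
        ∑ M ∈ Finset.range (q * N), F M / ((M : ℝ) + 1)| ≤ B * q := by
    have hN : q * N = N + (q - 1) * N := by
      obtain ⟨p, rfl⟩ : ∃ p, q = p + 1 := ⟨q - 1, by omega⟩
      simp only [Nat.add_sub_cancel]
      ring
    rw [hN, Finset.sum_range_add]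
    have e : ∑ m ∈ Finset.range N, F m / ((m : ℝ) + 1) - (∑ m ∈ Finset.range N, F m / ((m : ℝ) + 1) +
        ∑ M ∈ Finset.range ((q - 1) * N), F (N + M) / (((N + M : ℕ) : ℝ) + 1)) =
        - ∑ M ∈ Finset.range ((q - 1) * N), F (N + M) / (((N + M : ℕ) : ℝ) + 1) := by ring
    rw [e, abs_neg]
    refine (Finset.abs_sum_le_sum_abs _ _).trans ?_
    have h2 : ∀ M ∈ Finset.range ((q - 1) * N), |F (N + M) / (((N + M : ℕ) : ℝ) + 1)| ≤
        B / ((N : ℝ) + 1) := by
      intro M _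
      rw [abs_div, abs_of_pos (by positivity : (0 : ℝ) < ((N + M : ℕ) : ℝ) + 1)]
      refine div_le_div₀ hB0 (hB _) (by positivity) ?_
      push_cast
      have : (0 : ℝ) ≤ M := Nat.cast_nonneg _
      linarith
    refine (Finset.sum_le_sum h2).trans ?_
    rw [Finset.sum_const, Finset.card_range, nsmul_eq_mul]
    have h3 : (((q - 1) * N : ℕ) : ℝ) ≤ q * N := by
      exact_mod_cast Nat.mul_le_mul_right N (Nat.sub_le q 1)
    have h4 : (0 : ℝ) ≤ B / ((N : ℝ) + 1) := by positivity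
    refine (mul_le_mul_of_nonneg_right h3 h4).trans ?_
    rw [mul_div_assoc', div_le_iff₀ (by positivity)]
    have hN0 : (0 : ℝ) ≤ N := Nat.cast_nonneg _
    nlinarith [mul_nonneg hB0 (by linarith : (0 : ℝ) ≤ q)]
  have h5 : |∑ m ∈ Finset.range N, ∑ j ∈ Finset.range q,
        F (q * m + j) * (1 / ((m : ℝ) + 1) - q / (((q * m + j : ℕ) : ℝ) + 1))| ≤
      2 * (B * q * q) := by
    refine (Finset.abs_sum_le_sum_abs _ _).trans ?_
    have h6 : ∀ m ∈ Finset.range N, |∑ j ∈ Finset.range q,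
        F (q * m + j) * (1 / ((m : ℝ) + 1) - q / (((q * m + j : ℕ) : ℝ) + 1))| ≤
        B * q * q * (1 / ((m : ℝ) + 1) ^ 2) := by
      intro m _
      refine (Finset.abs_sum_le_sum_abs _ _).trans ?_
      have h7 : ∀ j ∈ Finset.range q,
          |F (q * m + j) * (1 / ((m : ℝ) + 1) - q / (((q * m + j : ℕ) : ℝ) + 1))| ≤
          B * q * (1 / ((m : ℝ) + 1) ^ 2) := by
        intro j hj
        have hj' : j < q := Finset.mem_range.mp hj
        have hm0 : (0 : ℝ) ≤ m := Nat.cast_nonneg _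
        have hj0 : (0 : ℝ) ≤ j := Nat.cast_nonneg _
        have hjq : (j : ℝ) + 1 ≤ q := by exact_mod_cast hj'
        have hd : (0 : ℝ) < (q : ℝ) * m + j + 1 := by positivity
        have e2 : 1 / ((m : ℝ) + 1) - q / (((q * m + j : ℕ) : ℝ) + 1) =
            - (((q : ℝ) - j - 1) / (((m : ℝ) + 1) * ((q : ℝ) * m + j + 1))) := by
          push_cast
          field_simp
          ring
        have h8 : |1 / ((m : ℝ) + 1) - q / (((q * m + j : ℕ) : ℝ) + 1)| ≤
            q * (1 / ((m : ℝ) + 1) ^ 2) := by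
          rw [e2, abs_neg, abs_of_nonneg (div_nonneg (by linarith) (by positivity)),
            mul_one_div, div_le_div_iff₀ (by positivity) (by positivity)]
          have h9 : (m : ℝ) + 1 ≤ (q : ℝ) * m + j + 1 := by nlinarith
          have h10 : (q : ℝ) - j - 1 ≤ q := by linarith
          have h11 : ((q : ℝ) - j - 1) * ((m : ℝ) + 1) ^ 2 ≤ q * ((m : ℝ) + 1) ^ 2 :=
            mul_le_mul_of_nonneg_right h10 (by positivity)
          have h12 : (q : ℝ) * ((m : ℝ) + 1) ^ 2 ≤ q * (((m : ℝ) + 1) * ((q : ℝ) * m + j + 1)) := by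
            refine mul_le_mul_of_nonneg_left ?_ (by positivity)
            rw [sq]
            exact mul_le_mul_of_nonneg_left h9 (by positivity)
          exact h11.trans h12
        rw [abs_mul, mul_assoc]
        exact mul_le_mul (hB _) h8 (abs_nonneg _) hB0
      refine (Finset.sum_le_sum h7).trans ?_
      rw [Finset.sum_const, Finset.card_range, nsmul_eq_mul]
      apply le_of_eq
      ring
    refine (Finset.sum_le_sum h6).trans ?_
    rw [← Finset.mul_sum]
    have h13 := sum_inv_sq N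
    have h14 : 0 ≤ B * q * q := by positivity
    nlinarith
  calc |q * (∑ m ∈ Finset.range N, F m / ((m : ℝ) + 1) -
        ∑ M ∈ Finset.range (q * N), F M / ((M : ℝ) + 1)) -
      ∑ m ∈ Finset.range N, ∑ j ∈ Finset.range q,
        F (q * m + j) * (1 / ((m : ℝ) + 1) - q / (((q * m + j : ℕ) : ℝ) + 1))|
      ≤ |q * (∑ m ∈ Finset.range N, F m / ((m : ℝ) + 1) -
        ∑ M ∈ Finset.range (q * N), F M / ((M : ℝ) + 1))| + _ := abs_sub _ _
    _ ≤ q * (B * q) + 2 * (B * q * q) := by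
        refine add_le_add ?_ h5
        rw [abs_mul, abs_of_nonneg (by linarith : (0 : ℝ) ≤ q)]
        exact mul_le_mul_of_nonneg_left h1 (by linarith)

/-- dilation with separate shifts -/
theorem Nul.dilShift {F : ℕ → ℝ} (hF : Bdd F) (q : ℕ) (hq : 0 < q) (c : ℕ → ℕ) :
    Nul (fun m => (q : ℝ) * F m - ∑ j ∈ Finset.range q, F (q * (m + c j) + j)) := by
  have h1 := Nul.dil hF q hq
  have h2 : Nul (fun m => ∑ j ∈ Finset.range q, (F (q * (m + c j) + j) - F (q * m + j))) :=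
    Nul.sum (Finset.range q) fun j _ => Nul.shift (hF.comp (fun m => q * m + j)) (c j)
  have h3 := h1.sub h2
  have e : (fun m => (q : ℝ) * F m - ∑ j ∈ Finset.range q, F (q * m + j) -
      ∑ j ∈ Finset.range q, (F (q * (m + c j) + j) - F (q * m + j))) =
      fun m => (q : ℝ) * F m - ∑ j ∈ Finset.range q, F (q * (m + c j) + j) := by
    funext m
    rw [Finset.sum_sub_distrib]
    ring
  rwa [e] at h3

end Pool.Agent.GreedyCons
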