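import Pool.Agent.GreedyCons.Check

/-! # The potentials as functions on `ℕ` (MP_a0eb8a_nt) -/

namespace Pool.Agent.GreedyCons

section
variable (T : Tabs) (s : ℕ → Bool)

/-- `7`-bit words of `U` and of `T` on `x, …, x + 6` -/
noncomputable def u7 (x : ℕ) : ℕ := wd (uB s) x 7
noncomputable def t7 (x : ℕ) : ℕ := wd (tB s) x 7
/-- `8`-bit words near `m / 2` and `11`-bit words near `m / 3` -/
noncomputable def wU2 (m : ℕ) : ℕ := wd (uB s) (m / 2 - 2) 8
noncomputable def wT2 (m : ℕ) : ℕ := wd (tB s) (m / 2 - 2) 8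
noncomputable def wU3 (m : ℕ) : ℕ := wd (uB s) (m / 3 - 4) 11
noncomputable def wT3 (m : ℕ) : ℕ := wd (tB s) (m / 3 - 4) 11

noncomputable def F3 (m : ℕ) : ℕ := fld (T.P3 (m % 12)) (wU2 s m)
noncomputable def FZ (m : ℕ) : ℕ :=
  fld (T.PZ (m % 36)) (zp (m % 6) (ku (m / 3 % 2) (wU3 s m)) (kt2 ((m / 2 - 2) % 3) (wT2 s m)))
noncomputable def F4 (m : ℕ) : ℕ := fld (T.P4 (m % 36)) (kt3 ((m / 3 - 4) % 3) (wT3 s m))
noncomputable def FS (m : ℕ) : ℕ :=
  vfl (T.PS (m % 36)) (29 * ku (m / 3 % 2) (wU3 s m) + iu (m % 2) (u7 s m))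
/-- index of the pair of `7`-bit words at `x` -/
noncomputable def ix (x : ℕ) : ℕ := 29 * it (x % 3) (t7 s x) + iu (x % 2) (u7 s x)
noncomputable def F12 (m : ℕ) : ℕ := vfl (T.P12 (m % 12)) (ix s (m / 2 - 2))
noncomputable def H0 (m : ℕ) : ℕ := vfl (T.G0 (m % 36)) (ix s (m / 3 - 4))
noncomputable def H4 (m : ℕ) : ℕ := vfl (T.G4 (m % 36)) (ix s (m / 3))
noncomputable def J0 (m : ℕ) : ℕ :=
  vfl (T.P80 (m % 36)) (29 * pp (m % 6) (ku (m / 3 % 2) (wU3 s m))
    (it ((m / 2 - 2) % 3) (t7 s (m / 2 - 2))) + iu ((m / 2 - 2) % 2) (u7 s (m / 2 - 2)))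
noncomputable def J1 (m : ℕ) : ℕ :=
  vfl (T.P81 (m % 36)) (29 * pp (6 + m % 6) (ku (m / 3 % 2) (wU3 s m))
    (it ((m / 2 - 1) % 3) (t7 s (m / 2 - 1))) + iu ((m / 2 - 1) % 2) (u7 s (m / 2 - 1)))
noncomputable def F13 (m : ℕ) : ℕ := fld (T.P13 (m % 12)) (wd s m 7)
noncomputable def SGM (m : ℕ) : ℕ := fld (T.SG (m % 12)) (wd s m 9)

end

/-! ## Soundness of the loops -/

theorem strict_eq (x : ℕ) (f : ℕ → Bool) : strict x f = f x := by
  cases x <;> rfl

theorem bAnd_true {a b : Bool} (h : bAnd a b = true) : a = true ∧ b = true := by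
  cases a <;> cases b <;> simp_all [bAnd]

theorem bIf_true_left {b y : Bool} (h : bIf b true y = true) (hb : b = false) : y = true := by
  subst hb; exact h

theorem allN_spec {n : ℕ} {f : ℕ → Bool} (h : allN n f = true) : ∀ i, i < n → f i = true := by
  induction n with
  | zero => intro i hi; omega
  | succ n ih =>
    have h' : bAnd (f n) (allN n f) = true := h
    have h2 := bAnd_true h'
    intro i hi
    rcases Nat.lt_succ_iff_lt_or_eq.mp hi with h3 | h3
    · exact ih h2.2 i h3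
    · subst h3; exact h2.1

theorem genAll_spec {f : ℕ → Bool} {n : ℕ} : ∀ {r pos acc : ℕ}, genAll f n r pos acc = true →
    ∀ w, w < 2 ^ n → adm n r w = true → f (acc + pos * w) = true := by
  induction n with
  | zero =>
    intro r pos acc h w hw _
    have : w = 0 := by omega
    subst this
    exact h
  | succ n ih =>
    intro r pos acc h w hw ha
    have h' : bAnd (genAll f n 0 (2 * pos) (acc + pos))
      (bIf (Nat.ble 3 r) true (genAll f n (r + 1) (2 * pos) acc)) = true := h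
    have h2 := bAnd_true h'
    have hw2 : w / 2 < 2 ^ n := by
      have : 2 ^ (n + 1) = 2 * 2 ^ n := by ring
      omega
    rcases Nat.mod_two_eq_zero_or_one w with h0 | h1
    · simp only [adm, h0] at ha
      have ha' : r < 3 ∧ adm n (r + 1) (w / 2) = true := by simpa using ha
      have hb : Nat.ble 3 r = false := by
        rw [Bool.eq_false_iff]; intro hh; have := Nat.le_of_ble_eq_true hh; omega
      have h3 := ih (bIf_true_left h2.2 hb) (w / 2) hw2 ha'.2
      have : acc + 2 * pos * (w / 2) = acc + pos * w := by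
        have : w = 2 * (w / 2) := by omega
        conv_rhs => rw [this]
        ring
      rwa [this] at h3
    · simp only [adm, h1, if_true] at ha
      have h3 := ih h2.1 (w / 2) hw2 ha
      have : acc + pos + 2 * pos * (w / 2) = acc + pos * w := by
        have : w = 2 * (w / 2) + 1 := by omega
        conv_rhs => rw [this]
        ring
      rwa [this] at h3

theorem genAll_spec' {f : ℕ → Bool} {n : ℕ} (h : genAll f n 0 1 0 = true) (w : ℕ) (hw : w < 2 ^ n)
    (ha : adm n 0 w = true) : f w = true := by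
  have := genAll_spec h w hw ha
  simpa using this

theorem fld_lt (T k : ℕ) : fld T k < 2 ^ 20 := Nat.mod_lt _ (by norm_num)
theorem vfl_lt (T k : ℕ) : vfl T k < 2 ^ 20 := Nat.mod_lt _ (by norm_num)

end Pool.Agent.GreedyCons
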