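import Pool.Agent.GreedyCons.Check
import Pool.Agent.GreedyCons.DataR
import Pool.Agent.GreedyCons.DataS
import Pool.Agent.GreedyCons.DataU
import Pool.Agent.GreedyCons.DataV

/-! # The record of tables (generated) -/

namespace Pool.Agent.GreedyCons

noncomputable def tP3 : ℕ → ℕ
  | 0 => tP3_0
  | 1 => tP3_1
  | 2 => tP3_2
  | 3 => tP3_3
  | 4 => tP3_4
  | 5 => tP3_5
  | 6 => tP3_6
  | 7 => tP3_7
  | 8 => tP3_8
  | 9 => tP3_9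
  | 10 => tP3_10
  | _ => tP3_11

noncomputable def tP4 : ℕ → ℕ
  | 0 => tP4_0
  | 1 => tP4_1
  | 2 => tP4_2
  | 3 => tP4_3
  | 4 => tP4_4
  | 5 => tP4_5
  | 6 => tP4_6
  | 7 => tP4_7
  | 8 => tP4_8
  | 9 => tP4_9
  | 10 => tP4_10
  | 11 => tP4_11
  | 12 => tP4_12
  | 13 => tP4_13
  | 14 => tP4_14
  | 15 => tP4_15
  | 16 => tP4_16
  | 17 => tP4_17
  | 18 => tP4_18
  | 19 => tP4_19
  | 20 => tP4_20
  | 21 => tP4_21
  | 22 => tP4_22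
  | 23 => tP4_23
  | 24 => tP4_24
  | 25 => tP4_25
  | 26 => tP4_26
  | 27 => tP4_27
  | 28 => tP4_28
  | 29 => tP4_29
  | 30 => tP4_30
  | 31 => tP4_31
  | 32 => tP4_32
  | 33 => tP4_33
  | 34 => tP4_34
  | _ => tP4_35

noncomputable def tPZ : ℕ → ℕ
  | 0 => tPZ_0
  | 1 => tPZ_1
  | 2 => tPZ_2
  | 3 => tPZ_3
  | 4 => tPZ_4
  | 5 => tPZ_5
  | 6 => tPZ_6
  | 7 => tPZ_7
  | 8 => tPZ_8
  | 9 => tPZ_9
  | 10 => tPZ_10
  | 11 => tPZ_11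
  | 12 => tPZ_12
  | 13 => tPZ_13
  | 14 => tPZ_14
  | 15 => tPZ_15
  | 16 => tPZ_16
  | 17 => tPZ_17
  | 18 => tPZ_18
  | 19 => tPZ_19
  | 20 => tPZ_20
  | 21 => tPZ_21
  | 22 => tPZ_22
  | 23 => tPZ_23
  | 24 => tPZ_24
  | 25 => tPZ_25
  | 26 => tPZ_26
  | 27 => tPZ_27
  | 28 => tPZ_28
  | 29 => tPZ_29
  | 30 => tPZ_30
  | 31 => tPZ_31
  | 32 => tPZ_32
  | 33 => tPZ_33
  | 34 => tPZ_34
  | _ => tPZ_35

noncomputable def tPS : ℕ → ℕ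
  | 0 => tPS_0
  | 1 => tPS_1
  | 2 => tPS_2
  | 3 => tPS_3
  | 4 => tPS_4
  | 5 => tPS_5
  | 6 => tPS_6
  | 7 => tPS_7
  | 8 => tPS_8
  | 9 => tPS_9
  | 10 => tPS_10
  | 11 => tPS_11
  | 12 => tPS_12
  | 13 => tPS_13
  | 14 => tPS_14
  | 15 => tPS_15
  | 16 => tPS_16
  | 17 => tPS_17
  | 18 => tPS_18
  | 19 => tPS_19
  | 20 => tPS_20
  | 21 => tPS_21
  | 22 => tPS_22
  | 23 => tPS_23
  | 24 => tPS_24
  | 25 => tPS_25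
  | 26 => tPS_26
  | 27 => tPS_27
  | 28 => tPS_28
  | 29 => tPS_29
  | 30 => tPS_30
  | 31 => tPS_31
  | 32 => tPS_32
  | 33 => tPS_33
  | 34 => tPS_34
  | _ => tPS_35

noncomputable def tP12 : ℕ → ℕ
  | 0 => tP12_0
  | 1 => tP12_1
  | 2 => tP12_2
  | 3 => tP12_3
  | 4 => tP12_4
  | 5 => tP12_5
  | 6 => tP12_6
  | 7 => tP12_7
  | 8 => tP12_8
  | 9 => tP12_9
  | 10 => tP12_10
  | _ => tP12_11

noncomputable def tG0 : ℕ → ℕ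
  | 0 => tG0_0
  | 1 => tG0_1
  | 2 => tG0_2
  | 3 => tG0_3
  | 4 => tG0_4
  | 5 => tG0_5
  | 6 => tG0_6
  | 7 => tG0_7
  | 8 => tG0_8
  | 9 => tG0_9
  | 10 => tG0_10
  | 11 => tG0_11
  | 12 => tG0_12
  | 13 => tG0_13
  | 14 => tG0_14
  | 15 => tG0_15
  | 16 => tG0_16
  | 17 => tG0_17
  | 18 => tG0_18
  | 19 => tG0_19
  | 20 => tG0_20
  | 21 => tG0_21
  | 22 => tG0_22
  | 23 => tG0_23
  | 24 => tG0_24
  | 25 => tG0_25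
  | 26 => tG0_26
  | 27 => tG0_27
  | 28 => tG0_28
  | 29 => tG0_29
  | 30 => tG0_30
  | 31 => tG0_31
  | 32 => tG0_32
  | 33 => tG0_33
  | 34 => tG0_34
  | _ => tG0_35

noncomputable def tG4 : ℕ → ℕ
  | 0 => tG4_0
  | 1 => tG4_1
  | 2 => tG4_2
  | 3 => tG4_3
  | 4 => tG4_4
  | 5 => tG4_5
  | 6 => tG4_6
  | 7 => tG4_7
  | 8 => tG4_8
  | 9 => tG4_9
  | 10 => tG4_10
  | 11 => tG4_11
  | 12 => tG4_12
  | 13 => tG4_13
  | 14 => tG4_14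
  | 15 => tG4_15
  | 16 => tG4_16
  | 17 => tG4_17
  | 18 => tG4_18
  | 19 => tG4_19
  | 20 => tG4_20
  | 21 => tG4_21
  | 22 => tG4_22
  | 23 => tG4_23
  | 24 => tG4_24
  | 25 => tG4_25
  | 26 => tG4_26
  | 27 => tG4_27
  | 28 => tG4_28
  | 29 => tG4_29
  | 30 => tG4_30
  | 31 => tG4_31
  | 32 => tG4_32
  | 33 => tG4_33
  | 34 => tG4_34
  | _ => tG4_35

noncomputable def tP80 : ℕ → ℕ
  | 0 => tP80_0
  | 1 => tP80_1
  | 2 => tP80_2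
  | 3 => tP80_3
  | 4 => tP80_4
  | 5 => tP80_5
  | 6 => tP80_6
  | 7 => tP80_7
  | 8 => tP80_8
  | 9 => tP80_9
  | 10 => tP80_10
  | 11 => tP80_11
  | 12 => tP80_12
  | 13 => tP80_13
  | 14 => tP80_14
  | 15 => tP80_15
  | 16 => tP80_16
  | 17 => tP80_17
  | 18 => tP80_18
  | 19 => tP80_19
  | 20 => tP80_20
  | 21 => tP80_21
  | 22 => tP80_22
  | 23 => tP80_23
  | 24 => tP80_24
  | 25 => tP80_25
  | 26 => tP80_26
  | 27 => tP80_27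
  | 28 => tP80_28
  | 29 => tP80_29
  | 30 => tP80_30
  | 31 => tP80_31
  | 32 => tP80_32
  | 33 => tP80_33
  | 34 => tP80_34
  | _ => tP80_35

noncomputable def tP81 : ℕ → ℕ
  | 0 => tP81_0
  | 1 => tP81_1
  | 2 => tP81_2
  | 3 => tP81_3
  | 4 => tP81_4
  | 5 => tP81_5
  | 6 => tP81_6
  | 7 => tP81_7
  | 8 => tP81_8
  | 9 => tP81_9
  | 10 => tP81_10
  | 11 => tP81_11
  | 12 => tP81_12
  | 13 => tP81_13
  | 14 => tP81_14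
  | 15 => tP81_15
  | 16 => tP81_16
  | 17 => tP81_17
  | 18 => tP81_18
  | 19 => tP81_19
  | 20 => tP81_20
  | 21 => tP81_21
  | 22 => tP81_22
  | 23 => tP81_23
  | 24 => tP81_24
  | 25 => tP81_25
  | 26 => tP81_26
  | 27 => tP81_27
  | 28 => tP81_28
  | 29 => tP81_29
  | 30 => tP81_30
  | 31 => tP81_31
  | 32 => tP81_32
  | 33 => tP81_33
  | 34 => tP81_34
  | _ => tP81_35

noncomputable def tG13 : ℕ → ℕ
  | 0 => tG13_0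
  | 1 => tG13_1
  | 2 => tG13_2
  | 3 => tG13_3
  | 4 => tG13_4
  | 5 => tG13_5
  | 6 => tG13_6
  | 7 => tG13_7
  | 8 => tG13_8
  | 9 => tG13_9
  | 10 => tG13_10
  | _ => tG13_11

noncomputable def tP13 : ℕ → ℕ
  | 0 => tP13_0
  | 1 => tP13_1
  | 2 => tP13_2
  | 3 => tP13_3
  | 4 => tP13_4
  | 5 => tP13_5
  | 6 => tP13_6
  | 7 => tP13_7
  | 8 => tP13_8
  | 9 => tP13_9
  | 10 => tP13_10
  | _ => tP13_11

noncomputable def tSG : ℕ → ℕ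
  | 0 => tSG_0
  | 1 => tSG_1
  | 2 => tSG_2
  | 3 => tSG_3
  | 4 => tSG_4
  | 5 => tSG_5
  | 6 => tSG_6
  | 7 => tSG_7
  | 8 => tSG_8
  | 9 => tSG_9
  | 10 => tSG_10
  | _ => tSG_11

/-- the certificate -/
noncomputable def tabs : Tabs where
  P3 := tP3
  P4 := tP4
  PZ := tPZ
  PS := tPS
  P12 := tP12
  G0 := tG0
  G4 := tG4
  P80 := tP80
  P81 := tP81
  G13 := tG13
  P13 := tP13
  SG := tSG
  K := 300000
  CC := 179846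

end Pool.Agent.GreedyCons
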