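import Pool.Agent.GreedyCons.Defs

/-! # Words of a `0/1` sequence and the local rules (MP_a0eb8a_nt) -/

namespace Pool.Agent.GreedyCons

/-- the word of `s` on `b, …, b + n - 1` (bit `i` is `s (b + i)`) -/
def wd (s : ℕ → Bool) : ℕ → ℕ → ℕ
  | _, 0 => 0
  | b, n + 1 => (s b).toNat + 2 * wd s (b + 1) n

/-- indicator of the sums of two consecutive elements -/
noncomputable def uB (s : ℕ → Bool) (x : ℕ) : Bool := @decide (isU s x) (Classical.propDecidable _)

/-- indicator of the sums of three consecutive elements -/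
noncomputable def tB (s : ℕ → Bool) (x : ℕ) : Bool := @decide (isT s x) (Classical.propDecidable _)

/-- entry `x < 32` (2 bits): for the 5-bit word `x` on `h-2, …, h+2`, bit `0` tells whether `2h` and
bit `1` whether `2h+1` is a sum of two consecutive elements -/
def UTL : ℕ := 0xaa5000a4aa500000

/-- entry `x < 512` (3 bits): for the 9-bit word `x` on `l-4, …, l+4`, bit `r` tells whether
`3l+r` is a sum of three consecutive elements -/
def TTL : ℕ := 0x249249000000924924492240492492249000000000000000249249000000000000924480924924492240249000000000249249000000924924492240492492249000000000000000249249000000000000000900000000924488000000000000249249000000924924492240492492249000000000000000249249000000000000924480924924492240249000000000249249000000924924492240492492249000000000000000249249000000000000000000000000000000000000000000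

/-- 2 bits of the `U`-word -/
def uc (w i : ℕ) : ℕ := Nat.mod (Nat.shiftRight UTL (Nat.mul 2 (Nat.mod (Nat.shiftRight w i) 32))) 4

/-- 3 bits of the `T`-word -/
def tc (w i : ℕ) : ℕ := Nat.mod (Nat.shiftRight TTL (Nat.mul 3 (Nat.mod (Nat.shiftRight w i) 512))) 8

def uw4 (w : ℕ) : ℕ := Nat.add (Nat.add (uc w 0) (Nat.shiftLeft (uc w 1) 2))
  (Nat.add (Nat.shiftLeft (uc w 2) 4) (Nat.shiftLeft (uc w 3) 6))

def uw7 (w : ℕ) : ℕ := Nat.add (uw4 w) (Nat.add (Nat.shiftLeft (uc w 4) 8)
  (Nat.add (Nat.shiftLeft (uc w 5) 10) (Nat.shiftLeft (uc w 6) 12)))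

def uw9 (w : ℕ) : ℕ := Nat.add (uw7 w) (Nat.add (Nat.shiftLeft (uc w 7) 14) (Nat.shiftLeft (uc w 8) 16))

def tw3 (w : ℕ) : ℕ := Nat.add (tc w 0) (Nat.add (Nat.shiftLeft (tc w 1) 3) (Nat.shiftLeft (tc w 2) 6))

def tw5 (w : ℕ) : ℕ := Nat.add (tw3 w) (Nat.add (Nat.shiftLeft (tc w 3) 9) (Nat.shiftLeft (tc w 4) 12))

/-- no four consecutive zeros among the first `n` bits, if the word is preceded by `r` zeros -/
def adm : ℕ → ℕ → ℕ → Bool
  | 0, _, _ => true
  | n + 1, r, w => if w % 2 = 1 then adm n 0 (w / 2) else (decide (r < 3) && adm n (r + 1) (w / 2))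

end Pool.Agent.GreedyCons
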